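import Mathlib

/-!
# Asymptotic facts
-/

open Filter Topology Real

namespace Pool.Agent.H949.CM

theorem ev_log_le_rpow (A B : ℝ) {c r : ℝ} (hc : 0 < c) (hr : 0 < r) :
    ∀ᶠ x : ℝ in atTop, A * log x + B ≤ c * x ^ r := by
  have h1 := (isLittleO_log_rpow_atTop hr).bound (c := c / (2 * (|A| + 1))) (by positivity)
  have h2 : ∀ᶠ x : ℝ in atTop, 2 * B / c ≤ x ^ r :=
    (tendsto_rpow_atTop hr).eventually_ge_atTop _
  filter_upwards [h1, h2, eventually_ge_atTop (1 : ℝ)] with x hx1 hx2 hx3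
  have hlog : 0 ≤ log x := log_nonneg hx3
  have hxr : 0 < x ^ r := rpow_pos_of_pos (by linarith) _
  rw [norm_of_nonneg hlog, norm_of_nonneg hxr.le] at hx1
  have h3 : A * log x ≤ c / 2 * x ^ r := by
    calc A * log x ≤ |A| * log x := mul_le_mul_of_nonneg_right (le_abs_self A) hlog
      _ ≤ (|A| + 1) * log x := mul_le_mul_of_nonneg_right (by linarith) hlog
      _ ≤ (|A| + 1) * (c / (2 * (|A| + 1)) * x ^ r) :=
          mul_le_mul_of_nonneg_left hx1 (by positivity)
      _ = c / 2 * x ^ r := by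
          have : |A| + 1 ≠ 0 := by positivity
          field_simp
  have h4 : B ≤ c / 2 * x ^ r := by
    rw [div_le_iff₀ hc] at hx2
    linarith
  linarith

theorem ev_far_exponent {c A D θ : ℝ} (hc : 0 ≤ c) (hA : 0 ≤ A) (hD : 0 ≤ D) (hθ : 0 < θ) :
    ∀ᶠ y : ℝ in atTop, (c * log y + 1) * (A + D * y ^ (1 - θ)) ≤ y / 2 := by
  have h1 := ev_log_le_rpow c 1 (c := 1 / (2 * (A + D + 1))) (r := θ) (by positivity) hθ
  have h2 : ∀ᶠ y : ℝ in atTop, A * log y + A ≤ A * log y + A := Eventually.of_forall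
    (fun _ => le_refl _)
  by_cases hθ1 : θ ≤ 1
  · filter_upwards [h1, eventually_ge_atTop (1 : ℝ)] with y hy1 hy2
    have hlog : 0 ≤ log y := log_nonneg hy2
    have hy0 : 0 < y := by linarith
    have h3 : 1 ≤ y ^ (1 - θ) := one_le_rpow hy2 (by linarith)
    have h4 : A + D * y ^ (1 - θ) ≤ (A + D) * y ^ (1 - θ) := by nlinarith
    have h5 : 0 ≤ c * log y + 1 := by positivity
    have h6 : 0 ≤ A + D * y ^ (1 - θ) := by positivity
    calc (c * log y + 1) * (A + D * y ^ (1 - θ))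
        ≤ (1 / (2 * (A + D + 1)) * y ^ θ) * ((A + D) * y ^ (1 - θ)) :=
          mul_le_mul hy1 h4 h6 (by positivity)
      _ = (A + D) / (2 * (A + D + 1)) * (y ^ θ * y ^ (1 - θ)) := by ring
      _ = (A + D) / (2 * (A + D + 1)) * y := by
          rw [← rpow_add hy0]
          simp
      _ ≤ 1 / 2 * y := by
          apply mul_le_mul_of_nonneg_right _ hy0.le
          rw [div_le_div_iff₀ (by positivity) (by norm_num)]
          linarith
      _ = y / 2 := by ring
  · have h7 := ev_log_le_rpow c 1 (c := 1 / (2 * (A + D + 1))) (r := 1) (by positivity)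
      one_pos
    filter_upwards [h7, eventually_ge_atTop (1 : ℝ)] with y hy1 hy2
    have hlog : 0 ≤ log y := log_nonneg hy2
    have hy0 : 0 < y := by linarith
    have h3 : y ^ (1 - θ) ≤ 1 := rpow_le_one_of_one_le_of_nonpos hy2 (by linarith)
    have h4 : A + D * y ^ (1 - θ) ≤ A + D := by nlinarith
    have h5 : 0 ≤ c * log y + 1 := by positivity
    have h6 : 0 ≤ A + D * y ^ (1 - θ) := by positivity
    rw [rpow_one] at hy1
    calc (c * log y + 1) * (A + D * y ^ (1 - θ))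
        ≤ (1 / (2 * (A + D + 1)) * y) * (A + D) :=
          mul_le_mul hy1 h4 h6 (by positivity)
      _ = (A + D) / (2 * (A + D + 1)) * y := by ring
      _ ≤ 1 / 2 * y := by
          apply mul_le_mul_of_nonneg_right _ hy0.le
          rw [div_le_div_iff₀ (by positivity) (by norm_num)]
          linarith
      _ = y / 2 := by ring

theorem ev_mul_exp_neg {δ : ℝ} (hδ : 0 < δ) :
    ∀ᶠ y : ℝ in atTop, y * (2 * exp (-(y / 2))) ≤ δ := by
  have h1 := tendsto_pow_mul_exp_neg_atTop_nhds_zero 1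
  have h2 : Tendsto (fun y : ℝ => y / 2) atTop atTop :=
    tendsto_id.atTop_div_const (by norm_num)
  have h3 := (h1.comp h2).eventually (ge_mem_nhds (show (0 : ℝ) < δ / 4 by positivity))
  filter_upwards [h3] with y hy
  have hy' : (y / 2) ^ 1 * exp (-(y / 2)) ≤ δ / 4 := hy
  rw [pow_one] at hy'
  linarith

theorem ev_sq_mul_exp_neg {c r δ : ℝ} (hc : 0 < c) (hr : 0 < r) (hδ : 0 < δ) :
    ∀ᶠ x : ℝ in atTop, x ^ 2 * exp (-(c * x ^ r)) ≤ δ := by
  have h1 := ev_log_le_rpow 2 (-log δ) hc hr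
  filter_upwards [h1, eventually_gt_atTop (0 : ℝ)] with x hx hx0
  have h2 : x ^ 2 = exp (2 * log x) := by
    rw [mul_comm, exp_mul, exp_log hx0]
    norm_cast
  rw [h2, ← exp_add]
  calc exp (2 * log x + -(c * x ^ r)) ≤ exp (log δ) := exp_le_exp.2 (by linarith)
    _ = δ := exp_log hδ

theorem ev_level {c w κ' B' : ℝ} (hc : 0 < c) (hw : 0 < w) (hB : κ' * B' = B' + 2) :
    ∀ᶠ z : ℝ in atTop, exp (-(c * z ^ w)) + z * (z ^ κ') ^ (-B') ≤ z ^ (-B') := by
  have h1 := ev_log_le_rpow B' (log 2) hc hw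
  filter_upwards [h1, eventually_ge_atTop (2 : ℝ)] with z hz hz2
  have hz0 : 0 < z := by linarith
  have h2 : exp (-(c * z ^ w)) ≤ 1 / 2 * z ^ (-B') := by
    have h3 : (1 : ℝ) / 2 * z ^ (-B') = exp (-(B' * log z + log 2)) := by
      rw [neg_add, exp_add, exp_neg (log 2), exp_log (by norm_num), rpow_def_of_pos hz0]
      rw [show log z * -B' = -(B' * log z) by ring]
      ring
    rw [h3]
    exact exp_le_exp.2 (by linarith)
  have h4 : z * (z ^ κ') ^ (-B') = z ^ (-B') * z ^ (-1 : ℝ) := by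
    rw [← rpow_mul hz0.le, ← rpow_add hz0]
    nth_rewrite 1 [← rpow_one z]
    rw [← rpow_add hz0]
    congr 1
    linarith
  have h5 : z ^ (-1 : ℝ) ≤ 1 / 2 := by
    rw [rpow_neg_one, inv_eq_one_div]
    exact one_div_le_one_div_of_le (by norm_num) hz2
  have h6 : 0 < z ^ (-B') := rpow_pos_of_pos hz0 _
  rw [h4]
  nlinarith

/-- The number of levels. -/
theorem levels_bound {K0 κ' X y : ℝ} (hK0 : exp 1 ≤ K0) (hκ' : 1 < κ') (hX : 0 < X)
    (hXy : log X ≤ y) (hy : 1 ≤ y) (J : ℕ) (hJ : ∀ j < J, K0 ^ (κ' ^ j) < X) :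
    (J : ℝ) ≤ log y / log κ' + 1 := by
  have hlκ : 0 < log κ' := log_pos hκ'
  rcases Nat.eq_zero_or_pos J with h0 | h0
  · rw [h0]
    have : 0 ≤ log y / log κ' := div_nonneg (log_nonneg hy) hlκ.le
    push_cast
    linarith
  · obtain ⟨i, rfl⟩ : ∃ i, J = i + 1 := ⟨J - 1, by omega⟩
    have h1 := hJ i (by omega)
    have hK0pos : 0 < K0 := lt_of_lt_of_le (exp_pos 1) hK0
    have h2 : κ' ^ i * log K0 < log X := by
      rw [← log_rpow hK0pos]
      exact log_lt_log (rpow_pos_of_pos hK0pos _) h1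
    have h3 : 1 ≤ log K0 := by
      rw [le_log_iff_exp_le hK0pos]; exact hK0
    have h4 : 0 < κ' ^ i := by positivity
    have h5 : κ' ^ i < y := by nlinarith
    have h6 : i * log κ' < log y := by
      rw [← log_pow]
      exact log_lt_log h4 h5
    have h7 : (i : ℝ) < log y / log κ' := by
      rw [lt_div_iff₀ hlκ]; exact h6
    push_cast
    linarith

theorem exists_level {K0 κ' X : ℝ} (hK0 : 1 < K0) (hκ' : 1 < κ') :
    ∃ J : ℕ, X ≤ K0 ^ (κ' ^ J) ∧ ∀ j < J, K0 ^ (κ' ^ j) < X := by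
  classical
  have h1 : ∃ J : ℕ, X ≤ K0 ^ (κ' ^ J) := by
    have h2 : Tendsto (fun J : ℕ => K0 ^ (κ' ^ J)) atTop atTop :=
      (tendsto_rpow_atTop_of_base_gt_one K0 hK0).comp (tendsto_pow_atTop_atTop_of_one_lt hκ')
    exact (h2.eventually_ge_atTop X).exists
  refine ⟨Nat.find h1, Nat.find_spec h1, ?_⟩
  intro j hj
  exact not_le.1 (Nat.find_min h1 hj)

end Pool.Agent.H949.CM
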