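import Mathlib

/-!
# Degree sequences: moments and counts of vertices of large degree
-/

set_option linter.unusedSectionVars false
set_option linter.unusedSimpArgs false

open MeasureTheory Finset ProbabilityTheory
open scoped ENNReal

namespace Pool.Agent.H949.CM

theorem moment_finite (μD : Measure ℕ) [IsProbabilityMeasure μD] {C1 γ s : ℝ} (hC1 : 0 ≤ C1)
    (hs : 0 < s) (hγ : s < γ)
    (hup : ∀ x : ℝ, 1 ≤ x → μD {k | x < k} ≤ ENNReal.ofReal (C1 * x ^ (-γ))) :
    ∫⁻ k, ENNReal.ofReal (((k : ℝ) + 1) ^ s) ∂μD < ⊤ := by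
  rw [lintegral_rpow_eq_lintegral_meas_lt_mul μD
    (f := fun k : ℕ => (k : ℝ) + 1) (Filter.Eventually.of_forall (fun k => by positivity))
    (measurable_of_countable _).aemeasurable hs]
  apply ENNReal.mul_lt_top ENNReal.ofReal_lt_top
  have hsplit : Set.Ioi (0 : ℝ) = Set.Ioc 0 2 ∪ Set.Ioi 2 := by
    rw [Set.Ioc_union_Ioi_eq_Ioi (by norm_num)]
  rw [hsplit]
  refine lt_of_le_of_lt (lintegral_union_le _ _ _) (ENNReal.add_lt_top.2 ⟨?_, ?_⟩)
  · have h1 : IntegrableOn (fun t : ℝ => t ^ (s - 1)) (Set.Ioc 0 2) volume := by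
      have h2 := intervalIntegral.intervalIntegrable_rpow' (a := 0) (b := 2) (r := s - 1)
        (by linarith)
      rwa [intervalIntegrable_iff_integrableOn_Ioc_of_le (by norm_num)] at h2
    refine lt_of_le_of_lt ?_ h1.lintegral_lt_top
    apply lintegral_mono
    intro t
    calc μD {a | t < (a : ℝ) + 1} * ENNReal.ofReal (t ^ (s - 1))
        ≤ 1 * ENNReal.ofReal (t ^ (s - 1)) := by
          gcongr; exact prob_le_one
      _ = ENNReal.ofReal (t ^ (s - 1)) := one_mul _
  · have h1 : IntegrableOn (fun t : ℝ => (C1 * 2 ^ γ) * t ^ (s - 1 - γ)) (Set.Ioi 2) volume :=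
      (integrableOn_Ioi_rpow_of_lt (by linarith) (by norm_num)).const_mul _
    refine lt_of_le_of_lt ?_ h1.lintegral_lt_top
    apply setLIntegral_mono' measurableSet_Ioi
    intro t ht
    have ht2 : (2 : ℝ) < t := ht
    have h2 : μD {a : ℕ | t < (a : ℝ) + 1} ≤ ENNReal.ofReal (C1 * (t / 2) ^ (-γ)) := by
      refine le_trans (measure_mono ?_) (hup (t / 2) (by linarith))
      intro a ha
      have ha' : t < (a : ℝ) + 1 := ha
      show t / 2 < (a : ℝ)
      linarith
    calc μD {a | t < (a : ℝ) + 1} * ENNReal.ofReal (t ^ (s - 1))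
        ≤ ENNReal.ofReal (C1 * (t / 2) ^ (-γ)) * ENNReal.ofReal (t ^ (s - 1)) := by gcongr
      _ = ENNReal.ofReal ((C1 * 2 ^ γ) * t ^ (s - 1 - γ)) := by
          rw [← ENNReal.ofReal_mul (by positivity)]
          congr 1
          rw [Real.div_rpow (by linarith) (by norm_num)]
          have e1 : t ^ (s - 1 - γ) = t ^ (s - 1) * t ^ (-γ) := by
            rw [← Real.rpow_add (by linarith)]; ring_nf
          have e2 : (2 : ℝ) ^ (-γ) = (2 ^ γ)⁻¹ := Real.rpow_neg (by norm_num) _
          rw [e1, e2]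
          have : (2 : ℝ) ^ γ ≠ 0 := by positivity
          field_simp

/-- Number of indices with large degree. -/
def cnt {N : ℕ} (k : ℕ) (d : Fin N → ℕ) : ℕ := (univ.filter (fun v => k ≤ d v)).card

theorem chernoff (μD : Measure ℕ) [IsProbabilityMeasure μD] (N k : ℕ) {q : ℝ} (hq0 : 0 ≤ q)
    (hq : q ≤ μD.real {j | k ≤ j}) :
    (Measure.pi fun _ : Fin N => μD).real {d | (cnt k d : ℝ) ≤ N * q / 4} ≤
      Real.exp (-(N * q / 4)) := by
  set μ := (Measure.pi fun _ : Fin N => μD) with hμ
  have hX : ∀ d : Fin N → ℕ, (cnt k d : ℝ) = ∑ v, (if k ≤ d v then (1 : ℝ) else 0) := by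
    intro d
    unfold cnt
    rw [Finset.card_filter]
    push_cast
    rfl
  have hfb : ∀ j : ℕ, ‖Real.exp (-(if k ≤ j then (1 : ℝ) else 0))‖ ≤ 1 := by
    intro j
    rw [Real.norm_eq_abs, abs_of_pos (Real.exp_pos _)]
    apply Real.exp_le_one_iff.2
    split_ifs <;> norm_num
  have hfi : Integrable (fun j : ℕ => Real.exp (-(if k ≤ j then (1 : ℝ) else 0))) μD :=
    Integrable.of_bound (measurable_of_countable _).aestronglyMeasurable 1
      (Filter.Eventually.of_forall hfb)
  have hprod : ∀ d : Fin N → ℕ, Real.exp (-1 * (cnt k d : ℝ)) =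
      ∏ v, Real.exp (-(if k ≤ d v then (1 : ℝ) else 0)) := by
    intro d
    rw [← Real.exp_sum, hX, Finset.sum_neg_distrib, neg_one_mul]
  have hint : Integrable (fun d : Fin N → ℕ => Real.exp (-1 * (cnt k d : ℝ))) μ := by
    simp_rw [hprod]
    exact Integrable.fintype_prod (fun _ => hfi)
  have h1 := measure_le_le_exp_mul_mgf (μ := μ) (X := fun d => (cnt k d : ℝ)) (t := -1)
    (N * q / 4) (by norm_num) hint
  refine le_trans h1 ?_
  have hmgf : mgf (fun d : Fin N → ℕ => (cnt k d : ℝ)) μ (-1) ≤ Real.exp (-(N * q / 2)) := by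
    unfold mgf
    simp_rw [hprod]
    rw [integral_fintype_prod_eq_pow (ι := Fin N)
      (fun j : ℕ => Real.exp (-(if k ≤ j then (1 : ℝ) else 0)))]
    have h2 : ∫ j, Real.exp (-(if k ≤ j then (1 : ℝ) else 0)) ∂μD ≤ Real.exp (-(q / 2)) := by
      have h3 : ∀ j : ℕ, Real.exp (-(if k ≤ j then (1 : ℝ) else 0)) =
          1 - (1 - Real.exp (-1)) * Set.indicator {j | k ≤ j} (fun _ => (1 : ℝ)) j := by
        intro j
        by_cases hj : k ≤ j
        · rw [if_pos hj, Set.indicator_of_mem (show j ∈ {j | k ≤ j} from hj)]; ring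
        · rw [if_neg hj, Set.indicator_of_notMem (show j ∉ {j | k ≤ j} from hj)]; simp
      simp_rw [h3]
      rw [integral_sub (integrable_const _) (by
        apply Integrable.const_mul
        exact (integrable_const (1 : ℝ)).indicator (MeasurableSet.of_discrete)),
        integral_const_mul, integral_indicator_const _ MeasurableSet.of_discrete]
      simp only [integral_const, probReal_univ, smul_eq_mul, mul_one]
      have h4 : Real.exp (-1) ≤ 1 / 2 := by
        rw [Real.exp_neg]
        have := Real.exp_one_gt_d9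
        rw [inv_eq_one_div]
        exact one_div_le_one_div_of_le (by norm_num) (by linarith)
      have h5 : 1 - (1 - Real.exp (-1)) * μD.real {j | k ≤ j} ≤ 1 - q / 2 := by
        have : 0 ≤ μD.real {j | k ≤ j} := measureReal_nonneg
        nlinarith
      have h6 := Real.add_one_le_exp (-(q / 2))
      linarith
    have h7 : 0 ≤ ∫ j, Real.exp (-(if k ≤ j then (1 : ℝ) else 0)) ∂μD :=
      integral_nonneg (fun _ => (Real.exp_pos _).le)
    calc (∫ j, Real.exp (-(if k ≤ j then (1 : ℝ) else 0)) ∂μD) ^ Fintype.card (Fin N)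
        ≤ (Real.exp (-(q / 2))) ^ Fintype.card (Fin N) := pow_le_pow_left₀ h7 h2 _
      _ = Real.exp (-(N * q / 2)) := by
          rw [← Real.exp_nat_mul, Fintype.card_fin]
          congr 1; ring
  calc Real.exp (-(-1) * (N * q / 4)) * mgf (fun d : Fin N → ℕ => (cnt k d : ℝ)) μ (-1)
      ≤ Real.exp (-(-1) * (N * q / 4)) * Real.exp (-(N * q / 2)) :=
        mul_le_mul_of_nonneg_left hmgf (Real.exp_pos _).le
    _ = Real.exp (-(N * q / 4)) := by
        rw [← Real.exp_add]; congr 1; ring

/-- First-moment (Markov) bound for additive functionals of independent degrees. -/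
theorem markov_sum (μD : Measure ℕ) [IsProbabilityMeasure μD] (N : ℕ) (f : ℕ → ℝ≥0∞)
    (K : ℝ≥0∞) (hK : K ≠ 0) (hK' : K ≠ ⊤) :
    (Measure.pi fun _ : Fin N => μD) {d | K ≤ ∑ v, f (d v)} ≤
      (N * ∫⁻ k, f k ∂μD) / K := by
  refine le_trans (meas_ge_le_lintegral_div (measurable_of_countable _).aemeasurable hK hK') ?_
  gcongr
  rw [lintegral_finsetSum _ (fun v _ => measurable_of_countable _)]
  have h1 : ∀ v : Fin N, ∫⁻ d, f (d v) ∂(Measure.pi fun _ : Fin N => μD) = ∫⁻ k, f k ∂μD := by
    intro v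
    exact (measurePreserving_eval (fun _ : Fin N => μD) v).lintegral_comp
      (measurable_of_countable f)
  simp only [h1, sum_const, card_univ, Fintype.card_fin, nsmul_eq_mul]
  exact le_refl _

end Pool.Agent.H949.CM
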