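import Pool.Agent.H949.CM.Far

/-!
# The competition process: outcomes, existence, and comparison with walks
-/

set_option linter.unusedSectionVars false
set_option linter.unusedSimpArgs false

open Finset
open scoped ENNReal

namespace Pool.Agent.H949.CM

variable {V H : Type*} [Fintype V] [DecidableEq V] [Fintype H] [DecidableEq H]

/-- The first time at which colour `c` (`true` is red, `false` is blue) reaches `w`, given the
colouring times `t` and the colours `col`: colour `c` leaves a vertex `vert h` that has colour `c`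
at its colouring time and crosses the edge `{h, σ h}` in time `T c s(h, σ h)`. -/
noncomputable def arr (vert : H → V) (σ : Mt H) (T : Bool → Sym2 H → ℝ≥0∞) (t : V → ℝ≥0∞)
    (col : V → Option Bool) (c : Bool) (w : V) : ℝ≥0∞ :=
  ⨅ h ∈ {h : H | col (vert h) = some c ∧ vert (σ h) = w}, (t (vert h) + T c s(h, σ h))

/-- `t` and `col` are the colouring times and the final colours of the competition on the graph
of `σ` with edge lengths `T true` for red and `T false` for blue, started at time `0` from the red
source `a` and the blue source `b`, for some way of breaking ties. If `a = b` the common source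
has an arbitrary colour. A vertex that is never reached has `col v = none` and `t v = ⊤`. -/
structure IsOutcome (vert : H → V) (σ : Mt H) (T : Bool → Sym2 H → ℝ≥0∞) (a b : V)
    (t : V → ℝ≥0∞) (col : V → Option Bool) : Prop where
  time_a : t a = 0
  time_b : t b = 0
  col_a : a ≠ b → col a = some true
  col_b : a ≠ b → col b = some false
  col_ab : a = b → col a ≠ none
  time : ∀ v, v ≠ a → v ≠ b →
    t v = min (arr vert σ T t col true v) (arr vert σ T t col false v)
  colour : ∀ v, v ≠ a → v ≠ b → ∀ c, col v = some c → arr vert σ T t col c v = t v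
  never : ∀ v, col v = none ↔ t v = ⊤

theorem arr_le {vert : H → V} {σ : Mt H} {T : Bool → Sym2 H → ℝ≥0∞} {t : V → ℝ≥0∞}
    {col : V → Option Bool} {c : Bool} {w : V} {h : H} (h1 : col (vert h) = some c)
    (h2 : vert (σ h) = w) : arr vert σ T t col c w ≤ t (vert h) + T c s(h, σ h) :=
  iInf₂_le h ⟨h1, h2⟩

theorem arr_attained {vert : H → V} {σ : Mt H} {T : Bool → Sym2 H → ℝ≥0∞} {t : V → ℝ≥0∞}
    {col : V → Option Bool} {c : Bool} {w : V} (hlt : arr vert σ T t col c w < ⊤) :
    ∃ h, col (vert h) = some c ∧ vert (σ h) = w ∧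
      t (vert h) + T c s(h, σ h) = arr vert σ T t col c w := by
  set S : Set H := {h : H | col (vert h) = some c ∧ vert (σ h) = w} with hS
  have hne : S.Nonempty := by
    by_contra hcon
    rw [Set.not_nonempty_iff_eq_empty] at hcon
    have : arr vert σ T t col c w = ⊤ := by
      unfold arr
      rw [← hS, hcon]
      simp
    rw [this] at hlt
    exact lt_irrefl _ hlt
  obtain ⟨h, hh, hmin⟩ := Set.exists_min_image S (fun h => t (vert h) + T c s(h, σ h))
    (Set.toFinite S) hne
  refine ⟨h, hh.1, hh.2, le_antisymm ?_ (arr_le hh.1 hh.2)⟩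
  exact le_iInf₂ (fun g hg => hmin g hg)

/-- A blue vertex is joined to the blue source by a walk of length at most its colouring time
divided by the smallest blue length. -/
theorem blue_walk {vert : H → V} {σ : Mt H} {T : Bool → Sym2 H → ℝ≥0∞} {a b : V}
    {t : V → ℝ≥0∞} {col : V → Option Bool} (hO : IsOutcome vert σ T a b t col) {β : ℝ}
    (hβ : 0 < β) (hT : ∀ e, ENNReal.ofReal β ≤ T false e) :
    ∀ (k : ℕ) (w : V), col w = some false → t w < ENNReal.ofReal (β * k) →
      ∃ j : ℕ, Wk vert σ j b w ∧ ENNReal.ofReal (β * j) ≤ t w := by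
  intro k
  induction k with
  | zero =>
    intro w _ h2
    simp at h2
  | succ k ih =>
    intro w hw hlt
    by_cases hwb : w = b
    · subst hwb
      exact ⟨0, rfl, by simp⟩
    by_cases hwa : w = a
    · exfalso
      by_cases hab : a = b
      · exact hwb (hwa.trans hab)
      · have := hO.col_a hab
        rw [hwa, this] at hw
        simp at hw
    have h1 := hO.colour w hwa hwb false hw
    have h2 : arr vert σ T t col false w < ⊤ := by
      rw [h1]; exact lt_of_lt_of_le hlt le_top
    obtain ⟨h, hc, hv, he⟩ := arr_attained h2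
    rw [h1] at he
    have h3 : t (vert h) + ENNReal.ofReal β ≤ t w := by
      rw [← he]; gcongr; exact hT _
    have h4 : t (vert h) < ENNReal.ofReal (β * k) := by
      have h5 : t (vert h) + ENNReal.ofReal β < ENNReal.ofReal (β * k) + ENNReal.ofReal β := by
        calc t (vert h) + ENNReal.ofReal β ≤ t w := h3
          _ < ENNReal.ofReal (β * (k + 1 : ℕ)) := hlt
          _ = ENNReal.ofReal (β * k) + ENNReal.ofReal β := by
              rw [← ENNReal.ofReal_add (by positivity) hβ.le]
              congr 1
              push_cast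
              ring
      exact lt_of_add_lt_add_right h5
    obtain ⟨j, hj1, hj2⟩ := ih (vert h) hc h4
    refine ⟨j + 1, hj1.trans ⟨h, rfl, hv⟩, ?_⟩
    calc ENNReal.ofReal (β * (j + 1 : ℕ)) = ENNReal.ofReal (β * j) + ENNReal.ofReal β := by
          rw [← ENNReal.ofReal_add (by positivity) hβ.le]
          congr 1
          push_cast
          ring
      _ ≤ t (vert h) + ENNReal.ofReal β := by gcongr
      _ ≤ t w := h3

/-- Walks with `k` edges whose total excess over `y0` per edge is at most `C`. -/
def XW (vert : H → V) (σ : Mt H) (w : Sym2 H → ℝ) (y0 : ℝ) : ℕ → ℝ → V → V → Prop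
  | 0, C, x, y => x = y ∧ 0 ≤ C
  | (k + 1), C, x, y => ∃ h, vert h = x ∧
      XW vert σ w y0 k (C - (w s(h, σ h) - y0)) (vert (σ h)) y

theorem XW.mono {vert : H → V} {σ : Mt H} {w : Sym2 H → ℝ} {y0 : ℝ} :
    ∀ {k : ℕ} {C C' : ℝ} {x y : V}, XW vert σ w y0 k C x y → C ≤ C' →
      XW vert σ w y0 k C' x y := by
  intro k
  induction k with
  | zero => intro C C' x y h hC; exact ⟨h.1, le_trans h.2 hC⟩
  | succ k ih =>
    intro C C' x y h hC
    obtain ⟨g, h1, h2⟩ := h
    exact ⟨g, h1, ih h2 (by linarith)⟩

theorem XW.trans {vert : H → V} {σ : Mt H} {w : Sym2 H → ℝ} {y0 : ℝ} :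
    ∀ {j k : ℕ} {C C' : ℝ} {x y z : V}, XW vert σ w y0 j C x y → XW vert σ w y0 k C' y z →
      XW vert σ w y0 (j + k) (C + C') x z := by
  intro j
  induction j with
  | zero =>
    intro k C C' x y z h1 h2
    obtain ⟨rfl, h3⟩ := h1
    rw [zero_add]
    exact h2.mono (by linarith)
  | succ j ih =>
    intro k C C' x y z h1 h2
    obtain ⟨g, h3, h4⟩ := h1
    have : j + 1 + k = (j + k) + 1 := by ring
    rw [this]
    refine ⟨g, h3, ?_⟩
    have := ih h4 h2
    exact this.mono (by linarith)

theorem XW.symm {vert : H → V} {σ : Mt H} {w : Sym2 H → ℝ} {y0 : ℝ} :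
    ∀ {k : ℕ} {C : ℝ} {x y : V}, XW vert σ w y0 k C x y → XW vert σ w y0 k C y x := by
  intro k
  induction k with
  | zero => intro C x y h; exact ⟨h.1.symm, h.2⟩
  | succ k ih =>
    intro C x y h
    obtain ⟨g, h1, h2⟩ := h
    have h3 : XW vert σ w y0 1 (w s(g, σ g) - y0) (vert (σ g)) x := by
      refine ⟨σ g, rfl, ?_⟩
      rw [Mt.invol, h1]
      refine ⟨rfl, ?_⟩
      rw [show s(σ g, g) = s(g, σ g) from Sym2.eq_swap]
      linarith
    exact ((ih h2).trans h3).mono (by linarith)

theorem XW.wk {vert : H → V} {σ : Mt H} {w : Sym2 H → ℝ} {y0 : ℝ} :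
    ∀ {k : ℕ} {C : ℝ} {x y : V}, XW vert σ w y0 k C x y → Wk vert σ k x y := by
  intro k
  induction k with
  | zero => intro C x y h; exact h.1
  | succ k ih =>
    intro C x y h
    obtain ⟨g, h1, h2⟩ := h
    exact ⟨g, h1, ih h2⟩

theorem XW.nonneg {vert : H → V} {σ : Mt H} {w : Sym2 H → ℝ} {y0 : ℝ} (hw : ∀ e, y0 ≤ w e) :
    ∀ {k : ℕ} {C : ℝ} {x y : V}, XW vert σ w y0 k C x y → 0 ≤ C := by
  intro k
  induction k with
  | zero => intro C x y h; exact h.2
  | succ k ih =>
    intro C x y h
    obtain ⟨g, h1, h2⟩ := h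
    have := ih h2
    have := hw s(g, σ g)
    linarith

/-- Along a red walk on which blue cannot arrive in time, every vertex is red. -/
theorem red_along {vert : H → V} {σ : Mt H} {T : Bool → Sym2 H → ℝ≥0∞} {a b : V}
    {t : V → ℝ≥0∞} {col : V → Option Bool} (hO : IsOutcome vert σ T a b t col) {β y0 : ℝ}
    (hβ : 0 < β) (hy0 : 0 ≤ y0) (hT : ∀ e, ENNReal.ofReal β ≤ T false e) (w : Sym2 H → ℝ)
    (hw : ∀ e, y0 ≤ w e) (hTw : ∀ e, T true e ≤ ENNReal.ofReal (w e)) (m : ℕ) (C : ℝ) (v : V)
    (hfar : ∀ i ≤ m, ∀ z, Wk vert σ i a z → Wk vert σ (m - i) z v → ∀ j : ℕ, Wk vert σ j b z →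
      y0 * i + C < β * j) :
    ∀ (k i : ℕ) (C' : ℝ) (x : V), XW vert σ w y0 k C' x v → i + k = m → Wk vert σ i a x →
      C' ≤ C → col x = some true → t x ≤ ENNReal.ofReal (y0 * i + (C - C')) →
      col v = some true := by
  intro k
  induction k with
  | zero =>
    intro i C' x h _ _ _ hx _
    rw [← h.1]; exact hx
  | succ k ih =>
    intro i C' x h hik hax hCC hx htx
    obtain ⟨g, h1, h2⟩ := h
    have hC0 := h2.nonneg hw
    have hwg := hw s(g, σ g)
    set z := vert (σ g) with hz
    set C'' := C' - (w s(g, σ g) - y0) with hC''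
    have haz : Wk vert σ (i + 1) a z := hax.trans ⟨g, h1, rfl⟩
    have hzv : Wk vert σ (m - (i + 1)) z v := by
      have : m - (i + 1) = k := by omega
      rw [this]; exact h2.wk
    have hfz := hfar (i + 1) (by omega) z haz hzv
    have hbound : t (vert g) + T true s(g, σ g) ≤
        ENNReal.ofReal (y0 * (i + 1 : ℕ) + (C - C'')) := by
      rw [h1]
      calc t x + T true s(g, σ g)
          ≤ ENNReal.ofReal (y0 * i + (C - C')) + ENNReal.ofReal (w s(g, σ g)) :=
            add_le_add htx (hTw _)
        _ = ENNReal.ofReal (y0 * (i + 1 : ℕ) + (C - C'')) := by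
            rw [← ENNReal.ofReal_add]
            · congr 1
              rw [hC'']
              push_cast
              ring
            · have : 0 ≤ y0 * (i : ℝ) := by positivity
              linarith
            · linarith
    have hzb : ¬ z = b := by
      intro he
      have := hfz 0 (by rw [he]; rfl)
      simp only [Nat.cast_zero, mul_zero] at this
      have h3 : 0 ≤ y0 * ((i + 1 : ℕ) : ℝ) := by positivity
      linarith
    have hres : col z = some true ∧ t z ≤ ENNReal.ofReal (y0 * (i + 1 : ℕ) + (C - C'')) := by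
      by_cases hza : z = a
      · have hab : a ≠ b := fun e => hzb (hza.trans e)
        rw [hza]
        refine ⟨hO.col_a hab, ?_⟩
        rw [hO.time_a]
        exact bot_le
      · have ht : t z ≤ ENNReal.ofReal (y0 * (i + 1 : ℕ) + (C - C'')) := by
          rw [hO.time z hza hzb]
          refine le_trans (min_le_left _ _) (le_trans (arr_le (h := g) ?_ rfl) hbound)
          rw [h1]; exact hx
        refine ⟨?_, ht⟩
        cases hcz : col z with
        | none =>
          exfalso
          have := (hO.never z).1 hcz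
          rw [this] at ht
          exact absurd (lt_of_le_of_lt ht ENNReal.ofReal_lt_top) (lt_irrefl _)
        | some c =>
          cases c with
          | true => rfl
          | false =>
            exfalso
            have hlt : t z < ⊤ := lt_of_le_of_lt ht ENNReal.ofReal_lt_top
            obtain ⟨n, hn⟩ := exists_nat_gt ((t z).toReal / β)
            have hn' : t z < ENNReal.ofReal (β * n) := by
              rw [div_lt_iff₀ hβ] at hn
              rw [ENNReal.lt_ofReal_iff_toReal_lt hlt.ne]
              linarith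
            obtain ⟨j, hj1, hj2⟩ := blue_walk hO hβ hT n z hcz hn'
            have h5 := hfz j hj1
            have h6 : ENNReal.ofReal (β * j) ≤ ENNReal.ofReal (y0 * (i + 1 : ℕ) + (C - C'')) :=
              le_trans hj2 ht
            have h7 : β * j ≤ y0 * (i + 1 : ℕ) + (C - C'') := by
              refine (ENNReal.ofReal_le_ofReal_iff ?_).1 h6
              have : 0 ≤ y0 * ((i + 1 : ℕ) : ℝ) := by positivity
              linarith
            linarith
    exact ih (i + 1) C'' z h2 (by omega) haz (by linarith) hres.1 hres.2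

/-- Deterministic core: if the blue source is far from the red source and from `v`, and there is
a short red walk from the red source to `v`, then `v` is red. -/
theorem det_main {vert : H → V} {σ : Mt H} {T : Bool → Sym2 H → ℝ≥0∞} {a b : V}
    {t : V → ℝ≥0∞} {col : V → Option Bool} (hO : IsOutcome vert σ T a b t col) {β y0 : ℝ}
    (hβ : 0 < β) (hy0 : 0 ≤ y0) (hT : ∀ e, ENNReal.ofReal β ≤ T false e) (w : Sym2 H → ℝ)
    (hw : ∀ e, y0 ≤ w e) (hTw : ∀ e, T true e ≤ ENNReal.ofReal (w e)) (K m : ℕ) (C : ℝ) (v : V)
    (hfar1 : ¬ ∃ k ≤ K, Wk vert σ k b a) (hfar2 : ¬ ∃ k ≤ K, Wk vert σ k b v)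
    (hnear : XW vert σ w y0 m C a v)
    (hnum : ∀ i ≤ m, ∀ j : ℕ, K < j + i → K < j + (m - i) → y0 * i + C < β * j) :
    col v = some true := by
  have hab : a ≠ b := fun e => hfar1 ⟨0, Nat.zero_le _, e.symm⟩
  have hC := hnear.nonneg hw
  apply red_along hO hβ hy0 hT w hw hTw m C v ?_ m 0 C a hnear (by omega) rfl (le_refl _)
    (hO.col_a hab)
  · rw [hO.time_a]; exact bot_le
  · intro i hi z h1 h2 j hj
    apply hnum i hi j
    · by_contra hcon
      exact hfar1 ⟨j + i, by omega, hj.trans h1.symm⟩
    · by_contra hcon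
      exact hfar2 ⟨j + (m - i), by omega, hj.trans h2⟩

end Pool.Agent.H949.CM
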