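import Pool.Agent.H949.CM.Dyn

/-!
# The competition process is well defined: outcomes exist
-/

set_option linter.unusedSectionVars false
set_option linter.unusedSimpArgs false

open Finset
open scoped ENNReal

namespace Pool.Agent.H949.CM

variable {V H : Type*} [Fintype V] [DecidableEq V] [Fintype H] [DecidableEq H]

/-- The first arrival time. -/
noncomputable def marr (vert : H → V) (σ : Mt H) (T : Bool → Sym2 H → ℝ≥0∞) (t : V → ℝ≥0∞)
    (col : V → Option Bool) (v : V) : ℝ≥0∞ :=
  min (arr vert σ T t col true v) (arr vert σ T t col false v)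

/-- The state of the construction after the vertices of `S` have been coloured. -/
structure Inv (vert : H → V) (σ : Mt H) (T : Bool → Sym2 H → ℝ≥0∞) (a b : V)
    (S : Finset V) (t : V → ℝ≥0∞) (col : V → Option Bool) : Prop where
  aS : a ∈ S
  bS : b ∈ S
  out : ∀ v, v ∉ S → col v = none ∧ t v = ⊤
  ins : ∀ v ∈ S, col v ≠ none ∧ t v ≠ ⊤
  time_a : t a = 0
  time_b : t b = 0
  col_a : a ≠ b → col a = some true
  col_b : a ≠ b → col b = some false
  time : ∀ v ∈ S, v ≠ a → v ≠ b → t v = marr vert σ T t col v
  colour : ∀ v ∈ S, v ≠ a → v ≠ b → ∀ c, col v = some c → arr vert σ T t col c v = t v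
  front : ∀ v, v ∉ S → ∀ u ∈ S, t u ≤ marr vert σ T t col v

theorem marr_le (vert : H → V) (σ : Mt H) (T : Bool → Sym2 H → ℝ≥0∞) (t : V → ℝ≥0∞)
    (col : V → Option Bool) (v : V) (c : Bool) :
    marr vert σ T t col v ≤ arr vert σ T t col c v := by
  cases c
  · exact min_le_right _ _
  · exact min_le_left _ _

theorem exists_marr (vert : H → V) (σ : Mt H) (T : Bool → Sym2 H → ℝ≥0∞) (t : V → ℝ≥0∞)
    (col : V → Option Bool) (v : V) :
    ∃ c, arr vert σ T t col c v = marr vert σ T t col v := by
  rcases min_choice (arr vert σ T t col true v) (arr vert σ T t col false v) with h | h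
  · exact ⟨true, h.symm⟩
  · exact ⟨false, h.symm⟩

theorem inv_step (vert : H → V) (σ : Mt H) (T : Bool → Sym2 H → ℝ≥0∞) (a b : V)
    (S : Finset V) (t : V → ℝ≥0∞) (col : V → Option Bool) (hI : Inv vert σ T a b S t col)
    (hex : ∃ v, v ∉ S ∧ marr vert σ T t col v ≠ ⊤) :
    ∃ (S' : Finset V) (t' : V → ℝ≥0∞) (col' : V → Option Bool),
      Inv vert σ T a b S' t' col' ∧ S.card < S'.card := by
  classical
  obtain ⟨v0, hv0, hv0t⟩ := hex
  obtain ⟨v, hvS, hmin⟩ := Finset.exists_min_image (Sᶜ) (marr vert σ T t col)
    ⟨v0, by simpa using hv0⟩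
  have hvS' : v ∉ S := by simpa using hvS
  set τ := marr vert σ T t col v with hτ
  have hτt : τ ≠ ⊤ := ne_top_of_le_ne_top hv0t (hmin v0 (by simpa using hv0))
  obtain ⟨c, hc⟩ := exists_marr vert σ T t col v
  have hcolv := (hI.out v hvS').1
  have hva : v ≠ a := fun e => hvS' (e ▸ hI.aS)
  have hvb : v ≠ b := fun e => hvS' (e ▸ hI.bS)
  set t' := Function.update t v τ with ht'
  set col' := Function.update col v (some c) with hcol'
  have ht'v : t' v = τ := by simp [ht']
  have ht'w : ∀ w, w ≠ v → t' w = t w := fun w hw => by simp [ht', hw]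
  have hc'v : col' v = some c := by simp [hcol']
  have hc'w : ∀ w, w ≠ v → col' w = col w := fun w hw => by simp [hcol', hw]
  have hle : ∀ c' w, arr vert σ T t' col' c' w ≤ arr vert σ T t col c' w := by
    intro c' w
    refine le_iInf₂ (fun h hh => ?_)
    have hne : vert h ≠ v := by
      intro e
      have := hh.1
      rw [e, hcolv] at this
      simp at this
    rw [← ht'w _ hne]
    exact arr_le (by rw [hc'w _ hne]; exact hh.1) hh.2
  have hge : ∀ c' w, min (arr vert σ T t col c' w) τ ≤ arr vert σ T t' col' c' w := by
    intro c' w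
    refine le_iInf₂ (fun h hh => ?_)
    by_cases e : vert h = v
    · rw [e, ht'v]
      exact le_trans (min_le_right _ _) le_self_add
    · rw [ht'w _ e]
      refine le_trans (min_le_left _ _) (arr_le ?_ hh.2)
      rw [← hc'w _ e]; exact hh.1
  have hmle : ∀ w, marr vert σ T t' col' w ≤ marr vert σ T t col w := fun w =>
    min_le_min (hle true w) (hle false w)
  have hmge : ∀ w, min (marr vert σ T t col w) τ ≤ marr vert σ T t' col' w := by
    intro w
    refine le_min ?_ ?_
    · exact le_trans (min_le_min (min_le_left _ _) le_rfl) (hge true w)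
    · exact le_trans (min_le_min (min_le_right _ _) le_rfl) (hge false w)
  have htS : ∀ u ∈ S, t u ≤ τ := fun u hu => hI.front v hvS' u hu
  refine ⟨insert v S, t', col', ?_, ?_⟩
  · refine ⟨mem_insert_of_mem hI.aS, mem_insert_of_mem hI.bS, ?_, ?_, ?_, ?_, ?_, ?_, ?_, ?_, ?_⟩
    · intro w hw
      rw [mem_insert, not_or] at hw
      rw [hc'w w hw.1, ht'w w hw.1]
      exact hI.out w hw.2
    · intro w hw
      rw [mem_insert] at hw
      rcases hw with rfl | hw
      · rw [hc'v, ht'v]; exact ⟨by simp, hτt⟩
      · have hne : w ≠ v := fun e => hvS' (e ▸ hw)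
        rw [hc'w w hne, ht'w w hne]
        exact hI.ins w hw
    · rw [ht'w a hva.symm]; exact hI.time_a
    · rw [ht'w b hvb.symm]; exact hI.time_b
    · intro hab; rw [hc'w a hva.symm]; exact hI.col_a hab
    · intro hab; rw [hc'w b hvb.symm]; exact hI.col_b hab
    · intro w hw hwa hwb
      rw [mem_insert] at hw
      rcases hw with rfl | hw
      · rw [ht'v]
        apply le_antisymm
        · have := hmge w
          rwa [← hτ, min_self] at this
        · exact hmle w
      · have hne : w ≠ v := fun e => hvS' (e ▸ hw)
        rw [ht'w w hne]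
        have h1 := hI.time w hw hwa hwb
        apply le_antisymm
        · refine le_trans ?_ (hmge w)
          rw [← h1]
          exact le_min le_rfl (htS w hw)
        · rw [h1]; exact hmle w
    · intro w hw hwa hwb c' hcw
      rw [mem_insert] at hw
      rcases hw with rfl | hw
      · rw [hc'v] at hcw
        have hcc : c = c' := by simpa using hcw
        subst hcc
        rw [ht'v]
        apply le_antisymm
        · calc arr vert σ T t' col' c w ≤ arr vert σ T t col c w := hle c w
            _ = τ := hc
        · have := hge c w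
          rwa [hc, min_self] at this
      · have hne : w ≠ v := fun e => hvS' (e ▸ hw)
        rw [hc'w w hne] at hcw
        have h1 := hI.colour w hw hwa hwb c' hcw
        rw [ht'w w hne]
        apply le_antisymm
        · rw [← h1]; exact hle c' w
        · refine le_trans ?_ (hge c' w)
          rw [h1]
          exact le_min le_rfl (htS w hw)
    · intro w hw u hu
      rw [mem_insert, not_or] at hw
      have hτw : τ ≤ marr vert σ T t' col' w := by
        refine le_trans ?_ (hmge w)
        exact le_min (hmin w (by simpa using hw.2)) le_rfl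
      rw [mem_insert] at hu
      rcases hu with rfl | hu
      · rw [ht'v]; exact hτw
      · have hne : u ≠ v := fun e => hvS' (e ▸ hu)
        rw [ht'w u hne]
        exact le_trans (htS u hu) hτw
  · rw [card_insert_of_notMem hvS']
    omega

theorem inv_start (vert : H → V) (σ : Mt H) (T : Bool → Sym2 H → ℝ≥0∞) (a b : V) :
    Inv vert σ T a b {a, b} (fun v => if v = a ∨ v = b then 0 else ⊤)
      (fun v => if v = a then some true else if v = b then some false else none) := by
  refine ⟨by simp, by simp, ?_, ?_, by simp, by simp, ?_, ?_, ?_, ?_, ?_⟩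
  · intro v hv
    simp only [mem_insert, mem_singleton, not_or] at hv
    simp [hv.1, hv.2]
  · intro v hv
    simp only [mem_insert, mem_singleton] at hv
    rcases hv with rfl | rfl
    · simp
    · constructor
      · by_cases h : v = a
        · simp [h]
        · simp [h]
      · simp
  · intro _; simp
  · intro hab
    simp [Ne.symm hab]
  · intro v hv hva hvb
    simp only [mem_insert, mem_singleton] at hv
    rcases hv with h | h
    · exact absurd h hva
    · exact absurd h hvb
  · intro v hv hva hvb
    simp only [mem_insert, mem_singleton] at hv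
    rcases hv with h | h
    · exact absurd h hva
    · exact absurd h hvb
  · intro v _ u hu
    simp only [mem_insert, mem_singleton] at hu
    show (if u = a ∨ u = b then (0 : ℝ≥0∞) else ⊤) ≤ _
    rw [if_pos hu]
    exact bot_le

/-- An outcome of the competition exists for every graph, all edge lengths and all sources. -/
theorem exists_outcome (vert : H → V) (σ : Mt H) (T : Bool → Sym2 H → ℝ≥0∞) (a b : V) :
    ∃ (t : V → ℝ≥0∞) (col : V → Option Bool), IsOutcome vert σ T a b t col := by
  classical
  have key : ∀ k : ℕ, ∀ (S : Finset V) (t : V → ℝ≥0∞) (col : V → Option Bool),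
      Inv vert σ T a b S t col → Fintype.card V - S.card = k →
      ∃ (S' : Finset V) (t' : V → ℝ≥0∞) (col' : V → Option Bool),
        Inv vert σ T a b S' t' col' ∧ ∀ v, v ∉ S' → marr vert σ T t' col' v = ⊤ := by
    intro k
    induction k using Nat.strong_induction_on with
    | _ k ih =>
      intro S t col hI hk
      by_cases hex : ∃ v, v ∉ S ∧ marr vert σ T t col v ≠ ⊤
      · obtain ⟨S', t', col', hI', hcard⟩ := inv_step vert σ T a b S t col hI hex
        have h1 : S'.card ≤ Fintype.card V := card_le_univ _
        exact ih (Fintype.card V - S'.card) (by omega) S' t' col' hI' rfl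
      · push Not at hex
        exact ⟨S, t, col, hI, hex⟩
  obtain ⟨S, t, col, hI, hdone⟩ := key _ _ _ _ (inv_start vert σ T a b) rfl
  refine ⟨t, col, hI.time_a, hI.time_b, hI.col_a, hI.col_b, fun _ => (hI.ins a hI.aS).1, ?_, ?_,
    ?_⟩
  · intro v hva hvb
    by_cases hv : v ∈ S
    · exact hI.time v hv hva hvb
    · rw [(hI.out v hv).2]
      exact (hdone v hv).symm
  · intro v hva hvb c hc
    by_cases hv : v ∈ S
    · exact hI.colour v hv hva hvb c hc
    · rw [(hI.out v hv).1] at hc
      simp at hc
  · intro v
    by_cases hv : v ∈ S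
    · have := hI.ins v hv
      constructor
      · intro h; exact absurd h this.1
      · intro h; exact absurd h this.2
    · have := hI.out v hv
      exact ⟨fun _ => this.2, fun _ => this.1⟩

end Pool.Agent.H949.CM
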