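import Pool.Agent.H949.CM.NG

/-!
# Walks in the graph of a matching, and first-moment bounds for short paths
-/

set_option linter.unusedSectionVars false

open Finset

namespace Pool.Agent.H949.CM

/-- Indicator of a proposition. -/
noncomputable def ind (P : Prop) : ℝ := by
  classical
  exact if P then 1 else 0

theorem ind_of {P : Prop} (h : P) : ind P = 1 := by
  unfold ind; simp [h]

theorem ind_not {P : Prop} (h : ¬ P) : ind P = 0 := by
  unfold ind; simp [h]

theorem ind_nonneg (P : Prop) : 0 ≤ ind P := by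
  by_cases h : P
  · rw [ind_of h]; norm_num
  · rw [ind_not h]

theorem ind_le_one (P : Prop) : ind P ≤ 1 := by
  by_cases h : P
  · rw [ind_of h]
  · rw [ind_not h]; norm_num

theorem ind_mono {P Q : Prop} (h : P → Q) : ind P ≤ ind Q := by
  by_cases hP : P
  · rw [ind_of hP, ind_of (h hP)]
  · rw [ind_not hP]; exact ind_nonneg Q

theorem ind_exists_le {ι : Type*} (s : Finset ι) (P : ι → Prop) :
    ind (∃ i ∈ s, P i) ≤ ∑ i ∈ s, ind (P i) := by
  by_cases h : ∃ i ∈ s, P i
  · obtain ⟨i, hi, hP⟩ := h
    calc ind (∃ i ∈ s, P i) ≤ 1 := ind_le_one _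
      _ = ind (P i) := (ind_of hP).symm
      _ ≤ ∑ i ∈ s, ind (P i) := Finset.single_le_sum (fun j _ => ind_nonneg (P j)) hi
  · rw [ind_not h]
    exact Finset.sum_nonneg (fun j _ => ind_nonneg _)

theorem ind_or_le (P Q : Prop) : ind (P ∨ Q) ≤ ind P + ind Q := by
  by_cases hP : P
  · rw [ind_of hP]
    have := ind_le_one (P ∨ Q)
    have := ind_nonneg Q
    linarith
  · have h1 : ind (P ∨ Q) ≤ ind Q := ind_mono (fun h => h.resolve_left hP)
    have := ind_nonneg P
    linarith

theorem ind_and (P Q : Prop) : ind (P ∧ Q) = ind P * ind Q := by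
  by_cases hP : P
  · by_cases hQ : Q
    · rw [ind_of hP, ind_of hQ, ind_of ⟨hP, hQ⟩]; norm_num
    · rw [ind_not hQ, ind_not (fun h => hQ h.2)]; norm_num
  · rw [ind_not hP, ind_not (fun h => hP h.1)]; norm_num

variable {V H : Type*} [Fintype V] [DecidableEq V] [Fintype H] [DecidableEq H]

/-- The degree: number of half-edges of a vertex. -/
def deg (vert : H → V) (v : V) : ℕ := (univ.filter (fun h => vert h = v)).card

/-- `Wk vert σ k x y`: there is a walk with `k` edges from `x` to `y`. -/
def Wk (vert : H → V) (σ : Mt H) : ℕ → V → V → Prop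
  | 0, x, y => x = y
  | (k + 1), x, y => ∃ h, vert h = x ∧ Wk vert σ k (vert (σ h)) y

theorem Wk.trans {vert : H → V} {σ : Mt H} : ∀ {j k : ℕ} {x y z : V},
    Wk vert σ j x y → Wk vert σ k y z → Wk vert σ (j + k) x z := by
  intro j
  induction j with
  | zero =>
    intro k x y z h1 h2
    have : x = y := h1
    subst this
    simpa using h2
  | succ j ih =>
    intro k x y z h1 h2
    obtain ⟨h, hx, hw⟩ := h1
    have : j + 1 + k = (j + k) + 1 := by ring
    rw [this]
    exact ⟨h, hx, ih hw h2⟩

theorem Wk.symm {vert : H → V} {σ : Mt H} : ∀ {k : ℕ} {x y : V},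
    Wk vert σ k x y → Wk vert σ k y x := by
  intro k
  induction k with
  | zero => intro x y h; exact Eq.symm h
  | succ k ih =>
    intro x y h
    obtain ⟨h, hx, hw⟩ := h
    apply (ih hw).trans
    exact ⟨σ h, rfl, by rw [Mt.invol]; exact hx⟩

/-- Adjacency. -/
def Adj (vert : H → V) (σ : Mt H) (x y : V) : Prop := ∃ h, vert h = x ∧ vert (σ h) = y

theorem Adj.symm {vert : H → V} {σ : Mt H} {x y : V} (h : Adj vert σ x y) : Adj vert σ y x := by
  obtain ⟨h, h1, h2⟩ := h
  exact ⟨σ h, h2, by rw [Mt.invol]; exact h1⟩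

theorem Wk.exists_fun {vert : H → V} {σ : Mt H} : ∀ {k : ℕ} {x y : V},
    Wk vert σ k x y → ∃ f : ℕ → V, f 0 = x ∧ f k = y ∧ ∀ i < k, Adj vert σ (f i) (f (i + 1)) := by
  intro k
  induction k with
  | zero =>
    intro x y h
    exact ⟨fun _ => x, rfl, h, fun i hi => absurd hi (Nat.not_lt_zero i)⟩
  | succ k ih =>
    intro x y h
    obtain ⟨h, hx, hw⟩ := h
    obtain ⟨f, hf0, hfk, hf⟩ := ih hw
    refine ⟨fun i => match i with | 0 => x | (i + 1) => f i, rfl, hfk, ?_⟩
    intro i hi
    cases i with
    | zero => exact ⟨h, hx, hf0.symm⟩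
    | succ i => exact hf i (by omega)

theorem Wk.of_fun {vert : H → V} {σ : Mt H} {f : ℕ → V} {k : ℕ}
    (hf : ∀ i < k, Adj vert σ (f i) (f (i + 1))) {i : ℕ} (d : ℕ) (hj : i + d ≤ k) :
    Wk vert σ d (f i) (f (i + d)) := by
  induction d generalizing i with
  | zero => rfl
  | succ d ih =>
    obtain ⟨h, h1, h2⟩ := hf i (by omega)
    refine ⟨h, h1, ?_⟩
    rw [h2]
    have := ih (i := i + 1) (by omega)
    have e : i + 1 + d = i + (d + 1) := by ring
    rwa [e] at this

/-- Self-avoiding paths with `k` steps from `x`, avoiding `U`, the `i`-th new vertex in `A i`. -/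
def HP (vert : H → V) (σ : Mt H) : ℕ → (ℕ → Set V) → Finset V → V → Prop
  | 0, _, _, _ => True
  | (k + 1), A, U, x => ∃ h, vert h = x ∧ vert (σ h) ∉ U ∧ (vert (σ h) ∈ A 0 ∧
      HP vert σ k (fun i => A (i + 1)) (insert (vert (σ h)) U) (vert (σ h)))

theorem hp_of_path {vert : H → V} {σ : Mt H} : ∀ (k : ℕ) (f : ℕ → V) (A : ℕ → Set V)
    (U : Finset V), (∀ i < k, Adj vert σ (f i) (f (i + 1))) →
      (∀ i ≤ k, ∀ j ≤ k, f i = f j → i = j) → (∀ i < k, f (i + 1) ∉ U) →
      (∀ i < k, f (i + 1) ∈ A i) → HP vert σ k A U (f 0) := by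
  intro k
  induction k with
  | zero => intro f A U _ _ _ _; trivial
  | succ k ih =>
    intro f A U hf hinj hU hA
    obtain ⟨h, h1, h2⟩ := hf 0 (by omega)
    refine ⟨h, h1, ?_, ?_, ?_⟩
    · rw [h2]; exact hU 0 (by omega)
    · rw [h2]; exact hA 0 (by omega)
    · rw [h2]
      have := ih (fun i => f (i + 1)) (fun i => A (i + 1)) (insert (f (0 + 1)) U)
        (fun i hi => hf (i + 1) (by omega))
        (fun i hi j hj hij => by
          have := hinj (i + 1) (by omega) (j + 1) (by omega) hij
          omega)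
        (fun i hi => by
          rw [mem_insert]
          rintro (h3 | h3)
          · have := hinj (i + 1 + 1) (by omega) (0 + 1) (by omega) h3
            omega
          · exact hU (i + 1) (by omega) h3)
        (fun i hi => hA (i + 1) (by omega))
      exact this

/-- General one-step revealing bound. -/
theorem step_sum {l : List (H × H)} (Hx : Finset H) (hHx : Disjoint Hx (dom l))
    (f : Mt H → ℝ) (F : H → H → Mt H → ℝ) (b : H → H → ℝ) (B : ℝ)
    (hf : ∀ σ ∈ Al l, f σ ≤ ∑ h ∈ Hx, F h (σ h) σ)
    (hF : ∀ h ∈ Hx, ∀ x ∈ fr l h,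
      ∑ σ ∈ Al ((h, x) :: l), F h x σ ≤ (Al ((h, x) :: l)).card * b h x)
    (hB : ∀ h ∈ Hx, (∑ x ∈ fr l h, b h x) / (fr l h).card ≤ B) :
    ∑ σ ∈ Al l, f σ ≤ (Al l).card * (Hx.card * B) := by
  calc ∑ σ ∈ Al l, f σ ≤ ∑ σ ∈ Al l, ∑ h ∈ Hx, F h (σ h) σ := Finset.sum_le_sum hf
    _ = ∑ h ∈ Hx, ∑ σ ∈ Al l, F h (σ h) σ := Finset.sum_comm
    _ ≤ ∑ h ∈ Hx, ((Al l).card : ℝ) * B := by
        apply Finset.sum_le_sum
        intro h hh
        refine le_trans (reveal_le (Finset.disjoint_left.1 hHx hh) (F h) (b h) (hF h hh)) ?_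
        exact mul_le_mul_of_nonneg_left (hB h hh) (Nat.cast_nonneg _)
    _ = (Al l).card * (Hx.card * B) := by
        rw [Finset.sum_const, nsmul_eq_mul]; ring

/-- Sum of the degrees over `A`. -/
noncomputable def D1 (vert : H → V) (A : Set V) : ℝ :=
  ∑ y, A.indicator (fun y => (deg vert y : ℝ)) y

/-- Sum of the squared degrees over `A`. -/
noncomputable def D2 (vert : H → V) (A : Set V) : ℝ :=
  ∑ y, A.indicator (fun y => (deg vert y : ℝ) ^ 2) y

theorem D1_nonneg (vert : H → V) (A : Set V) : 0 ≤ D1 vert A :=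
  Finset.sum_nonneg (fun _ _ => Set.indicator_nonneg (fun _ _ => by positivity) _)

theorem D2_nonneg (vert : H → V) (A : Set V) : 0 ≤ D2 vert A :=
  Finset.sum_nonneg (fun _ _ => Set.indicator_nonneg (fun _ _ => by positivity) _)

theorem sum_half (vert : H → V) (g : V → ℝ) :
    ∑ h : H, g (vert h) = ∑ y, (deg vert y : ℝ) * g y := by
  rw [← Finset.sum_fiberwise_of_maps_to (s := univ) (t := univ) (g := vert) (by simp)]
  apply Finset.sum_congr rfl
  intro y _
  rw [Finset.sum_congr rfl (fun h hh => by rw [(mem_filter.1 hh).2] : ∀ h ∈ univ.filter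
    (fun h => vert h = y), g (vert h) = g y)]
  rw [Finset.sum_const, nsmul_eq_mul]
  rfl

theorem sum_half_D1 (vert : H → V) (A : Set V) :
    ∑ h : H, ind (vert h ∈ A) = D1 vert A := by
  rw [sum_half vert (fun y => ind (y ∈ A))]
  unfold D1
  apply Finset.sum_congr rfl
  intro y _
  by_cases h : y ∈ A
  · rw [ind_of h, Set.indicator_of_mem h, mul_one]
  · rw [ind_not h, Set.indicator_of_notMem h, mul_zero]

theorem sum_half_D2 (vert : H → V) (A : Set V) :
    ∑ h : H, ind (vert h ∈ A) * deg vert (vert h) = D2 vert A := by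
  rw [sum_half vert (fun y => ind (y ∈ A) * deg vert y)]
  unfold D2
  apply Finset.sum_congr rfl
  intro y _
  by_cases h : y ∈ A
  · rw [ind_of h, Set.indicator_of_mem h]; ring
  · rw [ind_not h, Set.indicator_of_notMem h]; ring

/-- The half-edges of a vertex outside the domain. -/
theorem fr_card_ge {l : List (H × H)} {h : H} (hh : h ∉ dom l) {r : ℕ}
    (hm : 2 * ((dom l).card + r) ≤ Fintype.card H) (hr : 1 ≤ r) :
    (Fintype.card H : ℝ) / 2 ≤ (fr l h).card := by
  have h1 := card_fr hh
  have h2 : Fintype.card H ≤ 2 * (fr l h).card := by omega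
  have h3 : (Fintype.card H : ℝ) ≤ 2 * (fr l h).card := by exact_mod_cast h2
  linarith

/-- First-moment bound for self-avoiding paths. -/
theorem hp_bound (vert : H → V) : ∀ (k : ℕ) (A : ℕ → Set V) (l : List (H × H)) (U : Finset V)
    (x : V), x ∈ U → (∀ h ∈ dom l, vert h ∈ U) →
      2 * ((dom l).card + 2 * (k + 1)) ≤ Fintype.card H →
      ∑ σ ∈ Al l, ind (HP vert σ (k + 1) A U x) ≤
        (Al l).card * (deg vert x * ((∏ i ∈ range k, (2 / (Fintype.card H : ℝ)) * D2 vert (A i)) *
          ((2 / (Fintype.card H : ℝ)) * D1 vert (A k)))) := by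
  intro k
  induction k with
  | zero =>
    intro A l U x hx hl hm
    set m := Fintype.card H with hmdef
    have hmpos : 0 < m := by omega
    have hmR : (0 : ℝ) < m := by exact_mod_cast hmpos
    set Hx := (univ.filter (fun h => vert h = x)) \ dom l with hHx
    have hHxd : Disjoint Hx (dom l) := Finset.sdiff_disjoint
    have hHxc : Hx.card ≤ deg vert x := card_le_card (sdiff_subset)
    have key := step_sum (l := l) Hx hHxd (fun σ => ind (HP vert σ 1 A U x))
      (fun _ y _ => ind (vert y ∈ A 0)) (fun _ y => ind (vert y ∈ A 0))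
      ((2 / (m : ℝ)) * D1 vert (A 0))
      (by
        intro σ hσ
        refine le_trans (ind_mono (Q := ∃ h ∈ Hx, vert (σ h) ∈ A 0) ?_) (ind_exists_le _ _)
        rintro ⟨h, h1, h2, h3, _⟩
        refine ⟨h, ?_, h3⟩
        rw [hHx, mem_sdiff, mem_filter]
        refine ⟨⟨mem_univ _, h1⟩, fun h4 => h2 (hl _ (dom_closed hσ h4))⟩)
      (by
        intro h _ y _
        rw [Finset.sum_const, nsmul_eq_mul])
      (by
        intro h hh
        have hhl := Finset.disjoint_left.1 hHxd hh
        have h1 := fr_card_ge hhl hm (by omega)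
        have h2 : (0 : ℝ) < (fr l h).card := by
          have : (0 : ℝ) < (m : ℝ) / 2 := by positivity
          linarith
        rw [div_le_iff₀ h2]
        have h3 : ∑ y ∈ fr l h, ind (vert y ∈ A 0) ≤ D1 vert (A 0) := by
          rw [← sum_half_D1]
          exact Finset.sum_le_univ_sum_of_nonneg (fun _ => ind_nonneg _)
        have h4 := D1_nonneg vert (A 0)
        calc ∑ y ∈ fr l h, ind (vert y ∈ A 0) ≤ D1 vert (A 0) := h3
          _ = 2 / (m : ℝ) * D1 vert (A 0) * ((m : ℝ) / 2) := by field_simp
          _ ≤ 2 / (m : ℝ) * D1 vert (A 0) * (fr l h).card :=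
              mul_le_mul_of_nonneg_left h1 (by positivity))
    refine le_trans key ?_
    apply mul_le_mul_of_nonneg_left _ (Nat.cast_nonneg _)
    simp only [Finset.range_zero, Finset.prod_empty, one_mul]
    have h4 := D1_nonneg vert (A 0)
    apply mul_le_mul_of_nonneg_right _ (by positivity)
    exact_mod_cast hHxc
  | succ k ih =>
    intro A l U x hx hl hm
    set m := Fintype.card H with hmdef
    have hmpos : 0 < m := by omega
    have hmR : (0 : ℝ) < m := by exact_mod_cast hmpos
    set Hx := (univ.filter (fun h => vert h = x)) \ dom l with hHx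
    have hHxd : Disjoint Hx (dom l) := Finset.sdiff_disjoint
    have hHxc : Hx.card ≤ deg vert x := card_le_card (sdiff_subset)
    set C : ℝ := (∏ i ∈ range k, (2 / (m : ℝ)) * D2 vert (A (i + 1))) *
          ((2 / (m : ℝ)) * D1 vert (A (k + 1))) with hC
    have hC0 : 0 ≤ C := by
      rw [hC]
      apply mul_nonneg
      · apply Finset.prod_nonneg
        intro i _
        have := D2_nonneg vert (A (i + 1))
        positivity
      · have := D1_nonneg vert (A (k + 1))
        positivity
    have key := step_sum (l := l) Hx hHxd (fun σ => ind (HP vert σ (k + 1 + 1) A U x))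
      (fun _ y σ => ind (vert y ∉ U ∧ (vert y ∈ A 0 ∧
        HP vert σ (k + 1) (fun i => A (i + 1)) (insert (vert y) U) (vert y))))
      (fun _ y => ind (vert y ∈ A 0) * deg vert (vert y) * C)
      ((2 / (m : ℝ)) * D2 vert (A 0) * C)
      (by
        intro σ hσ
        refine le_trans (ind_mono (Q := ∃ h ∈ Hx, (vert (σ h) ∉ U ∧ (vert (σ h) ∈ A 0 ∧
          HP vert σ (k + 1) (fun i => A (i + 1)) (insert (vert (σ h)) U) (vert (σ h))))) ?_)
          (ind_exists_le _ _)
        rintro ⟨h, h1, h2, h3, h4⟩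
        refine ⟨h, ?_, h2, h3, h4⟩
        rw [hHx, mem_sdiff, mem_filter]
        refine ⟨⟨mem_univ _, h1⟩, fun h4 => h2 (hl _ (dom_closed hσ h4))⟩)
      (by
        intro h hh y hy
        by_cases hyA : vert y ∈ A 0
        · rw [ind_of hyA, one_mul]
          have hxh : vert h = x := by
            rw [hHx, mem_sdiff, mem_filter] at hh
            exact hh.1.2
          have h1 := ih (fun i => A (i + 1)) ((h, y) :: l) (insert (vert y) U) (vert y)
            (mem_insert_self _ _)
            (by
              intro g hg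
              rw [dom_cons, mem_insert, mem_insert] at hg
              rcases hg with rfl | rfl | hg
              · rw [hxh]; exact mem_insert_of_mem hx
              · exact mem_insert_self _ _
              · exact mem_insert_of_mem (hl g hg))
            (by
              have := card_dom_cons_le h y l
              omega)
          refine le_trans (Finset.sum_le_sum (fun σ _ => ind_mono ?_)) h1
          rintro ⟨_, _, h3⟩
          exact h3
        · rw [ind_not hyA, zero_mul, zero_mul, mul_zero]
          apply le_of_eq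
          apply Finset.sum_eq_zero
          intro σ _
          exact ind_not (fun h => hyA h.2.1))
      (by
        intro h hh
        have hhl := Finset.disjoint_left.1 hHxd hh
        have h1 := fr_card_ge hhl hm (by omega)
        have h2 : (0 : ℝ) < (fr l h).card := by
          have : (0 : ℝ) < (m : ℝ) / 2 := by positivity
          linarith
        rw [div_le_iff₀ h2]
        have h3 : ∑ y ∈ fr l h, ind (vert y ∈ A 0) * deg vert (vert y) * C ≤
            D2 vert (A 0) * C := by
          rw [← Finset.sum_mul]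
          apply mul_le_mul_of_nonneg_right _ hC0
          rw [← sum_half_D2]
          exact Finset.sum_le_univ_sum_of_nonneg
            (fun _ => mul_nonneg (ind_nonneg _) (Nat.cast_nonneg _))
        have h4 := D2_nonneg vert (A 0)
        calc _ ≤ D2 vert (A 0) * C := h3
          _ = 2 / (m : ℝ) * D2 vert (A 0) * C * ((m : ℝ) / 2) := by field_simp
          _ ≤ 2 / (m : ℝ) * D2 vert (A 0) * C * (fr l h).card :=
              mul_le_mul_of_nonneg_left h1 (by positivity))
    refine le_trans key ?_
    apply mul_le_mul_of_nonneg_left _ (Nat.cast_nonneg _)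
    rw [Finset.prod_range_succ']
    have h4 := D2_nonneg vert (A 0)
    have h5 : (2 / (m : ℝ)) * D2 vert (A 0) * C = (∏ i ∈ range k,
        (2 / (m : ℝ)) * D2 vert (A (i + 1))) * ((2 / (m : ℝ)) * D2 vert (A 0)) *
          ((2 / (m : ℝ)) * D1 vert (A (k + 1))) := by
      rw [hC]; ring
    rw [← h5]
    apply mul_le_mul_of_nonneg_right _ (by positivity)
    exact_mod_cast hHxc

end Pool.Agent.H949.CM
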