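import Pool.Agent.H949.CM.Far

/-!
# Short walks between two vertices are unlikely
-/

set_option linter.unusedSectionVars false

open Finset

namespace Pool.Agent.H949.CM

variable {V H : Type*} [Fintype V] [DecidableEq V] [Fintype H] [DecidableEq H]

/-- Allowed sets for a path whose last vertex is the first one above the threshold. -/
def Aex (vert : H → V) (g : ℕ → ℝ) (j : ℕ) : ℕ → Set V :=
  fun i => if i + 1 < j then {y | (deg vert y : ℝ) ≤ g (i + 1)} else {y | g (i + 1) < deg vert y}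

/-- Allowed sets for a path to `v` through vertices of degree at most `G`. -/
def Acn (vert : H → V) (G : ℝ) (k : ℕ) (v : V) : ℕ → Set V :=
  fun i => if i + 1 < k then {y | (deg vert y : ℝ) ≤ G} else {v}

theorem exists_min_path {vert : H → V} {σ : Mt H} {u v : V} {K : ℕ}
    (hw : ∃ k ≤ K, Wk vert σ k u v) :
    ∃ k ≤ K, ∃ f : ℕ → V, f 0 = u ∧ f k = v ∧ (∀ i < k, Adj vert σ (f i) (f (i + 1))) ∧
      (∀ i ≤ k, ∀ j ≤ k, f i = f j → i = j) := by
  classical
  have hw' : ∃ k, Wk vert σ k u v := by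
    obtain ⟨k, _, h⟩ := hw
    exact ⟨k, h⟩
  set k := Nat.find hw' with hk
  have hkw : Wk vert σ k u v := Nat.find_spec hw'
  have hmin : ∀ j, Wk vert σ j u v → k ≤ j := fun j hj => Nat.find_min' hw' hj
  obtain ⟨k0, hk0, hk0w⟩ := hw
  obtain ⟨f, hf0, hfk, hf⟩ := hkw.exists_fun
  refine ⟨k, le_trans (hmin k0 hk0w) hk0, f, hf0, hfk, hf, ?_⟩
  have key : ∀ i ≤ k, ∀ j ≤ k, i < j → f i ≠ f j := by
    intro i hi j hj hij he
    have h1 : Wk vert σ i (f 0) (f (0 + i)) := Wk.of_fun hf i (by omega)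
    have h2 : Wk vert σ (k - j) (f j) (f (j + (k - j))) := Wk.of_fun hf (k - j) (by omega)
    rw [zero_add, he] at h1
    have h3 := h1.trans h2
    have e : j + (k - j) = k := by omega
    rw [e, hf0, hfk] at h3
    have := hmin _ h3
    omega
  intro i hi j hj he
  by_contra hne
  rcases Nat.lt_or_gt_of_ne hne with h | h
  · exact key i hi j hj h he
  · exact key j hj i hi h he.symm

theorem deg_le_of_noEx {vert : H → V} {σ : Mt H} {g : ℕ → ℝ} {J k : ℕ} {f : ℕ → V}
    (hf : ∀ i < k, Adj vert σ (f i) (f (i + 1)))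
    (hinj : ∀ i ≤ k, ∀ j ≤ k, f i = f j → i = j)
    (h0 : (deg vert (f 0) : ℝ) ≤ g 0)
    (hex : ¬ ∃ j ∈ Icc 1 J, HP vert σ j (Aex vert g j) {f 0} (f 0)) :
    ∀ i, i ≤ k → i ≤ J → (deg vert (f i) : ℝ) ≤ g i := by
  intro i
  induction i using Nat.strong_induction_on with
  | _ i ih =>
    intro hik hiJ
    rcases Nat.eq_zero_or_pos i with rfl | hipos
    · exact h0
    by_contra hcon
    push Not at hcon
    apply hex
    refine ⟨i, mem_Icc.2 ⟨hipos, hiJ⟩, ?_⟩
    apply hp_of_path i f (Aex vert g i) {f 0} (fun j hj => hf j (by omega))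
      (fun a ha b hb hab => hinj a (by omega) b (by omega) hab)
    · intro j hj
      rw [mem_singleton]
      intro he
      have := hinj (j + 1) (by omega) 0 (by omega) he
      omega
    · intro j hj
      unfold Aex
      split_ifs with h1
      · exact ih (j + 1) h1 (by omega) (by omega)
      · have : j + 1 = i := by omega
        rw [this]
        exact hcon

theorem far_cases {vert : H → V} {σ : Mt H} {g : ℕ → ℝ} (hg : Monotone g) {J K : ℕ}
    (hK : K ≤ 2 * J) {u v : V} (huv : u ≠ v) (hu : (deg vert u : ℝ) ≤ g 0)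
    (hv : (deg vert v : ℝ) ≤ g 0) (hw : ∃ k ≤ K, Wk vert σ k u v) :
    (∃ j ∈ Icc 1 J, HP vert σ j (Aex vert g j) {u} u) ∨
    ((∃ j ∈ Icc 1 J, HP vert σ j (Aex vert g j) {v} v) ∨
    (∃ k ∈ Icc 1 K, HP vert σ k (Acn vert (g J) k v) {u} u)) := by
  obtain ⟨k, hkK, f, hf0, hfk, hf, hinj⟩ := exists_min_path hw
  have hkpos : 1 ≤ k := by
    rcases Nat.eq_zero_or_pos k with h | h
    · exfalso; apply huv; rw [← hf0, ← hfk, h]
    · exact h
  by_cases h1 : ∃ j ∈ Icc 1 J, HP vert σ j (Aex vert g j) {u} u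
  · exact Or.inl h1
  by_cases h2 : ∃ j ∈ Icc 1 J, HP vert σ j (Aex vert g j) {v} v
  · exact Or.inr (Or.inl h2)
  right; right
  have hA := deg_le_of_noEx (vert := vert) (σ := σ) (g := g) (J := J) (k := k) (f := f) hf hinj
    (by rw [hf0]; exact hu) (by rw [hf0]; exact h1)
  have hB := deg_le_of_noEx (vert := vert) (σ := σ) (g := g) (J := J) (k := k)
    (f := fun i => f (k - i))
    (by
      intro i hi
      have h3 := (hf (k - (i + 1)) (by omega)).symm
      have e : k - (i + 1) + 1 = k - i := by omega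
      rw [e] at h3
      exact h3)
    (by
      intro a ha b hb hab
      have := hinj (k - a) (by omega) (k - b) (by omega) hab
      omega)
    (by
      simp only [Nat.sub_zero]
      rw [hfk]; exact hv)
    (by
      simp only [Nat.sub_zero]
      rw [hfk]; exact h2)
  have hall : ∀ i ≤ k, (deg vert (f i) : ℝ) ≤ g J := by
    intro i hi
    rcases Nat.le_total i J with h3 | h3
    · exact le_trans (hA i hi h3) (hg h3)
    · have h4 : k - i ≤ J := by omega
      have h5 := hB (k - i) (by omega) h4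
      have e : k - (k - i) = i := by omega
      simp only [e] at h5
      exact le_trans h5 (hg h4)
  refine ⟨k, mem_Icc.2 ⟨hkpos, hkK⟩, ?_⟩
  rw [← hf0]
  apply hp_of_path k f (Acn vert (g J) k v) {f 0} hf hinj
  · intro j hj
    rw [mem_singleton]
    intro he
    have := hinj (j + 1) (by omega) 0 (by omega) he
    omega
  · intro j hj
    unfold Acn
    split_ifs with h1
    · exact hall (j + 1) (by omega)
    · have : j + 1 = k := by omega
      rw [this, hfk]
      rfl

/-- Sum of the `s`-th powers of the degrees. -/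
noncomputable def Ms (vert : H → V) (s : ℝ) : ℝ := ∑ y, (deg vert y : ℝ) ^ s

theorem Ms_nonneg (vert : H → V) (s : ℝ) : 0 ≤ Ms vert s :=
  Finset.sum_nonneg (fun _ _ => by positivity)

theorem D2_le (vert : H → V) {s g : ℝ} (hg : 0 ≤ g) (hs0 : 0 < s) (hs2 : s ≤ 2) :
    D2 vert {y | (deg vert y : ℝ) ≤ g} ≤ g ^ (2 - s) * Ms vert s := by
  unfold D2 Ms
  rw [Finset.mul_sum]
  apply Finset.sum_le_sum
  intro y _
  by_cases hy : (deg vert y : ℝ) ≤ g
  · rw [Set.indicator_of_mem (show y ∈ {y | (deg vert y : ℝ) ≤ g} from hy)]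
    rcases Nat.eq_zero_or_pos (deg vert y) with h0 | h0
    · rw [h0]
      simp only [Nat.cast_zero]
      rw [Real.zero_rpow hs0.ne']
      norm_num
    · have hd : (0 : ℝ) < deg vert y := by exact_mod_cast h0
      calc (deg vert y : ℝ) ^ 2 = (deg vert y : ℝ) ^ (2 - s) * (deg vert y : ℝ) ^ s := by
            rw [← Real.rpow_add hd, sub_add_cancel]
            norm_cast
        _ ≤ g ^ (2 - s) * (deg vert y : ℝ) ^ s := by
            apply mul_le_mul_of_nonneg_right _ (by positivity)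
            exact Real.rpow_le_rpow hd.le hy (by linarith)
  · rw [Set.indicator_of_notMem (show y ∉ {y | (deg vert y : ℝ) ≤ g} from hy)]
    positivity

theorem D1_le (vert : H → V) {s g : ℝ} (hg : 0 < g) (hs1 : 1 ≤ s) :
    D1 vert {y | g < deg vert y} ≤ g ^ (1 - s) * Ms vert s := by
  unfold D1 Ms
  rw [Finset.mul_sum]
  apply Finset.sum_le_sum
  intro y _
  by_cases hy : g < deg vert y
  · rw [Set.indicator_of_mem (show y ∈ {y | g < (deg vert y : ℝ)} from hy)]
    have hd : (0 : ℝ) < deg vert y := lt_trans hg hy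
    calc (deg vert y : ℝ) = (deg vert y : ℝ) ^ (1 - s) * (deg vert y : ℝ) ^ s := by
          rw [← Real.rpow_add hd, sub_add_cancel, Real.rpow_one]
      _ ≤ g ^ (1 - s) * (deg vert y : ℝ) ^ s := by
          apply mul_le_mul_of_nonneg_right _ (by positivity)
          exact Real.rpow_le_rpow_of_nonpos hg hy.le (by linarith)
  · rw [Set.indicator_of_notMem (show y ∉ {y | g < (deg vert y : ℝ)} from hy)]
    positivity

theorem D1_single (vert : H → V) (v : V) : D1 vert {v} = deg vert v := by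
  unfold D1
  rw [Finset.sum_eq_single v]
  · simp
  · intro b _ hb
    exact Set.indicator_of_notMem (by simpa using hb) _
  · simp

/-- The thresholds. -/
noncomputable def gth (B κ : ℝ) (j : ℕ) : ℝ := Real.exp (B * κ ^ j)

theorem gth_mono {B κ : ℝ} (hB : 0 ≤ B) (hκ : 1 ≤ κ) : Monotone (gth B κ) := by
  intro i j hij
  unfold gth
  apply Real.exp_le_exp.2
  exact mul_le_mul_of_nonneg_left (pow_le_pow_right₀ hκ hij) hB

theorem expo_identity {a κ : ℝ} (hκ : κ ≠ 1) (j : ℕ) :
    1 + (1 - a) * (∑ i ∈ range j, κ ^ (i + 1)) - a * κ ^ (j + 1) =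
      -((a * κ - 1) / (κ - 1) * (κ ^ (j + 1) - 1)) := by
  have h1 : κ - 1 ≠ 0 := sub_ne_zero.2 hκ
  induction j with
  | zero =>
    simp only [range_zero, sum_empty, mul_zero, add_zero, zero_add, pow_one]
    field_simp
    ring
  | succ j ih =>
    rw [sum_range_succ]
    have h2 : 1 + (1 - a) * (∑ i ∈ range j, κ ^ (i + 1) + κ ^ (j + 1)) - a * κ ^ (j + 1 + 1) =
      (1 + (1 - a) * (∑ i ∈ range j, κ ^ (i + 1)) - a * κ ^ (j + 1)) +
        (κ ^ (j + 1) - a * κ ^ (j + 1 + 1)) := by ring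
    rw [h2, ih]
    field_simp
    ring

theorem ex_bound (vert : H → V) {a κ B K1 : ℝ} (ha0 : 0 < a) (ha1 : a < 1) (hκ : 1 < κ)
    (haκ : 1 < a * κ) (hB : 0 ≤ B) (hK1 : 0 ≤ K1) (hm : 0 < Fintype.card H)
    (hMs : Ms vert (1 + a) ≤ K1 * ((Fintype.card H : ℝ) / 2)) {u : V}
    (hu : (deg vert u : ℝ) ≤ gth B κ 0) (k : ℕ) (hk : 2 * (2 * (k + 1)) ≤ Fintype.card H) :
    ∑ σ : Mt H, ind (HP vert σ (k + 1) (Aex vert (gth B κ) (k + 1)) {u} u) ≤
      Fintype.card (Mt H) * (K1 * Real.exp (-(B * (a * κ - 1)))) ^ (k + 1) := by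
  have hmR : (0 : ℝ) < Fintype.card H := by exact_mod_cast hm
  set m : ℝ := (Fintype.card H : ℝ) with hmdef
  have h1 := hp_bound vert k (Aex vert (gth B κ) (k + 1)) [] {u} u (by simp) (by simp)
    (by simpa using hk)
  simp only [Al_nil] at h1
  refine le_trans h1 ?_
  rw [Finset.card_univ]
  apply mul_le_mul_of_nonneg_left _ (Nat.cast_nonneg _)
  have hMs0 := Ms_nonneg vert (1 + a)
  have h2m : 2 / m * Ms vert (1 + a) ≤ K1 := by
    calc 2 / m * Ms vert (1 + a) ≤ 2 / m * (K1 * (m / 2)) :=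
          mul_le_mul_of_nonneg_left hMs (by positivity)
      _ = K1 := by field_simp
  have hprod : ∏ i ∈ range k, 2 / m * D2 vert (Aex vert (gth B κ) (k + 1) i) ≤
      ∏ i ∈ range k, (K1 * Real.exp (B * ((1 - a) * κ ^ (i + 1)))) := by
    apply Finset.prod_le_prod
    · intro i _
      have := D2_nonneg vert (Aex vert (gth B κ) (k + 1) i)
      positivity
    · intro i hi
      have hi' := mem_range.1 hi
      have e1 : Aex vert (gth B κ) (k + 1) i = {y | (deg vert y : ℝ) ≤ gth B κ (i + 1)} := by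
        unfold Aex
        rw [if_pos (by omega)]
      rw [e1]
      have h3 := D2_le vert (s := 1 + a) (g := gth B κ (i + 1)) (Real.exp_pos _).le
        (by linarith) (by linarith)
      have e2 : gth B κ (i + 1) ^ (2 - (1 + a)) = Real.exp (B * ((1 - a) * κ ^ (i + 1))) := by
        unfold gth
        rw [← Real.exp_mul]
        congr 1
        ring
      rw [e2] at h3
      calc 2 / m * D2 vert {y | (deg vert y : ℝ) ≤ gth B κ (i + 1)}
          ≤ 2 / m * (Real.exp (B * ((1 - a) * κ ^ (i + 1))) * Ms vert (1 + a)) :=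
            mul_le_mul_of_nonneg_left h3 (by positivity)
        _ = (2 / m * Ms vert (1 + a)) * Real.exp (B * ((1 - a) * κ ^ (i + 1))) := by ring
        _ ≤ K1 * Real.exp (B * ((1 - a) * κ ^ (i + 1))) :=
            mul_le_mul_of_nonneg_right h2m (Real.exp_pos _).le
  have hlast : 2 / m * D1 vert (Aex vert (gth B κ) (k + 1) k) ≤
      K1 * Real.exp (-(B * (a * κ ^ (k + 1)))) := by
    have e1 : Aex vert (gth B κ) (k + 1) k = {y | gth B κ (k + 1) < deg vert y} := by
      unfold Aex
      rw [if_neg (by omega)]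
    rw [e1]
    have h3 := D1_le vert (s := 1 + a) (g := gth B κ (k + 1)) (Real.exp_pos _) (by linarith)
    have e2 : gth B κ (k + 1) ^ (1 - (1 + a)) = Real.exp (-(B * (a * κ ^ (k + 1)))) := by
      unfold gth
      rw [← Real.exp_mul]
      congr 1
      ring
    rw [e2] at h3
    calc 2 / m * D1 vert {y | gth B κ (k + 1) < deg vert y}
        ≤ 2 / m * (Real.exp (-(B * (a * κ ^ (k + 1)))) * Ms vert (1 + a)) :=
          mul_le_mul_of_nonneg_left h3 (by positivity)
      _ = (2 / m * Ms vert (1 + a)) * Real.exp (-(B * (a * κ ^ (k + 1)))) := by ring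
      _ ≤ K1 * Real.exp (-(B * (a * κ ^ (k + 1)))) :=
          mul_le_mul_of_nonneg_right h2m (Real.exp_pos _).le
  have hlast0 : 0 ≤ 2 / m * D1 vert (Aex vert (gth B κ) (k + 1) k) := by
    have := D1_nonneg vert (Aex vert (gth B κ) (k + 1) k)
    positivity
  have hprod0 : 0 ≤ ∏ i ∈ range k, (K1 * Real.exp (B * ((1 - a) * κ ^ (i + 1)))) :=
    Finset.prod_nonneg (fun _ _ => mul_nonneg hK1 (Real.exp_pos _).le)
  calc (deg vert u : ℝ) * ((∏ i ∈ range k, 2 / m * D2 vert (Aex vert (gth B κ) (k + 1) i)) *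
        (2 / m * D1 vert (Aex vert (gth B κ) (k + 1) k)))
      ≤ gth B κ 0 * ((∏ i ∈ range k, (K1 * Real.exp (B * ((1 - a) * κ ^ (i + 1))))) *
        (K1 * Real.exp (-(B * (a * κ ^ (k + 1)))))) := by
        apply mul_le_mul hu _ _ (Real.exp_pos _).le
        · exact mul_le_mul hprod hlast hlast0 hprod0
        · apply mul_nonneg _ hlast0
          apply Finset.prod_nonneg
          intro i _
          have := D2_nonneg vert (Aex vert (gth B κ) (k + 1) i)
          positivity
    _ = K1 ^ (k + 1) * Real.exp (B * (1 + (1 - a) * (∑ i ∈ range k, κ ^ (i + 1)) -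
          a * κ ^ (k + 1))) := by
        rw [Finset.prod_mul_distrib, Finset.prod_const, card_range, ← Real.exp_sum]
        unfold gth
        have e3 : B * (1 + (1 - a) * (∑ i ∈ range k, κ ^ (i + 1)) - a * κ ^ (k + 1)) =
          B * κ ^ 0 + (∑ i ∈ range k, B * ((1 - a) * κ ^ (i + 1)) +
            -(B * (a * κ ^ (k + 1)))) := by
          rw [← Finset.mul_sum, ← Finset.mul_sum]
          ring
        rw [e3, Real.exp_add, Real.exp_add, pow_succ]
        ring
    _ ≤ K1 ^ (k + 1) * Real.exp (-(B * (a * κ - 1)) * (k + 1 : ℕ)) := by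
        apply mul_le_mul_of_nonneg_left _ (pow_nonneg hK1 _)
        apply Real.exp_le_exp.2
        rw [expo_identity hκ.ne']
        have hb : 1 + (((k + 1 : ℕ) : ℝ)) * (κ - 1) ≤ κ ^ (k + 1) := by
          have := one_add_mul_le_pow (a := κ - 1) (by linarith) (k + 1)
          simpa using this
        have h4 : (a * κ - 1) * (k + 1 : ℕ) ≤ (a * κ - 1) / (κ - 1) * (κ ^ (k + 1) - 1) := by
          rw [div_mul_eq_mul_div, le_div_iff₀ (by linarith)]
          have h5 : 0 < a * κ - 1 := by linarith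
          nlinarith
        nlinarith
    _ = (K1 * Real.exp (-(B * (a * κ - 1)))) ^ (k + 1) := by
        rw [mul_pow, ← Real.exp_nat_mul]
        congr 2
        ring

theorem cn_bound (vert : H → V) {a κ B K1 : ℝ} (ha0 : 0 < a) (ha1 : a < 1) (hκ : 1 < κ)
    (hB : 0 ≤ B) (hK1 : 1 ≤ K1) (hm : 0 < Fintype.card H)
    (hMs : Ms vert (1 + a) ≤ K1 * ((Fintype.card H : ℝ) / 2)) {u v : V}
    (hu : (deg vert u : ℝ) ≤ gth B κ 0) (hv : (deg vert v : ℝ) ≤ gth B κ 0) (J k K : ℕ)
    (hkK : k + 1 ≤ K) (hk : 2 * (2 * (k + 1)) ≤ Fintype.card H) :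
    ∑ σ : Mt H, ind (HP vert σ (k + 1) (Acn vert (gth B κ J) (k + 1) v) {u} u) ≤
      Fintype.card (Mt H) * (2 / (Fintype.card H : ℝ) * (K1 * gth B κ J) ^ (K + 1)) := by
  have hmR : (0 : ℝ) < Fintype.card H := by exact_mod_cast hm
  set m : ℝ := (Fintype.card H : ℝ) with hmdef
  have h1 := hp_bound vert k (Acn vert (gth B κ J) (k + 1) v) [] {u} u (by simp) (by simp)
    (by simpa using hk)
  simp only [Al_nil] at h1
  refine le_trans h1 ?_
  rw [Finset.card_univ]
  apply mul_le_mul_of_nonneg_left _ (Nat.cast_nonneg _)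
  have hMs0 := Ms_nonneg vert (1 + a)
  have h2m : 2 / m * Ms vert (1 + a) ≤ K1 := by
    calc 2 / m * Ms vert (1 + a) ≤ 2 / m * (K1 * (m / 2)) :=
          mul_le_mul_of_nonneg_left hMs (by positivity)
      _ = K1 := by field_simp
  have hG1 : 1 ≤ gth B κ J := by
    unfold gth
    apply Real.one_le_exp
    have : 0 ≤ κ ^ J := by positivity
    positivity
  have hG0 : gth B κ 0 ≤ gth B κ J := gth_mono hB hκ.le (Nat.zero_le J)
  have hprod : ∏ i ∈ range k, 2 / m * D2 vert (Acn vert (gth B κ J) (k + 1) v i) ≤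
      (K1 * gth B κ J) ^ k := by
    calc ∏ i ∈ range k, 2 / m * D2 vert (Acn vert (gth B κ J) (k + 1) v i)
        ≤ ∏ i ∈ range k, (K1 * gth B κ J) := by
          apply Finset.prod_le_prod
          · intro i _
            have := D2_nonneg vert (Acn vert (gth B κ J) (k + 1) v i)
            positivity
          · intro i hi
            have hi' := mem_range.1 hi
            have e1 : Acn vert (gth B κ J) (k + 1) v i =
                {y | (deg vert y : ℝ) ≤ gth B κ J} := by
              unfold Acn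
              rw [if_pos (by omega)]
            rw [e1]
            have h3 := D2_le vert (s := 1 + a) (g := gth B κ J) (Real.exp_pos _).le
              (by linarith) (by linarith)
            have e2 : gth B κ J ^ (2 - (1 + a)) ≤ gth B κ J := by
              calc gth B κ J ^ (2 - (1 + a)) ≤ gth B κ J ^ (1 : ℝ) :=
                    Real.rpow_le_rpow_of_exponent_le hG1 (by linarith)
                _ = gth B κ J := Real.rpow_one _
            calc 2 / m * D2 vert {y | (deg vert y : ℝ) ≤ gth B κ J}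
                ≤ 2 / m * (gth B κ J * Ms vert (1 + a)) := by
                  apply mul_le_mul_of_nonneg_left _ (by positivity)
                  exact le_trans h3 (mul_le_mul_of_nonneg_right e2 hMs0)
              _ = (2 / m * Ms vert (1 + a)) * gth B κ J := by ring
              _ ≤ K1 * gth B κ J := mul_le_mul_of_nonneg_right h2m (by linarith)
      _ = (K1 * gth B κ J) ^ k := by rw [Finset.prod_const, card_range]
  have e1 : Acn vert (gth B κ J) (k + 1) v k = {v} := by
    unfold Acn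
    rw [if_neg (by omega)]
  rw [e1, D1_single]
  have hKG : 1 ≤ K1 * gth B κ J := by nlinarith
  calc (deg vert u : ℝ) * ((∏ i ∈ range k, 2 / m * D2 vert (Acn vert (gth B κ J) (k + 1) v i)) *
        (2 / m * (deg vert v : ℝ)))
      ≤ (K1 * gth B κ J) * ((K1 * gth B κ J) ^ k * (2 / m * (K1 * gth B κ J))) := by
        have hGK : gth B κ J ≤ K1 * gth B κ J := by nlinarith
        apply mul_le_mul (by linarith) _ _ (by linarith)
        · apply mul_le_mul hprod _ (by positivity) (by positivity)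
          apply mul_le_mul_of_nonneg_left (by linarith) (by positivity)
        · apply mul_nonneg
          · apply Finset.prod_nonneg
            intro i _
            have := D2_nonneg vert (Acn vert (gth B κ J) (k + 1) v i)
            positivity
          · positivity
    _ = 2 / m * (K1 * gth B κ J) ^ (k + 2) := by ring
    _ ≤ 2 / m * (K1 * gth B κ J) ^ (K + 1) := by
        apply mul_le_mul_of_nonneg_left _ (by positivity)
        exact pow_le_pow_right₀ hKG (by omega)

/-- Short walks between two vertices of moderate degree are unlikely. -/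
theorem far_quenched (vert : H → V) {a κ B K1 : ℝ} (ha0 : 0 < a) (ha1 : a < 1) (hκ : 1 < κ)
    (haκ : 1 < a * κ) (hB : 0 ≤ B) (hK1 : 1 ≤ K1)
    (hMs : Ms vert (1 + a) ≤ K1 * ((Fintype.card H : ℝ) / 2)) {u v : V} (huv : u ≠ v)
    (hu : (deg vert u : ℝ) ≤ gth B κ 0) (hv : (deg vert v : ℝ) ≤ gth B κ 0) (J K : ℕ)
    (hKJ : K ≤ 2 * J) (hJm : 4 * J ≤ Fintype.card H) (hKm : 4 * K ≤ Fintype.card H)
    (hm : 0 < Fintype.card H)
    (hθ : K1 * Real.exp (-(B * (a * κ - 1))) ≤ 1 / 2) :
    ∑ σ : Mt H, ind (∃ k ≤ K, Wk vert σ k u v) ≤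
      Fintype.card (Mt H) * (4 * (K1 * Real.exp (-(B * (a * κ - 1)))) +
        K * (2 / (Fintype.card H : ℝ) * (K1 * gth B κ J) ^ (K + 1))) := by
  set θ := K1 * Real.exp (-(B * (a * κ - 1))) with hθdef
  have hθ0 : 0 ≤ θ := by rw [hθdef]; have := Real.exp_pos (-(B * (a * κ - 1))); nlinarith
  have hgeom : ∑ j ∈ Icc 1 J, θ ^ j ≤ 2 * θ := by
    have h1 : ∀ J : ℕ, ∑ j ∈ Icc 1 J, θ ^ j ≤ 2 * θ * (1 - (1 / 2) ^ J) := by
      intro J
      induction J with
      | zero => simp
      | succ J ih =>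
        rw [Finset.sum_Icc_succ_top (by omega)]
        have h2 : θ ^ (J + 1) ≤ θ * (1 / 2) ^ J := by
          rw [pow_succ']
          exact mul_le_mul_of_nonneg_left (pow_le_pow_left₀ hθ0 hθ J) hθ0
        have h3 : 2 * θ * (1 - (1 / 2) ^ (J + 1)) = 2 * θ * (1 - (1 / 2) ^ J) +
            θ * (1 / 2) ^ J := by
          rw [pow_succ]; ring
        linarith
    refine le_trans (h1 J) ?_
    have h2 : (0 : ℝ) ≤ (1 / 2) ^ J := by positivity
    nlinarith
  have hexu : ∀ w : V, (deg vert w : ℝ) ≤ gth B κ 0 →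
      ∑ σ : Mt H, ind (∃ j ∈ Icc 1 J, HP vert σ j (Aex vert (gth B κ) j) {w} w) ≤
        Fintype.card (Mt H) * (2 * θ) := by
    intro w hw
    calc ∑ σ : Mt H, ind (∃ j ∈ Icc 1 J, HP vert σ j (Aex vert (gth B κ) j) {w} w)
        ≤ ∑ σ : Mt H, ∑ j ∈ Icc 1 J, ind (HP vert σ j (Aex vert (gth B κ) j) {w} w) :=
          Finset.sum_le_sum (fun σ _ => ind_exists_le _ _)
      _ = ∑ j ∈ Icc 1 J, ∑ σ : Mt H, ind (HP vert σ j (Aex vert (gth B κ) j) {w} w) :=
          Finset.sum_comm
      _ ≤ ∑ j ∈ Icc 1 J, (Fintype.card (Mt H) : ℝ) * θ ^ j := by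
          apply Finset.sum_le_sum
          intro j hj
          rw [mem_Icc] at hj
          obtain ⟨k, rfl⟩ : ∃ k, j = k + 1 := ⟨j - 1, by omega⟩
          exact ex_bound vert ha0 ha1 hκ haκ hB (by linarith) hm hMs hw k (by omega)
      _ = Fintype.card (Mt H) * ∑ j ∈ Icc 1 J, θ ^ j := by rw [Finset.mul_sum]
      _ ≤ Fintype.card (Mt H) * (2 * θ) :=
          mul_le_mul_of_nonneg_left hgeom (Nat.cast_nonneg _)
  have hcn : ∑ σ : Mt H, ind (∃ k ∈ Icc 1 K, HP vert σ k (Acn vert (gth B κ J) k v) {u} u) ≤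
      Fintype.card (Mt H) * (K * (2 / (Fintype.card H : ℝ) * (K1 * gth B κ J) ^ (K + 1))) := by
    calc ∑ σ : Mt H, ind (∃ k ∈ Icc 1 K, HP vert σ k (Acn vert (gth B κ J) k v) {u} u)
        ≤ ∑ σ : Mt H, ∑ k ∈ Icc 1 K, ind (HP vert σ k (Acn vert (gth B κ J) k v) {u} u) :=
          Finset.sum_le_sum (fun σ _ => ind_exists_le _ _)
      _ = ∑ k ∈ Icc 1 K, ∑ σ : Mt H, ind (HP vert σ k (Acn vert (gth B κ J) k v) {u} u) :=
          Finset.sum_comm
      _ ≤ ∑ k ∈ Icc 1 K, (Fintype.card (Mt H) : ℝ) *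
            (2 / (Fintype.card H : ℝ) * (K1 * gth B κ J) ^ (K + 1)) := by
          apply Finset.sum_le_sum
          intro j hj
          rw [mem_Icc] at hj
          obtain ⟨k, rfl⟩ : ∃ k, j = k + 1 := ⟨j - 1, by omega⟩
          exact cn_bound vert ha0 ha1 hκ hB hK1 hm hMs hu hv J k K (by omega) (by omega)
      _ = _ := by
          rw [Finset.sum_const, Nat.card_Icc, nsmul_eq_mul]
          simp only [Nat.add_sub_cancel]
          ring
  calc ∑ σ : Mt H, ind (∃ k ≤ K, Wk vert σ k u v)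
      ≤ ∑ σ : Mt H, (ind (∃ j ∈ Icc 1 J, HP vert σ j (Aex vert (gth B κ) j) {u} u) +
          (ind (∃ j ∈ Icc 1 J, HP vert σ j (Aex vert (gth B κ) j) {v} v) +
           ind (∃ k ∈ Icc 1 K, HP vert σ k (Acn vert (gth B κ J) k v) {u} u))) := by
        apply Finset.sum_le_sum
        intro σ _
        refine le_trans (ind_mono (far_cases (gth_mono hB hκ.le) hKJ huv hu hv)) ?_
        refine le_trans (ind_or_le _ _) ?_
        have := ind_or_le (∃ j ∈ Icc 1 J, HP vert σ j (Aex vert (gth B κ) j) {v} v)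
          (∃ k ∈ Icc 1 K, HP vert σ k (Acn vert (gth B κ J) k v) {u} u)
        linarith
    _ ≤ Fintype.card (Mt H) * (2 * θ) + (Fintype.card (Mt H) * (2 * θ) +
          Fintype.card (Mt H) * (K * (2 / (Fintype.card H : ℝ) *
            (K1 * gth B κ J) ^ (K + 1)))) := by
        rw [Finset.sum_add_distrib, Finset.sum_add_distrib]
        have h1 := hexu u hu
        have h2 := hexu v hv
        linarith
    _ = _ := by ring

end Pool.Agent.H949.CM
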