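import Pool.Agent.H949.CM.Near3
import Pool.Agent.H949.CM.Ana

/-!
# The short cheap walk for good degree sequences
-/

set_option linter.unusedSectionVars false
set_option linter.unusedSimpArgs false
set_option linter.unusedVariables false

open Finset MeasureTheory

namespace Pool.Agent.H949.CM

variable {V H : Type*} [Fintype V] [DecidableEq V] [Fintype H] [DecidableEq H]

/-- The levels. -/
noncomputable def zl (K0 κ' X : ℝ) (j : ℕ) : ℝ := min (K0 ^ (κ' ^ j)) X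

theorem zl_ge {K0 κ' X : ℝ} (hK0 : 1 ≤ K0) (hκ' : 1 ≤ κ') (hX : K0 ≤ X) (j : ℕ) :
    K0 ≤ zl K0 κ' X j := by
  unfold zl
  refine le_min ?_ hX
  calc K0 = K0 ^ (1 : ℝ) := (Real.rpow_one K0).symm
    _ ≤ K0 ^ (κ' ^ j) := Real.rpow_le_rpow_of_exponent_le hK0 (one_le_pow₀ hκ')

theorem zl_le {K0 κ' X : ℝ} (j : ℕ) : zl K0 κ' X j ≤ X := min_le_right _ _

theorem zl_succ_le {K0 κ' X : ℝ} (hK0 : 0 ≤ K0) {j : ℕ} (hj : K0 ^ (κ' ^ j) < X) :
    zl K0 κ' X (j + 1) ≤ (zl K0 κ' X j) ^ κ' := by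
  have h1 : zl K0 κ' X j = K0 ^ (κ' ^ j) := by
    unfold zl; exact min_eq_left hj.le
  rw [h1, ← Real.rpow_mul hK0, ← pow_succ]
  exact min_le_left _ _

theorem near_inst (vert : H → V) (idx : H → ℕ) (nx : H → H)
    (hidx : ∀ v k, k ≤ deg vert v → (univ.filter (fun h => vert h = v ∧ idx h < k)).card = k)
    (hnx1 : ∀ h, nx h ≠ h) (hnx2 : ∀ h, vert (nx h) = vert h)
    (κ : Measure (ℝ × ℝ)) [IsProbabilityMeasure κ] {y0 η W : ℝ} (hη : 0 ≤ η) (hy0 : 0 ≤ y0)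
    (hW : 0 ≤ W) (p : ℝ) (hp0 : 0 < p) (hp1 : p ≤ 1)
    (hp : κ.real (Gd y0 η)ᶜ ≤ 1 - p)
    {α K1 c3 κ' B' K0 N X : ℝ} (hα0 : 0 < α) (hα1 : α < 1) (hK1 : 1 ≤ K1) (hc3 : 0 < c3)
    (hc3' : c3 ≤ 1) (hκ' : 1 < κ') (hακ : α * κ' < 1)
    (hB' : 0 < B') (hK0 : 8 ≤ K0)
    (hlev : ∀ z, K0 ≤ z → Real.exp (-(p * c3 / (32 * K1) * z ^ (1 - α * κ'))) +
      z * (z ^ κ') ^ (-B') ≤ z ^ (-B'))
    (hN : 1 ≤ N) (hK0X : K0 ≤ X) (J M : ℕ) (hJ1 : X ≤ K0 ^ (κ' ^ J))
    (hJ2 : ∀ j < J, K0 ^ (κ' ^ j) < X)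
    (hN1 : X ≤ c3 / 8 * (N * X ^ (-α))) (hN3 : 2 ≤ c3 / 4 * (N * X ^ (-α)))
    (hN2 : (1 + M + J : ℝ) ≤ c3 / 4 * (N * X ^ (-(1 + α))))
    (hm1 : N ≤ Fintype.card H) (hm2 : (Fintype.card H : ℝ) ≤ K1 * N)
    (hm : 4 * (M + 1) ≤ Fintype.card H)
    (hnG : ∀ j ≤ J, c3 * (N * (zl K0 κ' X j) ^ (-(1 + α))) ≤ nG vert ⌊zl K0 κ' X j⌋₊)
    (h1 h2 : H) :
    ∑ σ : Mt H, (Measure.pi fun _ : Sym2 H => κ).real
        {ω | ¬ NearP vert σ ω y0 (2 * (M + J) + 1) (2 * (M * W + J * η) + η)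
          (vert h1) (vert h2)} ≤
      Fintype.card (Mt H) *
        (2 * ((1 - c3 / (2 * K1) * K0 ^ (-α)) ^ M +
            M * ((1 + M + J : ℕ) * K0 * (2 / Fintype.card H)) + K0 ^ (-B')) +
          2 * (M * κ.real {p | W < p.1}) + (Fintype.card V) ^ 2 *
            Real.exp (-(p / (32 * K1) * (X ^ 2 / N)))) := by
  set z : ℕ → ℝ := zl K0 κ' X with hz
  have hK0' : 1 ≤ K0 := by linarith
  have hzK : ∀ j, K0 ≤ z j := fun j => zl_ge hK0' hκ'.le hK0X j
  have hzX : ∀ j, z j ≤ X := fun j => zl_le j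
  have hz8 : ∀ j, 8 ≤ z j := fun j => le_trans hK0 (hzK j)
  have hzpos : ∀ j, 0 < z j := fun j => by linarith [hz8 j]
  have hX0 : 0 < X := by linarith
  set kn : ℕ → ℕ := fun j => ⌊z j⌋₊ with hkn
  have hkn1 : ∀ j, (kn j : ℝ) ≤ z j := fun j => Nat.floor_le (hzpos j).le
  have hkn2 : ∀ j, z j - 1 ≤ kn j := fun j => by
    have := Nat.lt_floor_add_one (z j)
    linarith
  have hkn3 : ∀ j, z j / 2 ≤ kn j := fun j => by linarith [hkn2 j, hz8 j]
  have hm0 : (0 : ℝ) < Fintype.card H := by linarith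
  -- comparison of powers
  have hT : ∀ j, N * X ^ (-α) ≤ N * (z j) ^ (-α) := fun j =>
    mul_le_mul_of_nonneg_left
      (Real.rpow_le_rpow_of_nonpos (hzpos j) (hzX j) (by linarith)) (by linarith)
  have hT2 : ∀ j, N * X ^ (-(1 + α)) ≤ N * (z j) ^ (-(1 + α)) := fun j =>
    mul_le_mul_of_nonneg_left
      (Real.rpow_le_rpow_of_nonpos (hzpos j) (hzX j) (by linarith)) (by linarith)
  have hzz : ∀ j, z j * (z j) ^ (-(1 + α)) = (z j) ^ (-α) := by
    intro j
    nth_rewrite 1 [← Real.rpow_one (z j)]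
    rw [← Real.rpow_add (hzpos j)]
    congr 1; ring
  set sn : ℕ → ℕ := fun j => ⌊c3 / 4 * (N * (z (j + 1)) ^ (-α))⌋₊ with hsn
  have hsn1 : ∀ j, (sn j : ℝ) ≤ c3 / 4 * (N * (z (j + 1)) ^ (-α)) := fun j =>
    Nat.floor_le (by have := hzpos (j + 1); positivity)
  have hsn2 : ∀ j, c3 / 8 * (N * (z (j + 1)) ^ (-α)) ≤ sn j := fun j => by
    have h3 := Nat.lt_floor_add_one (c3 / 4 * (N * (z (j + 1)) ^ (-α)))
    have h4 : c3 / 4 * (N * X ^ (-α)) ≤ c3 / 4 * (N * (z (j + 1)) ^ (-α)) :=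
      mul_le_mul_of_nonneg_left (hT (j + 1)) (by positivity)
    have h5 : ((⌊c3 / 4 * (N * (z (j + 1)) ^ (-α))⌋₊ : ℕ) : ℝ) = sn j := rfl
    rw [h5] at h3
    linarith
  have hnG' : ∀ j ≤ J, c3 * (N * (z j) ^ (-(1 + α))) ≤ nG vert (kn j) := hnG
  have hkG : ∀ j ≤ J, c3 / 2 * (N * (z j) ^ (-α)) ≤ kn j * nG vert (kn j) := by
    intro j hj
    calc c3 / 2 * (N * (z j) ^ (-α)) = (z j / 2) * (c3 * (N * (z j) ^ (-(1 + α)))) := by
          rw [← hzz j]; ring
      _ ≤ kn j * nG vert (kn j) :=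
          mul_le_mul (hkn3 j) (hnG' j hj) (by have := hzpos j; positivity) (Nat.cast_nonneg _)
  set Φ : ℕ → ℝ := fun j => if j < J then (z j) ^ (-B') else 0 with hΦdef
  have hΦ0 : ∀ j, 0 ≤ Φ j := by
    intro j
    simp only [hΦdef]
    split_ifs
    · exact Real.rpow_nonneg (hzpos j).le _
    · exact le_refl _
  have hs : ∀ j < J, sn j + kn j + kn (j + 1) * (1 + M + J) ≤
      kn (j + 1) * nG vert (kn (j + 1)) := by
    intro j hj
    have hjJ : j + 1 ≤ J := hj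
    have a1 := hsn1 j
    have a2 := hkG (j + 1) hjJ
    have a3 : (kn j : ℝ) ≤ c3 / 8 * (N * (z (j + 1)) ^ (-α)) := by
      calc (kn j : ℝ) ≤ X := le_trans (hkn1 j) (hzX j)
        _ ≤ c3 / 8 * (N * X ^ (-α)) := hN1
        _ ≤ c3 / 8 * (N * (z (j + 1)) ^ (-α)) :=
            mul_le_mul_of_nonneg_left (hT (j + 1)) (by positivity)
    have a4 : (1 + M + J : ℝ) ≤ nG vert (kn (j + 1)) / 4 := by
      calc (1 + M + J : ℝ) ≤ c3 / 4 * (N * X ^ (-(1 + α))) := hN2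
        _ ≤ c3 / 4 * (N * (z (j + 1)) ^ (-(1 + α))) :=
            mul_le_mul_of_nonneg_left (hT2 (j + 1)) (by positivity)
        _ = (c3 * (N * (z (j + 1)) ^ (-(1 + α)))) / 4 := by ring
        _ ≤ nG vert (kn (j + 1)) / 4 := by
            apply div_le_div_of_nonneg_right (hnG' (j + 1) hjJ) (by norm_num)
    have a5 : (kn (j + 1) : ℝ) * (1 + M + J) ≤ kn (j + 1) * nG vert (kn (j + 1)) / 4 := by
      have := mul_le_mul_of_nonneg_left a4 (Nat.cast_nonneg (α := ℝ) (kn (j + 1)))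
      linarith
    have a6 : ((sn j + kn j + kn (j + 1) * (1 + M + J) : ℕ) : ℝ) ≤
        ((kn (j + 1) * nG vert (kn (j + 1)) : ℕ) : ℝ) := by
      push_cast
      linarith
    exact_mod_cast a6
  have hΦ : ∀ j < J, Real.exp (-((1 - (1 - p)) * (sn j / Fintype.card H) *
      ((kn j - 1) / 2 : ℕ))) + kn j * Φ (j + 1) ≤ Φ j := by
    intro j hj
    have hlevj := hlev (z j) (hzK j)
    have b1 : (z j) / 4 ≤ (((kn j - 1) / 2 : ℕ) : ℝ) := by
      have c1 : kn j ≤ 2 * ((kn j - 1) / 2) + 2 := by omega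
      have c2 : (kn j : ℝ) ≤ 2 * (((kn j - 1) / 2 : ℕ) : ℝ) + 2 := by exact_mod_cast c1
      have := hkn2 j
      have := hz8 j
      linarith
    have b2 : c3 / (8 * K1) * (z (j + 1)) ^ (-α) ≤ sn j / Fintype.card H := by
      rw [le_div_iff₀ hm0]
      have hpos : 0 < (z (j + 1)) ^ (-α) := Real.rpow_pos_of_pos (hzpos (j + 1)) _
      calc c3 / (8 * K1) * (z (j + 1)) ^ (-α) * Fintype.card H
          ≤ c3 / (8 * K1) * (z (j + 1)) ^ (-α) * (K1 * N) :=
            mul_le_mul_of_nonneg_left hm2 (by positivity)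
        _ = c3 / 8 * (N * (z (j + 1)) ^ (-α)) := by
            have : K1 ≠ 0 := by linarith
            field_simp
        _ ≤ sn j := hsn2 j
    have b3 : (z j) ^ (-(α * κ')) ≤ (z (j + 1)) ^ (-α) := by
      have c1 := zl_succ_le (K0 := K0) (κ' := κ') (X := X) (by linarith) (hJ2 j hj)
      calc (z j) ^ (-(α * κ')) = ((z j) ^ κ') ^ (-α) := by
            rw [← Real.rpow_mul (hzpos j).le]; congr 1; ring
        _ ≤ (z (j + 1)) ^ (-α) :=
            Real.rpow_le_rpow_of_nonpos (hzpos (j + 1)) c1 (by linarith)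
    have b4 : p * c3 / (32 * K1) * (z j) ^ (1 - α * κ') ≤
        (1 - (1 - p)) * (sn j / Fintype.card H) * ((kn j - 1) / 2 : ℕ) := by
      have c1 : (z j) ^ (1 - α * κ') = z j * (z j) ^ (-(α * κ')) := by
        nth_rewrite 2 [← Real.rpow_one (z j)]
        rw [← Real.rpow_add (hzpos j)]
        congr 1
      rw [c1]
      have hpos1 : 0 ≤ (z j) ^ (-(α * κ')) := Real.rpow_nonneg (hzpos j).le _
      have hzj := hzpos j
      calc p * c3 / (32 * K1) * (z j * (z j) ^ (-(α * κ')))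
          = p * (c3 / (8 * K1) * (z j) ^ (-(α * κ'))) * (z j / 4) := by
            have : K1 ≠ 0 := by linarith
            field_simp
            ring
        _ ≤ p * (c3 / (8 * K1) * (z (j + 1)) ^ (-α)) * (z j / 4) := by
            apply mul_le_mul_of_nonneg_right _ (by positivity)
            apply mul_le_mul_of_nonneg_left _ hp0.le
            exact mul_le_mul_of_nonneg_left b3 (by positivity)
        _ ≤ p * (sn j / Fintype.card H) * (((kn j - 1) / 2 : ℕ) : ℝ) := by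
            apply mul_le_mul _ b1 (by positivity) (by positivity)
            exact mul_le_mul_of_nonneg_left b2 hp0.le
        _ = _ := by ring
    have b5 : Real.exp (-((1 - (1 - p)) * (sn j / Fintype.card H) * ((kn j - 1) / 2 : ℕ))) ≤
        Real.exp (-(p * c3 / (32 * K1) * (z j) ^ (1 - α * κ'))) :=
      Real.exp_le_exp.2 (by linarith)
    have b6 : kn j * Φ (j + 1) ≤ z j * ((z j) ^ κ') ^ (-B') := by
      by_cases hj1 : j + 1 < J
      · have d1 : Φ (j + 1) = (z (j + 1)) ^ (-B') := by simp only [hΦdef, if_pos hj1]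
        have d2 : z (j + 1) = (z j) ^ κ' := by
          have e1 : z (j + 1) = K0 ^ (κ' ^ (j + 1)) := min_eq_left (hJ2 (j + 1) hj1).le
          have e2 : z j = K0 ^ (κ' ^ j) := min_eq_left (hJ2 j hj).le
          rw [e1, e2, ← Real.rpow_mul (by linarith), ← pow_succ]
        rw [d1, d2]
        apply mul_le_mul_of_nonneg_right (hkn1 j)
        exact Real.rpow_nonneg (Real.rpow_nonneg (hzpos j).le _) _
      · have d1 : Φ (j + 1) = 0 := by simp only [hΦdef, if_neg hj1]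
        rw [d1, mul_zero]
        exact mul_nonneg (hzpos j).le (Real.rpow_nonneg (Real.rpow_nonneg (hzpos j).le _) _)
    have b7 : Φ j = (z j) ^ (-B') := by simp only [hΦdef, if_pos hj]
    rw [b7]
    linarith
  set g : ℝ := c3 / (2 * K1) * K0 ^ (-α) with hg
  have hg0 : 0 ≤ g := by rw [hg]; positivity
  have hK0α : K0 ^ (-α) ≤ 1 := Real.rpow_le_one_of_one_le_of_nonpos hK0' (by linarith)
  have hg1 : g ≤ 1 := by
    rw [hg]
    have e1 : c3 / (2 * K1) ≤ 1 := by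
      rw [div_le_one (by positivity)]; linarith
    have e2 : 0 ≤ K0 ^ (-α) := by positivity
    have e3 : 0 ≤ c3 / (2 * K1) := by positivity
    nlinarith
  have hz0 : z 0 = K0 := by
    have : z 0 = min (K0 ^ (κ' ^ 0)) X := rfl
    rw [this, pow_zero, Real.rpow_one]
    exact min_eq_left hK0X
  have hgg : g * Fintype.card H ≤ kn 0 * nG vert (kn 0) := by
    have e1 := hkG 0 (Nat.zero_le J)
    rw [hz0] at e1
    calc g * Fintype.card H ≤ g * (K1 * N) := mul_le_mul_of_nonneg_left hm2 hg0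
      _ = c3 / 2 * (N * K0 ^ (-α)) := by
          rw [hg]
          have : K1 ≠ 0 := by linarith
          field_simp
      _ ≤ _ := e1
  have hzJ : z J = X := by
    have : z J = min (K0 ^ (κ' ^ J)) X := rfl
    rw [this]; exact min_eq_right hJ1
  have hnear := near_quenched vert idx nx hidx hnx1 hnx2 κ hη hy0 hW (1 - p) (by linarith)
    (by linarith) hp kn sn J (1 + M + J) Φ hΦ0 hs hΦ g hg0 hg1 hgg M (le_refl _) h1 h2 hm
    (kn J / 4) (by omega)
  refine le_trans hnear ?_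
  apply mul_le_mul_of_nonneg_left _ (Nat.cast_nonneg _)
  have hk0 : (kn 0 : ℝ) ≤ K0 := by
    have := hkn1 0; rwa [hz0] at this
  have hΦ00 : Φ 0 ≤ K0 ^ (-B') := by
    simp only [hΦdef]
    split_ifs
    · rw [hz0]
    · positivity
  have t1 : (M : ℝ) * (((1 + M + J : ℕ) : ℝ) * kn 0 * (2 / Fintype.card H)) ≤
      M * (((1 + M + J : ℕ) : ℝ) * K0 * (2 / Fintype.card H)) := by
    apply mul_le_mul_of_nonneg_left _ (Nat.cast_nonneg _)
    apply mul_le_mul_of_nonneg_right _ (by positivity)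
    exact mul_le_mul_of_nonneg_left hk0 (Nat.cast_nonneg _)
  have t2 : Real.exp (-((1 - (1 - p)) * ((2 * (kn J / 4) : ℕ) / Fintype.card H) *
      (kn J / 4 : ℕ))) ≤ Real.exp (-(p / (32 * K1) * (X ^ 2 / N))) := by
    apply Real.exp_le_exp.2
    apply neg_le_neg
    have e1 : X / 8 ≤ ((kn J / 4 : ℕ) : ℝ) := by
      have c1 : kn J ≤ 4 * (kn J / 4) + 3 := by omega
      have c2 : (kn J : ℝ) ≤ 4 * ((kn J / 4 : ℕ) : ℝ) + 3 := by exact_mod_cast c1
      have c3 := hkn2 J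
      rw [hzJ] at c3
      linarith
    have e2 : 0 ≤ X / 8 := by positivity
    rw [Nat.cast_mul]
    have e3 : (X / 8) ^ 2 ≤ (((kn J / 4 : ℕ) : ℝ)) ^ 2 := pow_le_pow_left₀ e2 e1 2
    calc p / (32 * K1) * (X ^ 2 / N) = p * (2 * (X / 8) ^ 2) / (K1 * N) := by
          have : K1 ≠ 0 := by linarith
          have : N ≠ 0 := by linarith
          field_simp
          ring
      _ ≤ p * (2 * (((kn J / 4 : ℕ) : ℝ)) ^ 2) / (K1 * N) := by
          apply div_le_div_of_nonneg_right _ (by positivity)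
          exact mul_le_mul_of_nonneg_left (by linarith) hp0.le
      _ ≤ p * (2 * (((kn J / 4 : ℕ) : ℝ)) ^ 2) / Fintype.card H := by
          apply div_le_div_of_nonneg_left (by positivity) hm0 hm2
      _ = _ := by push_cast; ring
  have t3 : ((Fintype.card V : ℝ)) ^ 2 * Real.exp (-((1 - (1 - p)) *
      ((2 * (kn J / 4) : ℕ) / Fintype.card H) * (kn J / 4 : ℕ))) ≤
      (Fintype.card V : ℝ) ^ 2 * Real.exp (-(p / (32 * K1) * (X ^ 2 / N))) :=
    mul_le_mul_of_nonneg_left t2 (by positivity)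
  linarith

end Pool.Agent.H949.CM
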