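import Pool.Agent.H949.CM.Quench
import Pool.Agent.H949.CM.NearInst
import Pool.Agent.H949.CM.Deg

/-!
# Assembly, deterministic and asymptotic parts
-/

set_option linter.unusedSectionVars false
set_option linter.unusedSimpArgs false
set_option linter.unusedVariables false

open MeasureTheory Finset ProbabilityTheory Filter Topology
open scoped ENNReal

namespace Pool.Agent.H949.CM

/-- Far part: the bound on the connecting paths tends to zero. -/
theorem far_ev {l ε0 K1 B δ : ℝ} (hl : 0 < l) (hε0 : 0 < ε0) (hε01 : ε0 < 1) (hK1 : 1 ≤ K1)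
    (hB : 0 ≤ B) (hδ : 0 < δ) :
    ∀ᶠ y : ℝ in atTop, ∀ K : ℕ, (K : ℝ) ≤ 2 * (1 - ε0) * (Real.log y / l) →
      K * (2 * Real.exp (-y) * (K1 * gth B (Real.exp ((1 + ε0) * l)) (K / 2 + 1)) ^ (K + 1)) ≤
        δ := by
  set κ := Real.exp ((1 + ε0) * l) with hκ
  have hκ0 : 0 < κ := Real.exp_pos _
  have hκ1 : 1 ≤ κ := by rw [hκ]; exact Real.one_le_exp (by positivity)
  have hA : 0 ≤ Real.log K1 := Real.log_nonneg hK1
  have h1 := ev_far_exponent (c := 2 / l) (A := Real.log K1) (D := B * κ) (θ := ε0 ^ 2)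
    (by positivity) hA (by positivity) (by positivity)
  have h2 := ev_mul_exp_neg hδ
  have h3 := ev_log_le_rpow (2 / l) 0 (c := 1) (r := 1) one_pos one_pos
  filter_upwards [h1, h2, h3, eventually_ge_atTop (1 : ℝ)] with y hy1 hy2 hy3 hy4
  intro K hK
  have hy0 : 0 < y := by linarith
  have hlog : 0 ≤ Real.log y := Real.log_nonneg hy4
  have hKc : (K : ℝ) ≤ 2 / l * Real.log y := by
    calc (K : ℝ) ≤ 2 * (1 - ε0) * (Real.log y / l) := hK
      _ ≤ 2 * 1 * (Real.log y / l) := by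
          apply mul_le_mul_of_nonneg_right (by linarith) (by positivity)
      _ = 2 / l * Real.log y := by ring
  have hKy : (K : ℝ) ≤ y := by
    rw [Real.rpow_one] at hy3; linarith
  have hκJ : κ ^ (K / 2 + 1) ≤ κ * y ^ (1 - ε0 ^ 2) := by
    rw [pow_succ, mul_comm]
    apply mul_le_mul_of_nonneg_left _ hκ0.le
    have e1 : (((K / 2 : ℕ)) : ℝ) ≤ (1 - ε0) * (Real.log y / l) := by
      have : ((K / 2 : ℕ) : ℝ) ≤ (K : ℝ) / 2 := Nat.cast_div_le
      linarith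
    calc κ ^ (K / 2) = Real.exp ((1 + ε0) * l * ((K / 2 : ℕ) : ℝ)) := by
          rw [hκ, ← Real.exp_nat_mul]; congr 1; ring
      _ ≤ Real.exp ((1 + ε0) * l * ((1 - ε0) * (Real.log y / l))) := by
          apply Real.exp_le_exp.2
          exact mul_le_mul_of_nonneg_left e1 (by positivity)
      _ = y ^ (1 - ε0 ^ 2) := by
          rw [Real.rpow_def_of_pos hy0]
          congr 1
          field_simp
          ring
  have hgth : K1 * gth B κ (K / 2 + 1) ≤ Real.exp (Real.log K1 + B * κ * y ^ (1 - ε0 ^ 2)) := by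
    rw [Real.exp_add, Real.exp_log (by linarith)]
    apply mul_le_mul_of_nonneg_left _ (by linarith)
    unfold gth
    apply Real.exp_le_exp.2
    have := mul_le_mul_of_nonneg_left hκJ hB
    linarith
  have hg0 : 0 ≤ K1 * gth B κ (K / 2 + 1) := by
    have : 0 < gth B κ (K / 2 + 1) := Real.exp_pos _
    positivity
  have hpow : (K1 * gth B κ (K / 2 + 1)) ^ (K + 1) ≤ Real.exp (y / 2) := by
    calc (K1 * gth B κ (K / 2 + 1)) ^ (K + 1)
        ≤ (Real.exp (Real.log K1 + B * κ * y ^ (1 - ε0 ^ 2))) ^ (K + 1) :=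
          pow_le_pow_left₀ hg0 hgth _
      _ = Real.exp (((K : ℝ) + 1) * (Real.log K1 + B * κ * y ^ (1 - ε0 ^ 2))) := by
          rw [← Real.exp_nat_mul]; push_cast; rfl
      _ ≤ Real.exp ((2 / l * Real.log y + 1) * (Real.log K1 + B * κ * y ^ (1 - ε0 ^ 2))) := by
          apply Real.exp_le_exp.2
          apply mul_le_mul_of_nonneg_right (by linarith) (by positivity)
      _ ≤ Real.exp (y / 2) := Real.exp_le_exp.2 hy1
  calc (K : ℝ) * (2 * Real.exp (-y) * (K1 * gth B κ (K / 2 + 1)) ^ (K + 1))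
      ≤ y * (2 * Real.exp (-y) * Real.exp (y / 2)) := by
        apply mul_le_mul hKy _ (by positivity) hy0.le
        exact mul_le_mul_of_nonneg_left hpow (by positivity)
    _ = y * (2 * Real.exp (-(y / 2))) := by
        rw [mul_assoc 2, ← Real.exp_add]
        congr 3
        ring
    _ ≤ δ := hy2

/-- The geometric inequality. -/
theorem geom_ineq {y0 β ε0 L C : ℝ} (hy0 : 0 < y0) (hε0 : 0 < ε0) (hε6 : ε0 ≤ 1 / 6)
    (hεβ : (4 * y0 + 1) * ε0 ≤ (β - y0) / 2) (hβ : y0 < β) (hL : 0 < L) (hC : C ≤ ε0 * L)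
    (Lm : ℕ) (hLm : (Lm : ℝ) ≤ 2 * (1 + ε0) * L) :
    ∀ m ≤ Lm, ∀ i ≤ m, ∀ j : ℕ, ⌊2 * (1 - ε0) * L⌋₊ < j + i →
      ⌊2 * (1 - ε0) * L⌋₊ < j + (m - i) → y0 * i + C < β * j := by
  intro m hm i hi j h1 h2
  have hK : 2 * (1 - ε0) * L < ⌊2 * (1 - ε0) * L⌋₊ + 1 := Nat.lt_floor_add_one _
  have h1' : 2 * (1 - ε0) * L < j + i := by
    have : ((⌊2 * (1 - ε0) * L⌋₊ : ℕ) : ℝ) + 1 ≤ (j : ℝ) + i := by exact_mod_cast h1
    linarith
  have h2' : 2 * (1 - ε0) * L < j + (m - i) := by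
    have e1 : ((⌊2 * (1 - ε0) * L⌋₊ : ℕ) : ℝ) + 1 ≤ (j : ℝ) + ((m - i : ℕ) : ℝ) := by
      exact_mod_cast h2
    rw [Nat.cast_sub hi] at e1
    linarith
  have hm' : (m : ℝ) ≤ 2 * (1 + ε0) * L := by
    have : (m : ℝ) ≤ Lm := by exact_mod_cast hm
    linarith
  have hj1 : (1 - 3 * ε0) * L < j := by nlinarith
  have hi1 : (i : ℝ) < j + 4 * ε0 * L := by nlinarith
  have h3 : y0 * i + C < y0 * (j + 4 * ε0 * L) + ε0 * L := by nlinarith
  have h4 : (4 * y0 + 1) * ε0 * L ≤ (β - y0) * j := by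
    have e1 : (4 * y0 + 1) * ε0 * L ≤ (β - y0) / 2 * L := mul_le_mul_of_nonneg_right hεβ hL.le
    have e2 : L / 2 ≤ j := by nlinarith
    have e3 : (β - y0) * (L / 2) ≤ (β - y0) * j := mul_le_mul_of_nonneg_left e2 (by linarith)
    linarith
  nlinarith

/-- All requirements on `N` for the near part. -/
theorem near_ev {α l ρ0 κ' K0 K1 c3 ε0 p W η δ : ℝ} (hα0 : 0 < α) (hα1 : α < 1)
    (hl : l = Real.log (1 / α)) (hρ1 : 1 / 2 < ρ0) (hρ2 : ρ0 * (1 + α) < 1)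
    (hκ' : 1 < κ') (hε0 : 0 < ε0) (hε6 : ε0 ≤ 1 / 6) (hκl : Real.log κ' = l / (1 + ε0 / 2))
    (hK0 : 8 ≤ K0) (hK1 : 1 ≤ K1) (hc3 : 0 < c3) (hp : 0 < p) (hη : η = ε0 / 8)
    (hδ : 0 < δ) (M : ℕ) :
    ∀ᶠ N : ℝ in atTop, ∀ J : ℕ, (∀ j < J, K0 ^ (κ' ^ j) < N ^ ρ0) →
      1 ≤ N ∧ K0 ≤ N ^ ρ0 ∧ N ^ ρ0 ≤ c3 / 8 * (N * (N ^ ρ0) ^ (-α)) ∧
      2 ≤ c3 / 4 * (N * (N ^ ρ0) ^ (-α)) ∧
      (1 + M + J : ℝ) ≤ c3 / 4 * (N * (N ^ ρ0) ^ (-(1 + α))) ∧
      (M : ℝ) * (((1 + M + J : ℕ) : ℝ) * K0 * (2 / N)) ≤ δ ∧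
      N ^ 2 * Real.exp (-(p / (32 * K1) * ((N ^ ρ0) ^ 2 / N))) ≤ δ ∧
      (4 * (M + 1) : ℝ) ≤ N ∧
      ((2 * (M + J) + 1 : ℕ) : ℝ) ≤ 2 * (1 + ε0) * (Real.log (Real.log N) / l) ∧
      2 * (M * W + J * η) + η ≤ ε0 * (Real.log (Real.log N) / l) ∧
      0 < Real.log (Real.log N) / l ∧
      4 * (2 * (Real.log (Real.log N) / l)) + 4 ≤ N ∧ 1 / N ≤ δ := by
  have hl0 : 0 < l := by
    rw [hl]; exact Real.log_pos (by rw [lt_div_iff₀ hα0]; linarith)
  have hρ0 : 0 < ρ0 := by linarith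
  have hr1 : 0 < 1 - ρ0 * (1 + α) := by linarith
  have hlκ' : 0 < Real.log κ' := Real.log_pos hκ'
  have hlogt : Tendsto Real.log atTop atTop := Real.tendsto_log_atTop
  have hLt : Tendsto (fun N => Real.log (Real.log N) / l) atTop atTop :=
    (hlogt.comp hlogt).atTop_div_const hl0
  have a1 : ∀ᶠ N : ℝ in atTop, K0 ≤ N ^ ρ0 := (tendsto_rpow_atTop hρ0).eventually_ge_atTop _
  have a2 : ∀ᶠ N : ℝ in atTop, 8 / c3 ≤ N ^ (1 - ρ0 * (1 + α)) :=
    (tendsto_rpow_atTop hr1).eventually_ge_atTop _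
  have a4 := ev_log_le_rpow (1 / Real.log κ') (2 + M) (c := c3 / 4)
    (r := 1 - ρ0 * (1 + α)) (by positivity) hr1
  have a5 := ev_log_le_rpow (1 / Real.log κ') (2 + M) (c := δ / (2 * M * K0 + 1))
    (r := 1) (by positivity) one_pos
  have a6 := ev_sq_mul_exp_neg (c := p / (32 * K1)) (r := 2 * ρ0 - 1) (by positivity)
    (by linarith) hδ
  have a7 : ∀ᶠ N : ℝ in atTop, (2 * M + 3) / ε0 ≤ Real.log (Real.log N) / l :=
    hLt.eventually_ge_atTop _
  have a8 : ∀ᶠ N : ℝ in atTop, (2 * M * W + 3 * η) * (2 / ε0) ≤ Real.log (Real.log N) / l :=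
    hLt.eventually_ge_atTop _
  have a9 : ∀ᶠ N : ℝ in atTop, 1 ≤ Real.log N := hlogt.eventually_ge_atTop _
  have a10 : ∀ᶠ N : ℝ in atTop, 0 < Real.log (Real.log N) / l := hLt.eventually_gt_atTop _
  have a11 := ev_log_le_rpow (8 / l) 4 (c := 1) (r := 1) one_pos one_pos
  filter_upwards [a1, a2, a4, a5, a6, a7, a8, a9, a10, a11, eventually_ge_atTop (1 : ℝ),
    eventually_ge_atTop (4 * (M + 1) : ℝ), eventually_ge_atTop (1 / δ)]
    with N b1 b2 b4 b5 b6 b7 b8 b9 b10 b11 b12 b13 b14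
  intro J hJ
  have hN0 : 0 < N := by linarith
  have hX0 : 0 < N ^ ρ0 := Real.rpow_pos_of_pos hN0 _
  have hlogN0 : 0 < Real.log N := by linarith
  have hloglog : Real.log (Real.log N) ≤ Real.log N := by
    have := Real.log_le_sub_one_of_pos hlogN0
    linarith
  -- the number of levels
  have hlev := levels_bound (K0 := K0) (κ' := κ') (X := N ^ ρ0) (y := Real.log N)
    (by have := Real.exp_one_lt_d9; linarith) hκ' hX0
    (by
      rw [Real.log_rpow hN0]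
      have : ρ0 ≤ 1 := by nlinarith
      nlinarith) b9 J hJ
  have hJL : (J : ℝ) ≤ (1 + ε0 / 2) * (Real.log (Real.log N) / l) + 1 := by
    rw [hκl] at hlev
    have : Real.log (Real.log N) / (l / (1 + ε0 / 2)) =
        (1 + ε0 / 2) * (Real.log (Real.log N) / l) := by
      field_simp
    linarith
  have hJlog : (1 + M + J : ℝ) ≤ 1 / Real.log κ' * Real.log N + (2 + M) := by
    have : Real.log (Real.log N) / Real.log κ' ≤ 1 / Real.log κ' * Real.log N := by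
      rw [div_mul_eq_mul_div, one_mul]
      exact div_le_div_of_nonneg_right hloglog hlκ'.le
    linarith
  have e1 : N * (N ^ ρ0) ^ (-α) = N ^ (1 - ρ0 * (1 + α)) * N ^ ρ0 := by
    rw [← Real.rpow_mul hN0.le, ← Real.rpow_add hN0]
    nth_rewrite 1 [← Real.rpow_one N]
    rw [← Real.rpow_add hN0]
    congr 1; ring
  have e2 : N * (N ^ ρ0) ^ (-(1 + α)) = N ^ (1 - ρ0 * (1 + α)) := by
    rw [← Real.rpow_mul hN0.le]
    nth_rewrite 1 [← Real.rpow_one N]
    rw [← Real.rpow_add hN0]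
    congr 1; ring
  have e3 : (N ^ ρ0) ^ 2 / N = N ^ (2 * ρ0 - 1) := by
    rw [← Real.rpow_natCast (N ^ ρ0) 2, ← Real.rpow_mul hN0.le, Real.rpow_sub hN0, Real.rpow_one]
    congr 2
    push_cast; ring
  have f2 : N ^ ρ0 ≤ c3 / 8 * (N * (N ^ ρ0) ^ (-α)) := by
    rw [e1]
    have : 1 ≤ c3 / 8 * N ^ (1 - ρ0 * (1 + α)) := by
      rw [div_le_iff₀ hc3] at b2
      linarith
    calc N ^ ρ0 = 1 * N ^ ρ0 := (one_mul _).symm
      _ ≤ (c3 / 8 * N ^ (1 - ρ0 * (1 + α))) * N ^ ρ0 := mul_le_mul_of_nonneg_right this hX0.le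
      _ = _ := by ring
  refine ⟨b12, b1, f2, by linarith, ?_, ?_, ?_, b13, ?_, ?_, b10, ?_, ?_⟩
  · rw [e2]; linarith
  · rw [Real.rpow_one] at b5
    have h1 : (((1 + M + J : ℕ)) : ℝ) ≤ δ / (2 * M * K0 + 1) * N := by
      push_cast
      linarith
    have hMK : (0 : ℝ) < 2 * M * K0 + 1 := by positivity
    calc (M : ℝ) * (((1 + M + J : ℕ) : ℝ) * K0 * (2 / N))
        ≤ M * ((δ / (2 * M * K0 + 1) * N) * K0 * (2 / N)) := by
          apply mul_le_mul_of_nonneg_left _ (Nat.cast_nonneg _)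
          apply mul_le_mul_of_nonneg_right _ (by positivity)
          exact mul_le_mul_of_nonneg_right h1 (by linarith)
      _ = δ * ((2 * M * K0) / (2 * M * K0 + 1)) := by
          field_simp
      _ ≤ δ * 1 := by
          apply mul_le_mul_of_nonneg_left _ hδ.le
          rw [div_le_one hMK]; linarith
      _ = δ := mul_one δ
  · rw [e3]; exact b6
  · push_cast
    rw [div_le_iff₀ hε0] at b7
    nlinarith
  · have h1 : 2 * M * W + 3 * η ≤ ε0 / 2 * (Real.log (Real.log N) / l) := by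
      have := mul_le_mul_of_nonneg_left b8 (show (0 : ℝ) ≤ ε0 / 2 by positivity)
      calc 2 * M * W + 3 * η = ε0 / 2 * ((2 * M * W + 3 * η) * (2 / ε0)) := by field_simp
        _ ≤ _ := this
    have hη0 : 0 ≤ η := by rw [hη]; positivity
    have h2 : J * η ≤ ((1 + ε0 / 2) * (Real.log (Real.log N) / l) + 1) * η :=
      mul_le_mul_of_nonneg_right hJL hη0
    have h3 : 2 * ((1 + ε0 / 2) * η) ≤ ε0 / 2 := by
      rw [hη]; nlinarith
    have h4 : 2 * ((1 + ε0 / 2) * η) * (Real.log (Real.log N) / l) ≤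
        ε0 / 2 * (Real.log (Real.log N) / l) := mul_le_mul_of_nonneg_right h3 b10.le
    nlinarith
  · rw [Real.rpow_one] at b11
    have : Real.log (Real.log N) / l ≤ Real.log N / l := div_le_div_of_nonneg_right hloglog hl0.le
    have e4 : 8 / l * Real.log N = 8 * (Real.log N / l) := by ring
    rw [e4] at b11
    linarith
  · rw [div_le_iff₀ hN0]
    rw [div_le_iff₀ hδ] at b14
    linarith

end Pool.Agent.H949.CM
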