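import Pool.Agent.H949.CM.MainA

/-!
# Assembly: the general theorem
-/

set_option linter.unusedSectionVars false
set_option linter.unusedSimpArgs false
set_option linter.unusedVariables false

open MeasureTheory Finset ProbabilityTheory Filter Topology
open scoped ENNReal

namespace Pool.Agent.H949.CM

/-- Parameters of the proof. -/
structure Par where
  (α y0 β K1 c3 δ ε l ε0 κf a' κ' ρ0 B' η p B K0 W g : ℝ)
  (M : ℕ)

/-- The requirements on the parameters. -/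
structure Par.Ok (P : Par) (κ : Measure (ℝ × ℝ)) : Prop where
  α0 : 0 < P.α
  α1 : P.α < 1
  y0 : 0 < P.y0
  β : P.y0 < P.β
  K1 : 1 ≤ P.K1
  c3 : 0 < P.c3
  c3' : P.c3 ≤ 1
  δ : 0 < P.δ
  ε : 0 < P.ε
  l : P.l = Real.log (1 / P.α)
  ε0 : 0 < P.ε0
  ε6 : P.ε0 ≤ 1 / 6
  εβ : (4 * P.y0 + 1) * P.ε0 ≤ (P.β - P.y0) / 2
  κf : P.κf = Real.exp ((1 + P.ε0) * P.l)
  a0 : 0 < P.a'
  aα : P.a' < P.α
  aκ : 1 < P.a' * P.κf
  κ' : 1 < P.κ'
  ακ' : P.α * P.κ' < 1
  κl : Real.log P.κ' = P.l / (1 + P.ε0 / 2)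
  ρ1 : 1 / 2 < P.ρ0
  ρ2 : P.ρ0 * (1 + P.α) < 1
  B' : 0 < P.B'
  η : P.η = P.ε0 / 8
  p0 : 0 < P.p
  p1 : P.p ≤ 1
  pG : κ.real (Gd P.y0 P.η)ᶜ ≤ 1 - P.p
  κ1 : κ {q | q.1 < P.y0} = 0
  κ2 : κ {q | q.2 < P.β} = 0
  B : 0 ≤ P.B
  θ1 : P.K1 * Real.exp (-(P.B * (P.a' * P.κf - 1))) ≤ 1 / 2
  θ2 : 4 * (P.K1 * Real.exp (-(P.B * (P.a' * P.κf - 1)))) ≤ P.δ
  Bδ : P.K1 * Real.exp (-P.B) ≤ P.δ
  K0 : 8 ≤ P.K0
  lev : ∀ z, P.K0 ≤ z → Real.exp (-(P.p * P.c3 / (32 * P.K1) * z ^ (1 - P.α * P.κ'))) +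
      z * (z ^ P.κ') ^ (-P.B') ≤ z ^ (-P.B')
  K0δ : P.K0 ^ (-P.B') ≤ P.δ
  g : P.g = P.c3 / (2 * P.K1) * P.K0 ^ (-P.α)
  M : (1 - P.g) ^ P.M ≤ P.δ
  W : 0 ≤ P.W
  Wδ : P.M * κ.real {q | P.W < q.1} ≤ P.δ

/-- Good degree sequences. -/
structure GoodDeg (P : Par) {n : ℕ} (J : ℕ) (d : Fin (n + 1) → ℕ) : Prop where
  two : ∀ v, 2 ≤ d v
  mom : ∑ v, ((d v : ℝ)) ^ (1 + P.a') ≤ P.K1 * ((n : ℝ) + 1)
  lvl : ∀ j ≤ J, P.c3 * (((n : ℝ) + 1) * (zl P.K0 P.κ' (((n : ℝ) + 1) ^ P.ρ0) j) ^ (-(1 + P.α))) ≤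
    (cnt ⌊zl P.K0 P.κ' (((n : ℝ) + 1) ^ P.ρ0) j⌋₊ d : ℝ)

theorem quenched_good (P : Par) (κ : Measure (ℝ × ℝ)) [IsProbabilityMeasure κ] (hP : P.Ok κ) :
    ∀ᶠ n : ℕ in atTop, ∀ J : ℕ,
      (∀ j < J, P.K0 ^ (P.κ' ^ j) < ((n : ℝ) + 1) ^ P.ρ0) →
      ((n : ℝ) + 1) ^ P.ρ0 ≤ P.K0 ^ (P.κ' ^ J) →
      ∀ d : Fin (n + 1) → ℕ, GoodDeg P J d →
        cmLaw κ d (fewRed d P.ε) ≤ ENNReal.ofReal (19 * P.δ / P.ε) := by
  have hl0 : 0 < P.l := by
    rw [hP.l]; exact Real.log_pos (by rw [lt_div_iff₀ hP.α0]; linarith [hP.α1])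
  have hNt : Tendsto (fun n : ℕ => (n : ℝ) + 1) atTop atTop :=
    tendsto_natCast_atTop_atTop.atTop_add tendsto_const_nhds
  have hyt : Tendsto (fun n : ℕ => Real.log ((n : ℝ) + 1)) atTop atTop :=
    Real.tendsto_log_atTop.comp hNt
  have ev1 := hNt.eventually (near_ev (W := P.W) (η := P.η) hP.α0 hP.α1 hP.l hP.ρ1 hP.ρ2 hP.κ'
    hP.ε0 hP.ε6 hP.κl hP.K0 hP.K1 hP.c3 hP.p0 hP.η hP.δ P.M)
  have ev2 := hyt.eventually (far_ev (l := P.l) (ε0 := P.ε0) (K1 := P.K1) (B := P.B) hl0 hP.ε0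
    (by linarith [hP.ε6]) hP.K1 hP.B hP.δ)
  filter_upwards [ev1, ev2] with n hn1 hn2
  intro J hJ2 hJ1 d hd
  set N : ℝ := (n : ℝ) + 1 with hN
  obtain ⟨c1, c2, c3, c4, c5, c6, c7, c8, c9, c10, c11, c12, c13⟩ := hn1 J hJ2
  set L : ℝ := Real.log (Real.log N) / P.l with hL
  set K : ℕ := ⌊2 * (1 - P.ε0) * L⌋₊ with hK
  have hε6 := hP.ε6
  have hε00 := hP.ε0
  have hKle : (K : ℝ) ≤ 2 * (1 - P.ε0) * L := by
    apply Nat.floor_le
    have : 0 ≤ 1 - P.ε0 := by linarith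
    positivity
  have hKle2 : (K : ℝ) ≤ 2 * L := by nlinarith
  -- number of half-edges
  have hcard : Fintype.card (HalfEdge d) = ∑ v, d v := card_halfEdge d
  have hm2N : 2 * N ≤ (Fintype.card (HalfEdge d) : ℝ) := by
    rw [hcard]
    push_cast
    calc 2 * N = ∑ v : Fin (n + 1), (2 : ℝ) := by
          rw [Finset.sum_const, Finset.card_univ, Fintype.card_fin, nsmul_eq_mul, hN]
          push_cast; ring
      _ ≤ ∑ v, (d v : ℝ) := Finset.sum_le_sum (fun v _ => by exact_mod_cast hd.two v)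
  have hmK1 : (Fintype.card (HalfEdge d) : ℝ) ≤ P.K1 * N := by
    rw [hcard]
    push_cast
    refine le_trans (Finset.sum_le_sum (fun v _ => ?_)) hd.mom
    have h1 : (1 : ℝ) ≤ d v := by
      have := hd.two v
      exact_mod_cast (by omega : 1 ≤ d v)
    calc (d v : ℝ) = (d v : ℝ) ^ (1 : ℝ) := (Real.rpow_one _).symm
      _ ≤ (d v : ℝ) ^ (1 + P.a') := Real.rpow_le_rpow_of_exponent_le h1 (by linarith [hP.a0])
  have hN0 : 0 < N := by linarith
  have hm0 : 0 < Fintype.card (HalfEdge d) := by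
    have : (0 : ℝ) < Fintype.card (HalfEdge d) := by linarith
    exact_mod_cast this
  have hMs : Ms (vtx (d := d)) (1 + P.a') ≤ P.K1 * ((Fintype.card (HalfEdge d) : ℝ) / 2) := by
    have h1 : Ms (vtx (d := d)) (1 + P.a') ≤ P.K1 * N := by
      unfold Ms
      simp only [deg_vtx]
      exact hd.mom
    refine le_trans h1 ?_
    apply mul_le_mul_of_nonneg_left (by linarith) (by linarith [hP.K1])
  have hmR : (0 : ℝ) < Fintype.card (HalfEdge d) := by exact_mod_cast hm0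
  -- apply the reduction
  have hmain := quenched d hd.two κ (y0 := P.y0) (β := P.β) hP.y0 (by linarith [hP.y0, hP.β])
    hP.κ1 hP.κ2 K (2 * (P.M + J) + 1) (2 * (P.M * P.W + J * P.η) + P.η) (gth P.B P.κf 0) P.ε
    (2 * P.δ) (9 * P.δ) P.δ hP.ε (by linarith [hP.δ]) (by linarith [hP.δ])
    (geom_ineq hP.y0 hP.ε0 hP.ε6 hP.εβ hP.β c11 c10 _ c9)
    (by
      intro u v huv hu hv
      have hκf1 : 1 < P.κf := by
        rw [hP.κf]
        apply Real.one_lt_exp_iff.2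
        have := hP.ε0
        positivity
      have e4 : 4 * K + 4 ≤ Fintype.card (HalfEdge d) := by
        have h1 : ((4 * K + 4 : ℕ) : ℝ) ≤ (Fintype.card (HalfEdge d) : ℝ) := by
          push_cast
          linarith
        exact_mod_cast h1
      have h1 := far_quenched (vtx (d := d)) (a := P.a') (κ := P.κf) (B := P.B) (K1 := P.K1)
        hP.a0 (lt_trans hP.aα hP.α1) hκf1 hP.aκ hP.B hP.K1 hMs huv
        (by rw [deg_vtx]; exact hu) (by rw [deg_vtx]; exact hv) (K / 2 + 1) K (by omega)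
        (by omega) (by omega) hm0 hP.θ1
      refine le_trans h1 ?_
      apply mul_le_mul_of_nonneg_left _ (Nat.cast_nonneg _)
      have h2 := hn2 K hKle
      have hg0 : 0 ≤ (P.K1 * gth P.B P.κf (K / 2 + 1)) ^ (K + 1) := by
        have h3 : 0 < gth P.B P.κf (K / 2 + 1) := Real.exp_pos _
        have h4 := hP.K1
        positivity
      have h3 : (K : ℝ) * (2 / (Fintype.card (HalfEdge d) : ℝ) *
          (P.K1 * gth P.B P.κf (K / 2 + 1)) ^ (K + 1)) ≤ P.δ := by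
        rw [← hP.κf, Real.exp_neg, Real.exp_log hN0] at h2
        refine le_trans ?_ h2
        apply mul_le_mul_of_nonneg_left _ (Nat.cast_nonneg _)
        apply mul_le_mul_of_nonneg_right _ hg0
        rw [← div_eq_mul_inv]
        apply div_le_div_of_nonneg_left (by norm_num) hN0 (by linarith)
      have := hP.θ2
      linarith)
    (by
      intro h1 h2
      have hcnt : ∀ j ≤ J, P.c3 * (N * (zl P.K0 P.κ' (N ^ P.ρ0) j) ^ (-(1 + P.α))) ≤
          nG (vtx (d := d)) ⌊zl P.K0 P.κ' (N ^ P.ρ0) j⌋₊ := by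
        intro j hj
        have h3 := hd.lvl j hj
        have h4 : nG (vtx (d := d)) ⌊zl P.K0 P.κ' (N ^ P.ρ0) j⌋₊ =
            cnt ⌊zl P.K0 P.κ' (N ^ P.ρ0) j⌋₊ d := by
          unfold nG cnt
          simp only [deg_vtx]
        rw [h4]
        exact h3
      have h3 := near_inst (vtx (d := d)) hidx (hnx hd.two) (hidx_spec d) (hnx_ne hd.two)
        (vtx_hnx hd.two) κ (y0 := P.y0) (η := P.η) (W := P.W)
        (by rw [hP.η]; have := hP.ε0; positivity) hP.y0.le hP.W P.p hP.p0 hP.p1 hP.pG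
        hP.α0 hP.α1 hP.K1 hP.c3 hP.c3' hP.κ' hP.ακ' hP.B' hP.K0 hP.lev c1 c2 J P.M hJ1 hJ2
        c3 c4 c5 (by linarith) hmK1
        (by
          have h5 : ((4 * (P.M + 1) : ℕ) : ℝ) ≤ (Fintype.card (HalfEdge d) : ℝ) := by
            push_cast
            linarith
          exact_mod_cast h5) hcnt h1 h2
      refine le_trans h3 ?_
      apply mul_le_mul_of_nonneg_left _ (Nat.cast_nonneg _)
      have g1 := hP.M
      rw [hP.g] at g1
      have g2 : (P.M : ℝ) * (((1 + P.M + J : ℕ) : ℝ) * P.K0 *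
          (2 / (Fintype.card (HalfEdge d) : ℝ))) ≤ P.δ := by
        refine le_trans ?_ c6
        apply mul_le_mul_of_nonneg_left _ (Nat.cast_nonneg _)
        apply mul_le_mul_of_nonneg_left _ (by have := hP.K0; positivity)
        apply div_le_div_of_nonneg_left (by norm_num) hN0 (by linarith)
      have g3 := hP.K0δ
      have g4 := hP.Wδ
      have g5 : (Fintype.card (Fin (n + 1)) : ℝ) ^ 2 *
          Real.exp (-(P.p / (32 * P.K1) * ((N ^ P.ρ0) ^ 2 / N))) ≤ P.δ := by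
        rw [Fintype.card_fin]
        have : ((n + 1 : ℕ) : ℝ) = N := by push_cast; rfl
        rw [this]; exact c7
      linarith)
    (by
      have hexp : 0 < Real.exp P.B := Real.exp_pos _
      have h1 : ((univ.filter (fun v => gth P.B P.κf 0 < (d v : ℝ))).card : ℝ) * Real.exp P.B ≤
          P.K1 * N := by
        calc ((univ.filter (fun v => gth P.B P.κf 0 < (d v : ℝ))).card : ℝ) * Real.exp P.B
            = ∑ v ∈ univ.filter (fun v => gth P.B P.κf 0 < (d v : ℝ)), Real.exp P.B := by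
              rw [Finset.sum_const, nsmul_eq_mul]
          _ ≤ ∑ v ∈ univ.filter (fun v => gth P.B P.κf 0 < (d v : ℝ)), (d v : ℝ) := by
              apply Finset.sum_le_sum
              intro v hv
              have := (mem_filter.1 hv).2
              unfold gth at this
              rw [pow_zero, mul_one] at this
              exact this.le
          _ ≤ ∑ v, (d v : ℝ) := Finset.sum_le_univ_sum_of_nonneg (fun _ => Nat.cast_nonneg _)
          _ ≤ P.K1 * N := by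
              rw [hcard] at hmK1
              push_cast at hmK1
              exact hmK1
      have h2 := hP.Bδ
      rw [Real.exp_neg] at h2
      have h3 : P.K1 ≤ P.δ * Real.exp P.B := by
        rw [← div_eq_mul_inv, div_le_iff₀ hexp] at h2
        exact h2
      have h4 : ((univ.filter (fun v => gth P.B P.κf 0 < (d v : ℝ))).card : ℝ) * Real.exp P.B ≤
          (P.δ * N) * Real.exp P.B := by nlinarith
      exact le_of_mul_le_mul_right h4 hexp)
  refine le_trans hmain (ENNReal.ofReal_le_ofReal ?_)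
  apply div_le_div_of_nonneg_right _ hP.ε.le
  linarith

end Pool.Agent.H949.CM
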