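import Pool.Agent.H949.CM.MainB

/-!
# The general theorem: the colour with the smaller essential infimum wins
-/

set_option linter.unusedSectionVars false
set_option linter.unusedSimpArgs false
set_option linter.unusedVariables false

open MeasureTheory Finset ProbabilityTheory Filter Topology
open scoped ENNReal

namespace Pool.Agent.H949.CM

theorem tail_small (κ : Measure (ℝ × ℝ)) [IsProbabilityMeasure κ] {δ : ℝ} (hδ : 0 < δ) :
    ∃ W : ℝ, 0 ≤ W ∧ κ.real {q | W < q.1} ≤ δ := by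
  have h1 : Tendsto (κ ∘ fun n : ℕ => {q : ℝ × ℝ | (n : ℝ) < q.1}) atTop
      (𝓝 (κ (⋂ n : ℕ, {q : ℝ × ℝ | (n : ℝ) < q.1}))) := by
    apply tendsto_measure_iInter_atTop
    · intro n
      exact (measurableSet_lt measurable_const measurable_fst).nullMeasurableSet
    · intro a b hab q hq
      have hq' : (b : ℝ) < q.1 := hq
      have : (a : ℝ) ≤ b := by exact_mod_cast hab
      show (a : ℝ) < q.1
      linarith
    · exact ⟨0, measure_ne_top _ _⟩
  have h2 : (⋂ n : ℕ, {q : ℝ × ℝ | (n : ℝ) < q.1}) = ∅ := by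
    ext q
    simp only [Set.mem_iInter, Set.mem_empty_iff_false, iff_false, not_forall]
    obtain ⟨n, hn⟩ := exists_nat_gt q.1
    exact ⟨n, fun h => by
      have h' : (n : ℝ) < q.1 := h
      linarith⟩
  rw [h2, measure_empty] at h1
  have h3 := (ENNReal.tendsto_nhds_zero.1 h1) (ENNReal.ofReal δ) (by simpa using hδ)
  obtain ⟨n, hn⟩ := h3.exists
  refine ⟨n, Nat.cast_nonneg _, ?_⟩
  unfold Measure.real
  exact ENNReal.toReal_le_of_le_ofReal hδ.le hn

theorem exists_par {α y0 β c1 : ℝ} (hα0 : 0 < α) (hα1 : α < 1) (hy0 : 0 < y0) (hβ : y0 < β)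
    (hc1 : 0 < c1) (κ : Measure (ℝ × ℝ)) [IsProbabilityMeasure κ]
    (hκ1 : κ {q | q.1 < y0} = 0) (hκ2 : κ {q | q.2 < β} = 0)
    (hess : ∀ η > 0, 0 < κ {q | q.1 ≤ y0 + η}) {ε δ : ℝ} (hε : 0 < ε) (hδ : 0 < δ) :
    ∃ a' : ℝ, 0 < a' ∧ a' < α ∧ ∀ K1 : ℝ, 1 ≤ K1 → ∃ P : Par, P.Ok κ ∧ P.α = α ∧ P.a' = a' ∧
      P.K1 = K1 ∧ P.c3 ≤ c1 / 4 ∧ P.δ = δ ∧ P.ε = ε := by
  set l := Real.log (1 / α) with hl
  have hl0 : 0 < l := Real.log_pos (by rw [lt_div_iff₀ hα0]; linarith)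
  have hαl : α = Real.exp (-l) := by
    rw [hl, one_div, Real.log_inv, neg_neg, Real.exp_log hα0]
  set ε0 := min (1 / 6) ((β - y0) / (2 * (4 * y0 + 1))) with hε0def
  have hε0 : 0 < ε0 := lt_min (by norm_num) (div_pos (by linarith) (by linarith))
  have hε6 : ε0 ≤ 1 / 6 := min_le_left _ _
  have hεβ : (4 * y0 + 1) * ε0 ≤ (β - y0) / 2 := by
    have h1 : ε0 ≤ (β - y0) / (2 * (4 * y0 + 1)) := min_le_right _ _
    calc (4 * y0 + 1) * ε0 ≤ (4 * y0 + 1) * ((β - y0) / (2 * (4 * y0 + 1))) :=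
          mul_le_mul_of_nonneg_left h1 (by linarith)
      _ = (β - y0) / 2 := by
          have : 4 * y0 + 1 ≠ 0 := by linarith
          field_simp
  set a' := Real.exp (-((1 + ε0 / 2) * l)) with ha'
  have ha'0 : 0 < a' := Real.exp_pos _
  have ha'α : a' < α := by
    rw [hαl, ha']
    apply Real.exp_lt_exp.2
    nlinarith
  refine ⟨a', ha'0, ha'α, ?_⟩
  intro K1 hK1
  set κf := Real.exp ((1 + ε0) * l) with hκf
  have haκ : 1 < a' * κf := by
    rw [ha', hκf, ← Real.exp_add]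
    apply Real.one_lt_exp_iff.2
    nlinarith
  set κ' := Real.exp (l / (1 + ε0 / 2)) with hκ'def
  have hκ' : 1 < κ' := Real.one_lt_exp_iff.2 (by positivity)
  have hακ' : α * κ' < 1 := by
    rw [hαl, hκ'def, ← Real.exp_add]
    rw [Real.exp_lt_one_iff]
    have : l / (1 + ε0 / 2) < l := by
      rw [div_lt_iff₀ (by positivity)]
      nlinarith
    linarith
  set ρ0 : ℝ := (1 / 2 + 1 / (1 + α)) / 2 with hρ0
  have hα2 : 1 / 2 < 1 / (1 + α) := one_div_lt_one_div_of_lt (by linarith) (by linarith)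
  have hρ1 : 1 / 2 < ρ0 := by rw [hρ0]; linarith
  have hρ2 : ρ0 * (1 + α) < 1 := by
    have h1 : ρ0 < 1 / (1 + α) := by rw [hρ0]; linarith
    rwa [lt_div_iff₀ (by linarith)] at h1
  set B' : ℝ := 2 / (κ' - 1) with hB'def
  have hκ1' : 0 < κ' - 1 := by linarith
  have hB' : 0 < B' := by positivity
  have hB'' : κ' * B' = B' + 2 := by
    rw [hB'def]; field_simp; ring
  set η := ε0 / 8 with hη
  have hη0 : 0 < η := by positivity
  have hGm : MeasurableSet (Gd y0 η) := measurableSet_le measurable_fst measurable_const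
  set p := κ.real (Gd y0 η) with hp
  have hp0 : 0 < p := by
    rw [hp]
    exact ENNReal.toReal_pos (hess η hη0).ne' (measure_ne_top _ _)
  have hp1 : p ≤ 1 := measureReal_le_one
  have hpG : κ.real (Gd y0 η)ᶜ ≤ 1 - p := by
    rw [probReal_compl_eq_one_sub hGm]
  set c3 := min (c1 / 4) 1 with hc3def
  have hc3 : 0 < c3 := lt_min (by positivity) one_pos
  -- B
  have hBt : Tendsto (fun B : ℝ => K1 * Real.exp (-(B * (a' * κf - 1)))) atTop (𝓝 0) := by
    have h1 : Tendsto (fun B : ℝ => B * (a' * κf - 1)) atTop atTop :=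
      tendsto_id.atTop_mul_const (by linarith)
    have h2 := (Real.tendsto_exp_neg_atTop_nhds_zero.comp h1).const_mul K1
    simpa using h2
  have hBt2 : Tendsto (fun B : ℝ => K1 * Real.exp (-B)) atTop (𝓝 0) := by
    have h2 := Real.tendsto_exp_neg_atTop_nhds_zero.const_mul K1
    simpa using h2
  obtain ⟨B, hB0, hB1, hB2, hB3⟩ : ∃ B : ℝ, 0 ≤ B ∧
      K1 * Real.exp (-(B * (a' * κf - 1))) ≤ 1 / 2 ∧
      K1 * Real.exp (-(B * (a' * κf - 1))) ≤ δ / 4 ∧ K1 * Real.exp (-B) ≤ δ := by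
    have e1 := hBt.eventually (ge_mem_nhds (show (0 : ℝ) < 1 / 2 by norm_num))
    have e2 := hBt.eventually (ge_mem_nhds (show (0 : ℝ) < δ / 4 by positivity))
    have e3 := hBt2.eventually (ge_mem_nhds hδ)
    exact ((eventually_ge_atTop (0 : ℝ)).and (e1.and (e2.and e3))).exists
  -- K0
  obtain ⟨K0, hK0, hlev, hK0δ⟩ : ∃ K0 : ℝ, 8 ≤ K0 ∧
      (∀ z, K0 ≤ z → Real.exp (-(p * c3 / (32 * K1) * z ^ (1 - α * κ'))) +
        z * (z ^ κ') ^ (-B') ≤ z ^ (-B')) ∧ K0 ^ (-B') ≤ δ := by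
    have e1 := ev_level (c := p * c3 / (32 * K1)) (w := 1 - α * κ') (κ' := κ') (B' := B')
      (by positivity) (by linarith) hB''
    obtain ⟨z0, hz0⟩ := eventually_atTop.1 e1
    have e2 := (tendsto_rpow_neg_atTop hB').eventually (ge_mem_nhds hδ)
    obtain ⟨K0, h1, h2, h3⟩ := ((eventually_ge_atTop (8 : ℝ)).and
      ((eventually_ge_atTop z0).and e2)).exists
    exact ⟨K0, h1, fun z hz => hz0 z (le_trans h2 hz), h3⟩
  set g := c3 / (2 * K1) * K0 ^ (-α) with hg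
  have hg0 : 0 < g := by
    rw [hg]
    have : 0 < K0 ^ (-α) := Real.rpow_pos_of_pos (by linarith) _
    positivity
  have hg1 : g ≤ 1 := by
    have h1 : K0 ^ (-α) ≤ 1 := Real.rpow_le_one_of_one_le_of_nonpos (by linarith) (by linarith)
    have h2 : 0 < K0 ^ (-α) := Real.rpow_pos_of_pos (by linarith) _
    have h3 : c3 / (2 * K1) ≤ 1 := by
      rw [div_le_one (by positivity)]
      have : c3 ≤ 1 := min_le_right _ _
      linarith
    have h4 : 0 ≤ c3 / (2 * K1) := by positivity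
    rw [hg]
    nlinarith
  obtain ⟨M, hM⟩ := exists_pow_lt_of_lt_one hδ (show 1 - g < 1 by linarith)
  obtain ⟨W, hW0, hW⟩ := tail_small κ (δ := δ / (M + 1)) (by positivity)
  refine ⟨⟨α, y0, β, K1, c3, δ, ε, l, ε0, κf, a', κ', ρ0, B', η, p, B, K0, W, g, M⟩, ?_,
    rfl, rfl, rfl, min_le_left _ _, rfl, rfl⟩
  refine ⟨hα0, hα1, hy0, hβ, hK1, hc3, min_le_right _ _, hδ, hε, hl, hε0, hε6, hεβ, hκf, ha'0,
    ha'α, haκ, hκ', hακ', ?_, hρ1, hρ2, hB', hη, hp0, hp1, hpG, hκ1, hκ2, hB0, hB1, ?_, hB3, hK0,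
    hlev, hK0δ, hg, hM.le, hW0, ?_⟩
  · show Real.log κ' = l / (1 + ε0 / 2)
    rw [hκ'def, Real.log_exp]
  · show 4 * (K1 * Real.exp (-(B * (a' * κf - 1)))) ≤ δ
    linarith
  · show (M : ℝ) * κ.real {q | W < q.1} ≤ δ
    calc (M : ℝ) * κ.real {q | W < q.1} ≤ M * (δ / (M + 1)) :=
          mul_le_mul_of_nonneg_left hW (Nat.cast_nonneg _)
      _ = δ * (M / (M + 1)) := by ring
      _ ≤ δ * 1 := by
          apply mul_le_mul_of_nonneg_left _ hδ.le
          rw [div_le_one (by positivity)]; linarith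
      _ = δ := mul_one δ

theorem goodDeg_fix (P : Par) {n : ℕ} {J : ℕ} {d : Fin (n + 1) → ℕ} (h2 : ∀ v, 2 ≤ d v)
    (hs : 0 ≤ 1 + P.a')
    (hmom : ∑ v, ((d v : ℝ) + 1) ^ (1 + P.a') ≤ P.K1 * ((n : ℝ) + 1))
    (hlvl : ∀ j ≤ J, P.c3 * (((n : ℝ) + 1) *
      (zl P.K0 P.κ' (((n : ℝ) + 1) ^ P.ρ0) j) ^ (-(1 + P.α))) ≤
      (cnt ⌊zl P.K0 P.κ' (((n : ℝ) + 1) ^ P.ρ0) j⌋₊ d : ℝ)) :
    GoodDeg P J (fixParity d) := by
  refine ⟨fun v => le_trans (h2 v) (le_fixParity d v), ?_, ?_⟩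
  · refine le_trans (Finset.sum_le_sum (fun v _ => ?_)) hmom
    apply Real.rpow_le_rpow (Nat.cast_nonneg _) _ hs
    have := fixParity_le d v
    exact_mod_cast this
  · intro j hj
    refine le_trans (hlvl j hj) ?_
    have : cnt ⌊zl P.K0 P.κ' (((n : ℝ) + 1) ^ P.ρ0) j⌋₊ d ≤
        cnt ⌊zl P.K0 P.κ' (((n : ℝ) + 1) ^ P.ρ0) j⌋₊ (fixParity d) := by
      unfold cnt
      apply card_le_card
      intro v hv
      rw [mem_filter] at hv ⊢
      exact ⟨hv.1, le_trans hv.2 (le_fixParity d v)⟩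
    exact_mod_cast this

/-- The levels event for independent degrees. -/
theorem lvl_prob (μD : Measure ℕ) [IsProbabilityMeasure μD] {α c1 c3 K0 κ' X : ℝ}
    (hα : 0 < α) (hc1 : 0 < c1) (hc3 : c3 ≤ c1 / 4) (hK0 : 1 ≤ K0) (hκ' : 1 ≤ κ')
    (hX : K0 ≤ X)
    (hlow : ∀ x : ℝ, 1 ≤ x → ENNReal.ofReal (c1 * x ^ (-(1 + α))) ≤ μD {k | x < k})
    (n J : ℕ) :
    (Measure.pi fun _ : Fin (n + 1) => μD).real {d | ¬ ∀ j ≤ J, c3 * (((n : ℝ) + 1) *
      (zl K0 κ' X j) ^ (-(1 + α))) ≤ (cnt ⌊zl K0 κ' X j⌋₊ d : ℝ)} ≤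
      (J + 1) * Real.exp (-(c1 / 4 * (((n : ℝ) + 1) * X ^ (-(1 + α))))) := by
  set μ := (Measure.pi fun _ : Fin (n + 1) => μD) with hμ
  have hsub : {d : Fin (n + 1) → ℕ | ¬ ∀ j ≤ J, c3 * (((n : ℝ) + 1) *
      (zl K0 κ' X j) ^ (-(1 + α))) ≤ (cnt ⌊zl K0 κ' X j⌋₊ d : ℝ)} ⊆
      ⋃ j ∈ range (J + 1), {d | (cnt ⌊zl K0 κ' X j⌋₊ d : ℝ) ≤
        ((n + 1 : ℕ) : ℝ) * (c1 * (zl K0 κ' X j) ^ (-(1 + α))) / 4} := by
    intro d hd
    simp only [Set.mem_ofPred_eq, not_forall, not_le] at hd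
    obtain ⟨j, hj, hlt⟩ := hd
    rw [Set.mem_iUnion₂]
    refine ⟨j, mem_range.2 (by omega), ?_⟩
    show (cnt ⌊zl K0 κ' X j⌋₊ d : ℝ) ≤
        ((n + 1 : ℕ) : ℝ) * (c1 * (zl K0 κ' X j) ^ (-(1 + α))) / 4
    refine le_trans hlt.le ?_
    push_cast
    have hz : 0 < zl K0 κ' X j := lt_of_lt_of_le (by linarith) (zl_ge hK0 hκ' hX j)
    have h1 : 0 ≤ ((n : ℝ) + 1) * (zl K0 κ' X j) ^ (-(1 + α)) := by positivity
    have h2 := mul_le_mul_of_nonneg_right hc3 h1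
    linarith
  refine le_trans (measureReal_mono hsub (measure_ne_top _ _)) ?_
  refine le_trans (measureReal_biUnion_finset_le _ _) ?_
  calc ∑ j ∈ range (J + 1), μ.real {d | (cnt ⌊zl K0 κ' X j⌋₊ d : ℝ) ≤
        ((n + 1 : ℕ) : ℝ) * (c1 * (zl K0 κ' X j) ^ (-(1 + α))) / 4}
      ≤ ∑ j ∈ range (J + 1), Real.exp (-(c1 / 4 * (((n : ℝ) + 1) * X ^ (-(1 + α))))) := by
        apply Finset.sum_le_sum
        intro j _
        have hz1 : 1 ≤ zl K0 κ' X j := le_trans hK0 (zl_ge hK0 hκ' hX j)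
        have hz : 0 < zl K0 κ' X j := by linarith
        have hq : c1 * (zl K0 κ' X j) ^ (-(1 + α)) ≤ μD.real {i | ⌊zl K0 κ' X j⌋₊ ≤ i} := by
          have h1 := hlow (zl K0 κ' X j) hz1
          have h2 : μD {k : ℕ | zl K0 κ' X j < k} ≤ μD {i | ⌊zl K0 κ' X j⌋₊ ≤ i} := by
            apply measure_mono
            intro i hi
            have hi' : zl K0 κ' X j < i := hi
            show ⌊zl K0 κ' X j⌋₊ ≤ i
            have := Nat.floor_le hz.le
            exact_mod_cast (le_trans this hi'.le)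
          have h3 := le_trans h1 h2
          unfold Measure.real
          exact (ENNReal.ofReal_le_iff_le_toReal (measure_ne_top _ _)).1 h3
        refine le_trans (chernoff μD (n + 1) ⌊zl K0 κ' X j⌋₊ (by positivity) hq) ?_
        apply Real.exp_le_exp.2
        push_cast
        have h4 : X ^ (-(1 + α)) ≤ (zl K0 κ' X j) ^ (-(1 + α)) :=
          Real.rpow_le_rpow_of_nonpos hz (zl_le j) (by linarith)
        have h5 : ((n : ℝ) + 1) * X ^ (-(1 + α)) ≤ ((n : ℝ) + 1) * (zl K0 κ' X j) ^ (-(1 + α)) :=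
          mul_le_mul_of_nonneg_left h4 (by positivity)
        have h6 := mul_le_mul_of_nonneg_left h5 (show 0 ≤ c1 / 4 by positivity)
        linarith
    _ = (J + 1) * Real.exp (-(c1 / 4 * (((n : ℝ) + 1) * X ^ (-(1 + α))))) := by
        rw [Finset.sum_const, card_range, nsmul_eq_mul]
        push_cast; rfl

/-- **General theorem.** If the smallest possible red length is `y0 > 0` and the blue lengths are
at least `β > y0`, then red paints all but a vanishing fraction of the vertices. -/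
theorem main_general (μD : Measure ℕ) [IsProbabilityMeasure μD] {α c1 C1 y0 β : ℝ}
    (hα0 : 0 < α) (hα1 : α < 1) (hc1 : 0 < c1) (hC1 : 0 ≤ C1) (hD2 : μD {k | k < 2} = 0)
    (hlow : ∀ x : ℝ, 1 ≤ x → ENNReal.ofReal (c1 * x ^ (-(1 + α))) ≤ μD {k | x < k})
    (hup : ∀ x : ℝ, 1 ≤ x → μD {k | x < k} ≤ ENNReal.ofReal (C1 * x ^ (-(1 + α))))
    (κ : Measure (ℝ × ℝ)) [IsProbabilityMeasure κ] (hy0 : 0 < y0) (hβ : y0 < β)
    (hκ1 : κ {q | q.1 < y0} = 0) (hκ2 : κ {q | q.2 < β} = 0)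
    (hess : ∀ η > 0, 0 < κ {q | q.1 ≤ y0 + η}) {ε : ℝ} (hε : 0 < ε) :
    Tendsto (fun n : ℕ => ∫⁻ d, cmLaw κ (fixParity d) (fewRed (fixParity d) ε)
      ∂(Measure.pi fun _ : Fin (n + 1) => μD)) atTop (𝓝 0) := by
  rw [ENNReal.tendsto_nhds_zero]
  intro δ' hδ'
  obtain ⟨δ1, hδ1, hδ1'⟩ : ∃ δ1 : ℝ, 0 < δ1 ∧ ENNReal.ofReal δ1 ≤ δ' := by
    refine ⟨(min δ' 1).toReal, ENNReal.toReal_pos ?_ ?_, ?_⟩
    · exact (lt_min hδ' (by norm_num)).ne'
    · exact ne_top_of_le_ne_top ENNReal.one_ne_top (min_le_right _ _)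
    · rw [ENNReal.ofReal_toReal (ne_top_of_le_ne_top ENNReal.one_ne_top (min_le_right _ _))]
      exact min_le_left _ _
  set δ : ℝ := δ1 / (19 / ε + 2) with hδdef
  have hδ : 0 < δ := by positivity
  obtain ⟨a', ha'0, ha'α, hpar⟩ := exists_par hα0 hα1 hy0 hβ hc1 κ hκ1 hκ2 hess hε hδ
  -- moment
  have hmom := moment_finite μD hC1 (s := 1 + a') (γ := 1 + α) (by linarith) (by linarith) hup
  set ms := ∫⁻ k, ENNReal.ofReal (((k : ℝ) + 1) ^ (1 + a')) ∂μD with hms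
  set K1 : ℝ := max 1 (ms.toReal / δ) with hK1
  obtain ⟨P, hP, hPα, hPa', hPK1, hPc3, hPδ, hPε⟩ := hpar K1 (le_max_left _ _)
  have hNt : Tendsto (fun n : ℕ => (n : ℝ) + 1) atTop atTop :=
    tendsto_natCast_atTop_atTop.atTop_add tendsto_const_nhds
  have ev0 := quenched_good P κ hP
  have ev1 := hNt.eventually (near_ev (W := P.W) (η := P.η) hP.α0 hP.α1 hP.l hP.ρ1 hP.ρ2 hP.κ'
    hP.ε0 hP.ε6 hP.κl hP.K0 hP.K1 hP.c3 hP.p0 hP.η hP.δ P.M)
  have ev2 := hNt.eventually (ev_sq_mul_exp_neg (c := c1 / 4) (r := 1 - P.ρ0 * (1 + P.α))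
    (by positivity) (by linarith [hP.ρ2]) hδ)
  filter_upwards [ev0, ev1, ev2] with n h0 h1 h2
  set N : ℝ := (n : ℝ) + 1 with hN
  obtain ⟨J, hJ1, hJ2⟩ := exists_level (K0 := P.K0) (κ' := P.κ') (X := N ^ P.ρ0)
    (by linarith [hP.K0]) hP.κ'
  obtain ⟨c1', c2, c3, c4, c5, c6, c7, c8, c9, c10, c11, c12, c13⟩ := h1 J hJ2
  have hgood := h0 J hJ2 hJ1
  set μ := (Measure.pi fun _ : Fin (n + 1) => μD) with hμ
  have hN0 : 0 < N := by linarith
  -- bad sets
  set b1 : Set (Fin (n + 1) → ℕ) := {d | ¬ ∀ v, 2 ≤ d v} with hb1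
  set b2 : Set (Fin (n + 1) → ℕ) := {d | ENNReal.ofReal (K1 * N) ≤
    ∑ v, ENNReal.ofReal (((d v : ℝ) + 1) ^ (1 + a'))} with hb2
  set b3 : Set (Fin (n + 1) → ℕ) := {d | ¬ ∀ j ≤ J, P.c3 * (((n : ℝ) + 1) *
      (zl P.K0 P.κ' (N ^ P.ρ0) j) ^ (-(1 + P.α))) ≤
      (cnt ⌊zl P.K0 P.κ' (N ^ P.ρ0) j⌋₊ d : ℝ)} with hb3
  have hb1m : μ b1 = 0 := by
    have hsub : b1 ⊆ ⋃ v, (Function.eval v) ⁻¹' {k : ℕ | k < 2} := by
      intro d hd
      simp only [hb1, Set.mem_ofPred_eq, not_forall, not_le] at hd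
      obtain ⟨v, hv⟩ := hd
      exact Set.mem_iUnion.2 ⟨v, hv⟩
    refine measure_mono_null hsub ((measure_iUnion_null_iff).2 (fun v => ?_))
    rw [(measurePreserving_eval (fun _ : Fin (n + 1) => μD) v).measure_preimage
      (MeasurableSet.of_discrete).nullMeasurableSet]
    exact hD2
  have hK1pos : 0 < K1 := lt_of_lt_of_le one_pos (le_max_left _ _)
  have hb2m : μ b2 ≤ ENNReal.ofReal δ := by
    have h3 := markov_sum μD (n + 1) (fun k => ENNReal.ofReal (((k : ℝ) + 1) ^ (1 + a')))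
      (ENNReal.ofReal (K1 * N)) (by simp; positivity) ENNReal.ofReal_ne_top
    refine le_trans h3 ?_
    rw [← hms]
    have e1 : ms = ENNReal.ofReal ms.toReal := (ENNReal.ofReal_toReal hmom.ne).symm
    have e2 : ((n + 1 : ℕ) : ℝ≥0∞) = ENNReal.ofReal N := by
      rw [hN, ← ENNReal.ofReal_natCast]; push_cast; rfl
    rw [e1, e2, ← ENNReal.ofReal_mul hN0.le, ← ENNReal.ofReal_div_of_pos (by positivity)]
    apply ENNReal.ofReal_le_ofReal
    rw [div_le_iff₀ (by positivity)]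
    have e3 : ms.toReal ≤ δ * K1 := by
      have : ms.toReal / δ ≤ K1 := le_max_right _ _
      rw [div_le_iff₀ hδ] at this
      linarith
    nlinarith
  have hb3m : μ b3 ≤ ENNReal.ofReal δ := by
    have h3 := lvl_prob μD hP.α0 hc1 hPc3 (by linarith [hP.K0]) hP.κ'.le c2
      (by rw [hPα]; exact hlow) n J
    have h4 : μ.real b3 ≤ δ := by
      refine le_trans h3 ?_
      have e1 : N * (N ^ P.ρ0) ^ (-(1 + P.α)) = N ^ (1 - P.ρ0 * (1 + P.α)) := by
        rw [← Real.rpow_mul hN0.le]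
        nth_rewrite 1 [← Real.rpow_one N]
        rw [← Real.rpow_add hN0]
        congr 1; ring
      rw [e1] at c5 ⊢
      have e2 : N ^ (1 - P.ρ0 * (1 + P.α)) ≤ N := by
        calc N ^ (1 - P.ρ0 * (1 + P.α)) ≤ N ^ (1 : ℝ) := by
              apply Real.rpow_le_rpow_of_exponent_le c1'
              have h5 := hP.ρ1
              have h6 := hP.α0
              nlinarith
          _ = N := Real.rpow_one N
      have e3 : (J : ℝ) + 1 ≤ N ^ 2 := by
        have f1 : (0 : ℝ) ≤ P.M := Nat.cast_nonneg _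
        have f2 : P.c3 / 4 * N ^ (1 - P.ρ0 * (1 + P.α)) ≤ N := by
          have f3 := hP.c3'
          have f4 : 0 ≤ N ^ (1 - P.ρ0 * (1 + P.α)) := by positivity
          nlinarith
        nlinarith
      refine le_trans ?_ h2
      exact mul_le_mul_of_nonneg_right e3 (Real.exp_pos _).le
    calc μ b3 = ENNReal.ofReal (μ.real b3) := (ofReal_measureReal).symm
      _ ≤ ENNReal.ofReal δ := ENNReal.ofReal_le_ofReal h4
  have hpt : ∀ d : Fin (n + 1) → ℕ, cmLaw κ (fixParity d) (fewRed (fixParity d) ε) ≤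
      (b1 ∪ (b2 ∪ b3)).indicator (fun _ => (1 : ℝ≥0∞)) d + ENNReal.ofReal (19 * δ / ε) := by
    intro d
    by_cases hd : d ∈ b1 ∪ (b2 ∪ b3)
    · rw [Set.indicator_of_mem hd]
      exact le_trans (cmLaw_le_one κ _ _) le_self_add
    · rw [Set.indicator_of_notMem hd, zero_add]
      rw [Set.mem_union, Set.mem_union, not_or, not_or] at hd
      obtain ⟨g1, g2, g3⟩ := hd
      have g1' : ∀ v, 2 ≤ d v := not_not.1 g1
      have g3' := not_not.1 g3
      have g2' : ∑ v, ((d v : ℝ) + 1) ^ (1 + P.a') ≤ P.K1 * ((n : ℝ) + 1) := by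
        rw [hPa', hPK1]
        have : ∑ v, ENNReal.ofReal (((d v : ℝ) + 1) ^ (1 + a')) < ENNReal.ofReal (K1 * N) :=
          not_le.1 g2
        rw [← ENNReal.ofReal_sum_of_nonneg (fun _ _ => by positivity)] at this
        exact ((ENNReal.ofReal_lt_ofReal_iff (by positivity)).1 this).le
      have hG := goodDeg_fix P (J := J) g1' (by linarith [hP.a0]) g2' g3'
      have := hgood (fixParity d) hG
      rw [hPδ, hPε] at this
      exact this
  have hcm : MeasurableSet (b1 ∪ (b2 ∪ b3)) := (Set.to_countable _).measurableSet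
  calc ∫⁻ d, cmLaw κ (fixParity d) (fewRed (fixParity d) ε) ∂μ
      ≤ ∫⁻ d, ((b1 ∪ (b2 ∪ b3)).indicator (fun _ => (1 : ℝ≥0∞)) d +
          ENNReal.ofReal (19 * δ / ε)) ∂μ := lintegral_mono hpt
    _ = μ (b1 ∪ (b2 ∪ b3)) + ENNReal.ofReal (19 * δ / ε) := by
        rw [lintegral_add_right _ measurable_const, lintegral_indicator hcm]
        simp
    _ ≤ (0 + (ENNReal.ofReal δ + ENNReal.ofReal δ)) + ENNReal.ofReal (19 * δ / ε) := by
        gcongr
        refine le_trans (measure_union_le _ _) ?_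
        rw [hb1m]
        gcongr
        refine le_trans (measure_union_le _ _) ?_
        gcongr
    _ = ENNReal.ofReal δ1 := by
        rw [zero_add, ← ENNReal.ofReal_add hδ.le hδ.le, ← ENNReal.ofReal_add (by positivity)
          (by positivity)]
        congr 1
        rw [hδdef]
        field_simp
        ring
    _ ≤ δ' := hδ1'

end Pool.Agent.H949.CM
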