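import Mathlib

/-!
# Uniform matchings of half-edges

Perfect matchings of a finite set `H` of half-edges are the involutions of `H` without fixed point.
This file has the counting facts used throughout: the number of matchings that extend a given
partial matching, and the revealing rule.
-/

set_option linter.unusedSectionVars false

open Finset

namespace Pool.Agent.H949.CM

/-- Perfect matchings of `H`, seen as involutions without fixed point. -/
def Mt (H : Type*) : Type _ := {σ : H → H // ∀ h, σ (σ h) = h ∧ σ h ≠ h}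

instance (H : Type*) : CoeFun (Mt H) (fun _ => H → H) := ⟨fun σ => σ.1⟩

instance (H : Type*) [Fintype H] [DecidableEq H] : Fintype (Mt H) :=
  inferInstanceAs (Fintype {σ : H → H // ∀ h, σ (σ h) = h ∧ σ h ≠ h})

instance (H : Type*) [Fintype H] [DecidableEq H] : DecidableEq (Mt H) :=
  inferInstanceAs (DecidableEq {σ : H → H // ∀ h, σ (σ h) = h ∧ σ h ≠ h})

/-- Every set of matchings is measurable. -/
instance (H : Type*) : MeasurableSpace (Mt H) := ⊤

instance (H : Type*) : MeasurableSingletonClass (Mt H) := ⟨fun _ => trivial⟩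

variable {H : Type*} [Fintype H] [DecidableEq H]

theorem Mt.invol (σ : Mt H) (h : H) : σ (σ h) = h := (σ.2 h).1

theorem Mt.ne (σ : Mt H) (h : H) : σ h ≠ h := (σ.2 h).2

theorem Mt.ext' {σ τ : Mt H} (h : ∀ x, σ x = τ x) : σ = τ := Subtype.ext (funext h)

/-- The endpoints of a list of pairs. -/
def dom (l : List (H × H)) : Finset H :=
  (l.map Prod.fst).toFinset ∪ (l.map Prod.snd).toFinset

/-- The matchings that contain all pairs of the list. -/
def Al (l : List (H × H)) : Finset (Mt H) :=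
  univ.filter (fun σ : Mt H => ∀ p ∈ l, σ p.1 = p.2)

/-- The half-edges that can be matched to `h` when the pairs of `l` are present. -/
def fr (l : List (H × H)) (h : H) : Finset H := (dom l)ᶜ.erase h

theorem mem_dom {l : List (H × H)} {x : H} :
    x ∈ dom l ↔ ∃ p ∈ l, x = p.1 ∨ x = p.2 := by
  unfold dom
  simp only [mem_union, List.mem_toFinset, List.mem_map]
  constructor
  · rintro (⟨p, hp, rfl⟩ | ⟨p, hp, rfl⟩)
    · exact ⟨p, hp, Or.inl rfl⟩
    · exact ⟨p, hp, Or.inr rfl⟩
  · rintro ⟨p, hp, rfl | rfl⟩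
    · exact Or.inl ⟨p, hp, rfl⟩
    · exact Or.inr ⟨p, hp, rfl⟩

@[simp] theorem dom_nil : dom ([] : List (H × H)) = ∅ := by
  ext x; simp [mem_dom]

theorem dom_cons (a b : H) (l : List (H × H)) :
    dom ((a, b) :: l) = insert a (insert b (dom l)) := by
  ext x
  simp only [mem_dom, List.mem_cons, mem_insert]
  constructor
  · rintro ⟨p, hp | hp, h⟩
    · subst hp
      rcases h with h | h
      · exact Or.inl h
      · exact Or.inr (Or.inl h)
    · exact Or.inr (Or.inr ⟨p, hp, h⟩)
  · rintro (h | h | ⟨p, hp, h⟩)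
    · exact ⟨(a, b), Or.inl rfl, Or.inl h⟩
    · exact ⟨(a, b), Or.inl rfl, Or.inr h⟩
    · exact ⟨p, Or.inr hp, h⟩

theorem card_dom_cons_le (a b : H) (l : List (H × H)) :
    (dom ((a, b) :: l)).card ≤ (dom l).card + 2 := by
  rw [dom_cons]
  calc (insert a (insert b (dom l))).card ≤ (insert b (dom l)).card + 1 := card_insert_le _ _
    _ ≤ (dom l).card + 1 + 1 := by
        have := card_insert_le b (dom l)
        omega

theorem mem_Al {l : List (H × H)} {σ : Mt H} : σ ∈ Al l ↔ ∀ p ∈ l, σ p.1 = p.2 := by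
  simp [Al]

@[simp] theorem Al_nil : Al ([] : List (H × H)) = univ := by
  ext σ; simp [mem_Al]

theorem mem_Al_cons {a b : H} {l : List (H × H)} {σ : Mt H} :
    σ ∈ Al ((a, b) :: l) ↔ σ a = b ∧ σ ∈ Al l := by
  simp [mem_Al]

theorem mem_fr {l : List (H × H)} {h x : H} : x ∈ fr l h ↔ x ≠ h ∧ x ∉ dom l := by
  simp [fr]

theorem dom_closed {l : List (H × H)} {σ : Mt H} (hσ : σ ∈ Al l) {x : H} (hx : x ∈ dom l) :
    σ x ∈ dom l := by
  obtain ⟨p, hp, h⟩ := mem_dom.1 hx
  have h1 := mem_Al.1 hσ p hp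
  rcases h with rfl | rfl
  · exact mem_dom.2 ⟨p, hp, Or.inr h1⟩
  · refine mem_dom.2 ⟨p, hp, Or.inl ?_⟩
    rw [← h1, Mt.invol]

theorem notMem_dom_apply {l : List (H × H)} {σ : Mt H} (hσ : σ ∈ Al l) {x : H}
    (hx : x ∉ dom l) : σ x ∉ dom l := by
  intro h
  apply hx
  have := dom_closed hσ h
  rwa [Mt.invol] at this

theorem apply_mem_fr {l : List (H × H)} {σ : Mt H} (hσ : σ ∈ Al l) {x : H}
    (hx : x ∉ dom l) : σ x ∈ fr l x :=
  mem_fr.2 ⟨σ.ne x, notMem_dom_apply hσ hx⟩

/-- Conjugation by a transposition. -/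
def conjSwap (a b : H) (σ : Mt H) : Mt H :=
  ⟨fun h => Equiv.swap a b (σ (Equiv.swap a b h)), fun h => by
    constructor
    · simp [Mt.invol]
    · intro h1
      have h2 : σ (Equiv.swap a b h) = Equiv.swap a b h := by
        have := congrArg (Equiv.swap a b) h1
        simpa using this
      exact σ.ne _ h2⟩

theorem conjSwap_apply (a b : H) (σ : Mt H) (h : H) :
    conjSwap a b σ h = Equiv.swap a b (σ (Equiv.swap a b h)) := rfl

theorem conjSwap_conjSwap (a b : H) (σ : Mt H) : conjSwap a b (conjSwap a b σ) = σ := by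
  apply Mt.ext'
  intro x
  simp [conjSwap_apply]

theorem card_Al_cons_le {l : List (H × H)} {h a b : H}
    (ha : a ∈ fr l h) (hb : b ∈ fr l h) :
    (Al ((h, a) :: l)).card ≤ (Al ((h, b) :: l)).card := by
  apply Finset.card_le_card_of_injOn (conjSwap a b)
  · intro σ hσ
    have hσ' : σ ∈ Al ((h, a) :: l) := hσ
    rw [mem_Al_cons] at hσ'
    obtain ⟨h1, h2⟩ := hσ'
    rw [mem_fr] at ha hb
    have : conjSwap a b σ ∈ Al ((h, b) :: l) := by
      rw [mem_Al_cons]
      constructor
      · rw [conjSwap_apply, Equiv.swap_apply_of_ne_of_ne (Ne.symm ha.1) (Ne.symm hb.1), h1,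
          Equiv.swap_apply_left]
      · rw [mem_Al]
        intro p hp
        have hp1 : p.1 ∈ dom l := mem_dom.2 ⟨p, hp, Or.inl rfl⟩
        have hp2 : p.2 ∈ dom l := mem_dom.2 ⟨p, hp, Or.inr rfl⟩
        have e1 : p.1 ≠ a := fun e => ha.2 (e ▸ hp1)
        have e2 : p.1 ≠ b := fun e => hb.2 (e ▸ hp1)
        have e3 : p.2 ≠ a := fun e => ha.2 (e ▸ hp2)
        have e4 : p.2 ≠ b := fun e => hb.2 (e ▸ hp2)
        rw [conjSwap_apply, Equiv.swap_apply_of_ne_of_ne e1 e2, mem_Al.1 h2 p hp,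
          Equiv.swap_apply_of_ne_of_ne e3 e4]
    exact this
  · intro σ _ τ _ hst
    have := congrArg (conjSwap a b) hst
    rwa [conjSwap_conjSwap, conjSwap_conjSwap] at this

theorem card_Al_cons_eq {l : List (H × H)} {h a b : H}
    (ha : a ∈ fr l h) (hb : b ∈ fr l h) :
    (Al ((h, a) :: l)).card = (Al ((h, b) :: l)).card :=
  le_antisymm (card_Al_cons_le ha hb) (card_Al_cons_le hb ha)

/-- The revealing rule: reveal the partner of a free half-edge. -/
theorem reveal_sum {M : Type*} [AddCommMonoid M] {l : List (H × H)} {h : H} (hh : h ∉ dom l)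
    (F : H → Mt H → M) :
    ∑ σ ∈ Al l, F (σ h) σ = ∑ x ∈ fr l h, ∑ σ ∈ Al ((h, x) :: l), F x σ := by
  classical
  have h1 : ∀ σ ∈ Al l, σ h ∈ fr l h := fun σ hσ => apply_mem_fr hσ hh
  rw [← Finset.sum_fiberwise_of_maps_to h1]
  apply Finset.sum_congr rfl
  intro x _
  have h2 : (Al l).filter (fun σ => σ h = x) = Al ((h, x) :: l) := by
    ext σ
    rw [mem_filter, mem_Al_cons]
    tauto
  rw [h2]
  apply Finset.sum_congr rfl
  intro σ hσ
  rw [(mem_Al_cons.1 hσ).1]

theorem ratio {l : List (H × H)} {h x : H} (hh : h ∉ dom l) (hx : x ∈ fr l h) :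
    (fr l h).card * (Al ((h, x) :: l)).card = (Al l).card := by
  have h1 := reveal_sum hh (fun _ _ => (1 : ℕ))
  simp only [sum_const, smul_eq_mul, mul_one] at h1
  rw [h1]
  rw [Finset.sum_congr rfl (fun y hy => card_Al_cons_eq hy hx)]
  simp

theorem card_fr {l : List (H × H)} {h : H} (hh : h ∉ dom l) :
    (fr l h).card + (dom l).card + 1 = Fintype.card H := by
  unfold fr
  have h1 : h ∈ (dom l)ᶜ := by simpa using hh
  have h2 := card_erase_add_one h1
  have h3 := card_compl_add_card (dom l)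
  omega

/-- The revealing rule with bounds. -/
theorem reveal_le {l : List (H × H)} {h : H} (hh : h ∉ dom l)
    (F : H → Mt H → ℝ) (b : H → ℝ)
    (hF : ∀ x ∈ fr l h, ∑ σ ∈ Al ((h, x) :: l), F x σ ≤ (Al ((h, x) :: l)).card * b x) :
    ∑ σ ∈ Al l, F (σ h) σ ≤ (Al l).card * ((∑ x ∈ fr l h, b x) / (fr l h).card) := by
  rw [reveal_sum hh F]
  rcases Finset.eq_empty_or_nonempty (fr l h) with h0 | h0
  · rw [h0]; simp
  have hpos : (0 : ℝ) < (fr l h).card := by exact_mod_cast Finset.card_pos.2 h0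
  calc ∑ x ∈ fr l h, ∑ σ ∈ Al ((h, x) :: l), F x σ
      ≤ ∑ x ∈ fr l h, ((Al ((h, x) :: l)).card : ℝ) * b x := Finset.sum_le_sum hF
    _ = ∑ x ∈ fr l h, ((Al l).card : ℝ) / (fr l h).card * b x := by
        apply Finset.sum_congr rfl
        intro x hx
        congr 1
        rw [eq_div_iff hpos.ne']
        have := ratio hh hx
        have h3 : ((fr l h).card : ℝ) * (Al ((h, x) :: l)).card = (Al l).card := by
          exact_mod_cast this
        linarith
    _ = (Al l).card * ((∑ x ∈ fr l h, b x) / (fr l h).card) := by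
        rw [← Finset.mul_sum]; ring

/-- Weighted version for one pair of half-edges. -/
theorem card_Al_cons_real {l : List (H × H)} {h x : H} (hh : h ∉ dom l) (hx : x ∈ fr l h) :
    ((Al ((h, x) :: l)).card : ℝ) = (Al l).card / (fr l h).card := by
  have hpos : (0 : ℝ) < (fr l h).card := by exact_mod_cast Finset.card_pos.2 ⟨x, hx⟩
  rw [eq_div_iff hpos.ne']
  have h3 : ((fr l h).card : ℝ) * (Al ((h, x) :: l)).card = (Al l).card := by
    exact_mod_cast ratio hh hx
  linarith

end Pool.Agent.H949.CM
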