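import Pool.Agent.H949.CM.Near2
import Pool.Agent.H949.CM.Dyn

/-!
# A short cheap red walk between two vertices
-/

set_option linter.unusedSectionVars false
set_option linter.unusedSimpArgs false

open Finset MeasureTheory

namespace Pool.Agent.H949.CM

variable {V H : Type*} [Fintype V] [DecidableEq V] [Fintype H] [DecidableEq H]

/-- The good weights: red length at most `y0 + η`. -/
def Gd (y0 η : ℝ) : Set (ℝ × ℝ) := {p | p.1 ≤ y0 + η}

theorem cl_walk {vert : H → V} {idx : H → ℕ} {kn : ℕ → ℕ} {y0 η : ℝ} (hη : 0 ≤ η) {σ : Mt H}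
    {ω : Sym2 H → ℝ × ℝ} : ∀ (r j : ℕ) (U : Finset V) (x : V),
      Cl vert idx kn (Gd y0 η) σ ω r j U x → kn j ≤ deg vert x →
      ∃ z, kn (j + r) ≤ deg vert z ∧ XW vert σ (fun e => (ω e).1) y0 r (r * η) x z := by
  intro r
  induction r with
  | zero => intro j U x _ hx; exact ⟨x, hx, rfl, by simp⟩
  | succ r ih =>
    intro j U x h hx
    obtain ⟨g, h1, _, _, _, h5, h6, h7⟩ := h
    obtain ⟨z, hz1, hz2⟩ := ih (j + 1) _ _ h7 h5
    refine ⟨z, ?_, g, h1, hz2.mono ?_⟩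
    · have : j + (r + 1) = j + 1 + r := by ring
      rw [this]; exact hz1
    · have : (ω s(g, σ g)).1 ≤ y0 + η := h6
      push_cast
      linarith

/-- The canonical path of half-edges. -/
def ch (nx : H → H) (σ : Mt H) (h : H) : ℕ → H
  | 0 => h
  | (i + 1) => nx (σ (ch nx σ h i))

theorem ch_shift (nx : H → H) (σ : Mt H) (h : H) (i : ℕ) :
    ch nx σ h (i + 1) = ch nx σ (nx (σ h)) i := by
  induction i with
  | zero => rfl
  | succ i ih =>
    have : ch nx σ h (i + 1 + 1) = nx (σ (ch nx σ h (i + 1))) := rfl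
    rw [this, ih]
    rfl

theorem st_walk {vert : H → V} {idx : H → ℕ} {nx : H → H} (hnx2 : ∀ h, vert (nx h) = vert h)
    {kn : ℕ → ℕ} {y0 η W : ℝ} (hη : 0 ≤ η) (hy0 : 0 ≤ y0) (hW : 0 ≤ W) {J : ℕ} {σ : Mt H}
    {ω : Sym2 H → ℝ × ℝ} : ∀ (M : ℕ) (U : Finset V) (h : H),
      St vert idx nx kn (Gd y0 η) J σ ω M U h →
      (∀ i < M, (ω s(ch nx σ h i, σ (ch nx σ h i))).1 ≤ W) →
      ∃ z, kn J ≤ deg vert z ∧ ∃ k ≤ M + J,
        XW vert σ (fun e => (ω e).1) y0 k (M * W + J * η) (vert h) z := by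
  intro M
  induction M with
  | zero => intro U h hst _; exact absurd hst (by simp [St])
  | succ M ih =>
    intro U h hst hW'
    obtain ⟨_, hst⟩ := hst
    have hw0 : (ω s(h, σ h)).1 ≤ W := hW' 0 (by omega)
    rcases hst with ⟨h1, h2⟩ | ⟨_, h2⟩
    · obtain ⟨z, hz1, hz2⟩ := cl_walk hη J 0 _ _ h2 h1
      rw [zero_add] at hz1
      refine ⟨z, hz1, J + 1, by omega, h, rfl, hz2.mono ?_⟩
      have h3 : 0 ≤ (M : ℝ) * W := by positivity
      push_cast
      linarith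
    · obtain ⟨z, hz1, k, hk, hz2⟩ := ih _ _ h2 (by
        intro i hi
        rw [← ch_shift]
        exact hW' (i + 1) (by omega))
      rw [hnx2] at hz2
      refine ⟨z, hz1, k + 1, by omega, h, rfl, hz2.mono ?_⟩
      push_cast
      linarith

theorem up_walk {vert : H → V} {idx : H → ℕ} {nx : H → H} (hnx2 : ∀ h, vert (nx h) = vert h)
    {kn : ℕ → ℕ} {y0 η W : ℝ} (hη : 0 ≤ η) (hy0 : 0 ≤ y0) (hW : 0 ≤ W) {J : ℕ} {σ : Mt H}
    {ω : Sym2 H → ℝ × ℝ} {M : ℕ} {h : H}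
    (hup : Up vert idx nx kn (Gd y0 η) J M σ ω h)
    (hWW : ∀ i < M, (ω s(ch nx σ h i, σ (ch nx σ h i))).1 ≤ W) :
      ∃ z, kn J ≤ deg vert z ∧ ∃ k ≤ M + J,
        XW vert σ (fun e => (ω e).1) y0 k (M * W + J * η) (vert h) z := by
  rcases hup with ⟨h1, h2⟩ | ⟨_, h2⟩
  · obtain ⟨z, hz1, hz2⟩ := cl_walk hη J 0 _ _ h2 h1
    rw [zero_add] at hz1
    refine ⟨z, hz1, J, by omega, hz2.mono ?_⟩
    have h3 : 0 ≤ (M : ℝ) * W := by positivity
    linarith
  · exact st_walk hnx2 hη hy0 hW M _ _ h2 hWW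

/-- A short red walk with small excess. -/
def NearP (vert : H → V) (σ : Mt H) (ω : Sym2 H → ℝ × ℝ) (y0 : ℝ) (L : ℕ) (C : ℝ) (u v : V) :
    Prop := ∃ k ≤ L, XW vert σ (fun e => (ω e).1) y0 k C u v

theorem near_det {vert : H → V} {idx : H → ℕ} {nx : H → H} (hnx2 : ∀ h, vert (nx h) = vert h)
    {kn : ℕ → ℕ} {y0 η W : ℝ} (hη : 0 ≤ η) (hy0 : 0 ≤ y0) (hW : 0 ≤ W) {J : ℕ} {σ : Mt H}
    {ω : Sym2 H → ℝ × ℝ} {M : ℕ} {h g : H}
    (hup1 : Up vert idx nx kn (Gd y0 η) J M σ ω h)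
    (hup2 : Up vert idx nx kn (Gd y0 η) J M σ ω g)
    (hW1 : ∀ i < M, (ω s(ch nx σ h i, σ (ch nx σ h i))).1 ≤ W)
    (hW2 : ∀ i < M, (ω s(ch nx σ g i, σ (ch nx σ g i))).1 ≤ W)
    (htop : ∀ x z : V, x ≠ z → kn J ≤ deg vert x → kn J ≤ deg vert z →
      ∃ h, vert h = x ∧ vert (σ h) = z ∧ ω s(h, σ h) ∈ Gd y0 η) :
    NearP vert σ ω y0 (2 * (M + J) + 1) (2 * (M * W + J * η) + η) (vert h) (vert g) := by
  obtain ⟨x, hx, k1, hk1, hw1⟩ := up_walk hnx2 hη hy0 hW hup1 hW1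
  obtain ⟨z, hz, k2, hk2, hw2⟩ := up_walk hnx2 hη hy0 hW hup2 hW2
  by_cases hxz : x = z
  · subst hxz
    exact ⟨k1 + k2, by omega, (hw1.trans hw2.symm).mono (by linarith)⟩
  · obtain ⟨f, h1, h2, h3⟩ := htop x z hxz hx hz
    have h4 : XW vert σ (fun e => (ω e).1) y0 1 η x z := by
      refine ⟨f, h1, h2, ?_⟩
      have : (ω s(f, σ f)).1 ≤ y0 + η := h3
      linarith
    exact ⟨k1 + (1 + k2), by omega, (hw1.trans (h4.trans hw2.symm)).mono (by linarith)⟩

theorem pi_eval_real (κ : Measure (ℝ × ℝ)) [IsProbabilityMeasure κ] (e : Sym2 H) (W : ℝ) :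
    (Measure.pi fun _ : Sym2 H => κ).real {ω | ¬ (ω e).1 ≤ W} = κ.real {p | W < p.1} := by
  have h1 := measurePreserving_eval (fun _ : Sym2 H => κ) e
  have h2 : MeasurableSet {p : ℝ × ℝ | W < p.1} := measurableSet_lt measurable_const measurable_fst
  have h3 := h1.measure_preimage h2.nullMeasurableSet
  unfold Measure.real
  rw [← h3]
  congr 2
  ext ω
  simp [Function.eval]

/-- Quenched bound for the absence of a short cheap red walk. -/
theorem near_quenched (vert : H → V) (idx : H → ℕ) (nx : H → H)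
    (hidx : ∀ v k, k ≤ deg vert v → (univ.filter (fun h => vert h = v ∧ idx h < k)).card = k)
    (hnx1 : ∀ h, nx h ≠ h) (hnx2 : ∀ h, vert (nx h) = vert h)
    (κ : Measure (ℝ × ℝ)) [IsProbabilityMeasure κ] {y0 η W : ℝ} (hη : 0 ≤ η) (hy0 : 0 ≤ y0)
    (hW : 0 ≤ W) (q : ℝ) (hq0 : 0 ≤ q) (hq1 : q ≤ 1)
    (hq : κ.real (Gd y0 η)ᶜ ≤ q) (kn : ℕ → ℕ) (sn : ℕ → ℕ) (J Umax : ℕ) (Φ : ℕ → ℝ)
    (hΦ0 : ∀ j, 0 ≤ Φ j)
    (hs : ∀ j < J, sn j + kn j + kn (j + 1) * Umax ≤ kn (j + 1) * nG vert (kn (j + 1)))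
    (hΦ : ∀ j < J, Real.exp (-((1 - q) * (sn j / Fintype.card H) * ((kn j - 1) / 2 : ℕ))) +
      kn j * Φ (j + 1) ≤ Φ j)
    (g : ℝ) (hg0 : 0 ≤ g) (hg1 : g ≤ 1) (hg : g * Fintype.card H ≤ kn 0 * nG vert (kn 0))
    (M : ℕ) (hU : 1 + M + J ≤ Umax) (h1 h2 : H) (hm : 4 * (M + 1) ≤ Fintype.card H)
    (e : ℕ) (he : 4 * e ≤ kn J) :
    ∑ σ : Mt H, (Measure.pi fun _ : Sym2 H => κ).real
        {ω | ¬ NearP vert σ ω y0 (2 * (M + J) + 1) (2 * (M * W + J * η) + η)
          (vert h1) (vert h2)} ≤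
      Fintype.card (Mt H) *
        (2 * ((1 - g) ^ M + M * (Umax * kn 0 * (2 / Fintype.card H)) + Φ 0) +
          2 * (M * κ.real {p | W < p.1}) + (Fintype.card V) ^ 2 *
            Real.exp (-((1 - q) * ((2 * e : ℕ) / Fintype.card H) * e))) := by
  classical
  set μ : Measure (Sym2 H → ℝ × ℝ) := Measure.pi fun _ : Sym2 H => κ with hμ
  set up : ℝ := (1 - g) ^ M + M * (Umax * kn 0 * (2 / Fintype.card H)) + Φ 0 with hup
  set tp : ℝ := Real.exp (-((1 - q) * ((2 * e : ℕ) / Fintype.card H) * e)) with htp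
  set P : Finset (V × V) := univ.filter (fun p => p.1 ≠ p.2 ∧ kn J ≤ deg vert p.1 ∧
    kn J ≤ deg vert p.2) with hP
  have hb1 := up_bound vert idx nx hidx hnx1 hnx2 κ (Gd y0 η) q hq0 hq1 hq kn sn J Umax Φ hΦ0
    hs hΦ g hg0 hg1 hg M hU h1 hm
  have hb2 := up_bound vert idx nx hidx hnx1 hnx2 κ (Gd y0 η) q hq0 hq1 hq kn sn J Umax Φ hΦ0
    hs hΦ g hg0 hg1 hg M hU h2 hm
  have hW' : ∀ h : H, ∀ σ : Mt H, μ.real {ω | ¬ ∀ i < M,
      (ω s(ch nx σ h i, σ (ch nx σ h i))).1 ≤ W} ≤ M * κ.real {p | W < p.1} := by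
    intro h σ
    have hsub : {ω : Sym2 H → ℝ × ℝ | ¬ ∀ i < M, (ω s(ch nx σ h i, σ (ch nx σ h i))).1 ≤ W} ⊆
        ⋃ i ∈ range M, {ω | ¬ (ω s(ch nx σ h i, σ (ch nx σ h i))).1 ≤ W} := by
      intro ω hω
      simp only [Set.mem_ofPred_eq, not_forall] at hω
      obtain ⟨i, hi, hw⟩ := hω
      rw [Set.mem_iUnion₂]
      exact ⟨i, mem_range.2 hi, hw⟩
    refine le_trans (measureReal_mono hsub (measure_ne_top _ _))
      (le_trans (measureReal_biUnion_finset_le _ _) ?_)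
    apply le_of_eq
    rw [Finset.sum_congr rfl (fun i _ => pi_eval_real κ s(ch nx σ h i, σ (ch nx σ h i)) W)]
    rw [Finset.sum_const, card_range, nsmul_eq_mul]
  have htop : ∑ σ : Mt H, μ.real {ω | ¬ ∀ x z : V, x ≠ z → kn J ≤ deg vert x →
      kn J ≤ deg vert z → ∃ h, vert h = x ∧ vert (σ h) = z ∧ ω s(h, σ h) ∈ Gd y0 η} ≤
      Fintype.card (Mt H) * ((Fintype.card V) ^ 2 * tp) := by
    calc _ ≤ ∑ σ : Mt H, ∑ p ∈ P, μ.real {ω | ¬ ∃ h, vert h = p.1 ∧ vert (σ h) = p.2 ∧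
              ω s(h, σ h) ∈ Gd y0 η} := by
          apply Finset.sum_le_sum
          intro σ _
          refine le_trans (measureReal_mono ?_ (measure_ne_top _ _))
            (measureReal_biUnion_finset_le _ _)
          intro ω hω
          simp only [Set.mem_ofPred_eq, not_forall] at hω
          obtain ⟨x, z, h3, h4, h5, h6⟩ := hω
          rw [Set.mem_iUnion₂]
          exact ⟨(x, z), by rw [hP, mem_filter]; exact ⟨mem_univ _, h3, h4, h5⟩, h6⟩
      _ = ∑ p ∈ P, ∑ σ : Mt H, μ.real {ω | ¬ ∃ h, vert h = p.1 ∧ vert (σ h) = p.2 ∧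
              ω s(h, σ h) ∈ Gd y0 η} := Finset.sum_comm
      _ ≤ ∑ p ∈ P, (Fintype.card (Mt H) * tp) := by
          apply Finset.sum_le_sum
          intro p hp
          rw [hP, mem_filter] at hp
          exact top_bound vert idx hidx κ (Gd y0 η) q hq0 hq1 hq (kn J) e he p.1 p.2
            hp.2.1 hp.2.2.1 hp.2.2.2
      _ = P.card * (Fintype.card (Mt H) * tp) := by rw [Finset.sum_const, nsmul_eq_mul]
      _ ≤ (Fintype.card V) ^ 2 * (Fintype.card (Mt H) * tp) := by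
          apply mul_le_mul_of_nonneg_right _ (by positivity)
          have : P.card ≤ Fintype.card V ^ 2 := by
            calc P.card ≤ (univ : Finset (V × V)).card := card_le_card (subset_univ _)
              _ = Fintype.card V ^ 2 := by rw [Finset.card_univ, Fintype.card_prod]; ring
          exact_mod_cast this
      _ = _ := by ring
  calc ∑ σ : Mt H, μ.real {ω | ¬ NearP vert σ ω y0 (2 * (M + J) + 1)
          (2 * (M * W + J * η) + η) (vert h1) (vert h2)}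
      ≤ ∑ σ : Mt H, (μ.real {ω | ¬ Up vert idx nx kn (Gd y0 η) J M σ ω h1} +
          (μ.real {ω | ¬ Up vert idx nx kn (Gd y0 η) J M σ ω h2} +
          (M * κ.real {p | W < p.1} + (M * κ.real {p | W < p.1} +
          μ.real {ω | ¬ ∀ x z : V, x ≠ z → kn J ≤ deg vert x →
      kn J ≤ deg vert z → ∃ h, vert h = x ∧ vert (σ h) = z ∧ ω s(h, σ h) ∈ Gd y0 η})))) := by
        apply Finset.sum_le_sum
        intro σ _
        have hsub : {ω : Sym2 H → ℝ × ℝ | ¬ NearP vert σ ω y0 (2 * (M + J) + 1)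
          (2 * (M * W + J * η) + η) (vert h1) (vert h2)} ⊆
          {ω | ¬ Up vert idx nx kn (Gd y0 η) J M σ ω h1} ∪
          ({ω | ¬ Up vert idx nx kn (Gd y0 η) J M σ ω h2} ∪
          ({ω | ¬ ∀ i < M, (ω s(ch nx σ h1 i, σ (ch nx σ h1 i))).1 ≤ W} ∪
          ({ω | ¬ ∀ i < M, (ω s(ch nx σ h2 i, σ (ch nx σ h2 i))).1 ≤ W} ∪
          {ω | ¬ ∀ x z : V, x ≠ z → kn J ≤ deg vert x →
            kn J ≤ deg vert z → ∃ h, vert h = x ∧ vert (σ h) = z ∧ ω s(h, σ h) ∈ Gd y0 η}))) := by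
          intro ω hω
          by_contra hcon
          simp only [Set.mem_union, not_or] at hcon
          obtain ⟨c1, c2, c3, c4, c5⟩ := hcon
          apply hω
          exact near_det hnx2 hη hy0 hW (not_not.1 c1) (not_not.1 c2) (not_not.1 c3)
            (not_not.1 c4) (not_not.1 c5)
        refine le_trans (measureReal_mono hsub) ?_
        refine le_trans (measureReal_union_le _ _) (add_le_add le_rfl ?_)
        refine le_trans (measureReal_union_le _ _) (add_le_add le_rfl ?_)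
        refine le_trans (measureReal_union_le _ _) (add_le_add (hW' h1 σ) ?_)
        exact le_trans (measureReal_union_le _ _) (add_le_add (hW' h2 σ) le_rfl)
    _ ≤ Fintype.card (Mt H) * up + (Fintype.card (Mt H) * up +
          (Fintype.card (Mt H) * (M * κ.real {p | W < p.1}) +
          (Fintype.card (Mt H) * (M * κ.real {p | W < p.1}) +
            Fintype.card (Mt H) * ((Fintype.card V) ^ 2 * tp)))) := by
        rw [Finset.sum_add_distrib, Finset.sum_add_distrib, Finset.sum_add_distrib,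
          Finset.sum_add_distrib, Finset.sum_const, Finset.card_univ, nsmul_eq_mul]
        exact add_le_add hb1 (add_le_add hb2 (add_le_add le_rfl (add_le_add le_rfl htop)))
    _ = _ := by ring

end Pool.Agent.H949.CM
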