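import Pool.Agent.H949.CM.Dyn
import Pool.Agent.H949.CM.Near3

/-!
# The configuration model with two edge lengths and two sources
-/

set_option linter.unusedSectionVars false
set_option linter.unusedSimpArgs false

open MeasureTheory Finset ProbabilityTheory
open scoped ENNReal

namespace Pool.Agent.H949.CM

/-- Parity correction: one half-edge is added to the last vertex if the sum of the degrees is
odd. -/
def fixParity {n : ℕ} (d : Fin (n + 1) → ℕ) : Fin (n + 1) → ℕ :=
  if Even (∑ i, d i) then d else Function.update d (Fin.last n) (d (Fin.last n) + 1)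

/-- The half-edges: vertex `v` carries `d v` half-edges. -/
abbrev HalfEdge {n : ℕ} (d : Fin (n + 1) → ℕ) : Type := Σ v : Fin (n + 1), Fin (d v)

/-- The vertex of a half-edge. -/
def vtx {n : ℕ} {d : Fin (n + 1) → ℕ} (h : HalfEdge d) : Fin (n + 1) := h.1

/-- The law of the configuration model with degrees `d`, with the red and blue lengths of the
edges and the two sources: the half-edges are paired by a uniform perfect matching `σ`, the pairs
(red length, blue length) attached to the possible edges `s(h, h')` are independent with law `κ`,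
and the red source and the blue source are independent uniform vertices. -/
noncomputable def cmLaw {n : ℕ} (κ : Measure (ℝ × ℝ)) (d : Fin (n + 1) → ℕ) :
    Measure (Mt (HalfEdge d) × (Sym2 (HalfEdge d) → ℝ × ℝ) × Fin (n + 1) × Fin (n + 1)) :=
  (uniformOn Set.univ).prod
    ((Measure.pi fun _ => κ).prod ((uniformOn Set.univ).prod (uniformOn Set.univ)))

/-- The edge lengths: colour `true` (red) uses the first length, colour `false` (blue) the
second. -/
noncomputable def len {H : Type*} (ω : Sym2 H → ℝ × ℝ) (c : Bool) (e : Sym2 H) : ℝ≥0∞ :=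
  ENNReal.ofReal (if c then (ω e).1 else (ω e).2)

/-- The configurations for which, for some way of breaking ties, fewer than `(1 - ε)(n + 1)`
vertices become red. -/
def fewRed {n : ℕ} (d : Fin (n + 1) → ℕ) (ε : ℝ) :
    Set (Mt (HalfEdge d) × (Sym2 (HalfEdge d) → ℝ × ℝ) × Fin (n + 1) × Fin (n + 1)) :=
  {x | ∃ (t : Fin (n + 1) → ℝ≥0∞) (col : Fin (n + 1) → Option Bool),
    IsOutcome vtx x.1 (len x.2.1) x.2.2.1 x.2.2.2 t col ∧
      ((univ.filter (fun v => col v = some true)).card : ℝ) < (1 - ε) * (n + 1)}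

theorem le_fixParity {n : ℕ} (d : Fin (n + 1) → ℕ) (v : Fin (n + 1)) : d v ≤ fixParity d v := by
  unfold fixParity
  split_ifs
  · exact le_refl _
  · by_cases h : v = Fin.last n
    · subst h; simp
    · rw [Function.update_of_ne h]

theorem fixParity_le {n : ℕ} (d : Fin (n + 1) → ℕ) (v : Fin (n + 1)) :
    fixParity d v ≤ d v + 1 := by
  unfold fixParity
  split_ifs
  · exact Nat.le_succ _
  · by_cases h : v = Fin.last n
    · subst h; simp
    · rw [Function.update_of_ne h]
      exact Nat.le_succ _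

theorem card_halfEdge {n : ℕ} (d : Fin (n + 1) → ℕ) :
    Fintype.card (HalfEdge d) = ∑ v, d v := by
  simp [HalfEdge]

theorem even_fixParity {n : ℕ} (d : Fin (n + 1) → ℕ) : Even (∑ v, fixParity d v) := by
  unfold fixParity
  split_ifs with h
  · exact h
  · rw [Finset.sum_update_of_mem (mem_univ _)]
    have h1 : ∑ v, d v = d (Fin.last n) + ∑ x ∈ univ \ {Fin.last n}, d x := by
      rw [← Finset.add_sum_erase univ d (mem_univ (Fin.last n)), Finset.sdiff_singleton_eq_erase]
    rw [h1] at h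
    rw [Nat.not_even_iff_odd] at h
    have : d (Fin.last n) + 1 + ∑ x ∈ univ \ {Fin.last n}, d x =
        (d (Fin.last n) + ∑ x ∈ univ \ {Fin.last n}, d x) + 1 := by ring
    rw [this]
    exact h.add_one

/-- A set with an even number of elements has a perfect matching. -/
theorem nonempty_Mt {H : Type*} [Fintype H] (hH : Even (Fintype.card H)) : Nonempty (Mt H) := by
  classical
  obtain ⟨k, hk⟩ := hH
  have e1 : Fintype.card H = Fintype.card (Fin k × Bool) := by
    simp [hk]; ring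
  have e := Fintype.equivOfCardEq e1
  refine ⟨⟨fun h => e.symm ((e h).1, !(e h).2), fun h => ⟨by simp, fun hc => ?_⟩⟩⟩
  have := congrArg e hc
  simp only [Equiv.apply_symm_apply] at this
  have h2 := congrArg Prod.snd this
  simp at h2

theorem deg_vtx {n : ℕ} (d : Fin (n + 1) → ℕ) (v : Fin (n + 1)) :
    deg (vtx (d := d)) v = d v := by
  unfold deg
  have h1 : (univ.filter (fun h : HalfEdge d => vtx h = v)) =
      (univ : Finset (Fin (d v))).map ⟨fun i => ⟨v, i⟩, fun a b hab => by simpa using hab⟩ := by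
    ext ⟨w, i⟩
    rw [mem_filter, mem_map]
    constructor
    · rintro ⟨_, h⟩
      have h' : w = v := h
      subst h'
      exact ⟨i, mem_univ _, rfl⟩
    · rintro ⟨j, _, hj⟩
      exact ⟨mem_univ _, (congrArg Sigma.fst hj).symm⟩
  rw [h1, card_map, card_univ, Fintype.card_fin]

/-- The index of a half-edge at its vertex. -/
def hidx {n : ℕ} {d : Fin (n + 1) → ℕ} (h : HalfEdge d) : ℕ := h.2.1

theorem hidx_spec {n : ℕ} (d : Fin (n + 1) → ℕ) (v : Fin (n + 1)) (k : ℕ)
    (hk : k ≤ deg (vtx (d := d)) v) :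
    (univ.filter (fun h : HalfEdge d => vtx h = v ∧ hidx h < k)).card = k := by
  rw [deg_vtx] at hk
  have h1 : (univ.filter (fun h : HalfEdge d => vtx h = v ∧ hidx h < k)) =
      (univ : Finset (Fin k)).map ⟨fun i => ⟨v, ⟨i.1, lt_of_lt_of_le i.2 hk⟩⟩,
        fun a b hab => by
          simp only [Sigma.mk.injEq, heq_eq_eq, Fin.mk.injEq, true_and] at hab
          exact Fin.ext hab⟩ := by
    ext ⟨w, i⟩
    rw [mem_filter, mem_map]
    constructor
    · rintro ⟨_, h, hi⟩
      have h' : w = v := h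
      subst h'
      exact ⟨⟨i.1, hi⟩, mem_univ _, rfl⟩
    · rintro ⟨j, _, hj⟩
      have h2 : v = w := congrArg Sigma.fst hj
      subst h2
      have h4 : (⟨v, ⟨j.1, lt_of_lt_of_le j.2 hk⟩⟩ : HalfEdge d) = ⟨v, i⟩ := hj
      have h3 : (⟨j.1, lt_of_lt_of_le j.2 hk⟩ : Fin (d v)) = i := eq_of_heq (Sigma.mk.inj h4).2
      refine ⟨mem_univ _, rfl, ?_⟩
      rw [← h3]
      exact j.2
  rw [h1, card_map, card_univ, Fintype.card_fin]

/-- Another half-edge of the same vertex. -/
def hnx {n : ℕ} {d : Fin (n + 1) → ℕ} (hd : ∀ v, 2 ≤ d v) (h : HalfEdge d) : HalfEdge d :=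
  ⟨h.1, if h.2.1 = 0 then ⟨1, by have := hd h.1; omega⟩ else ⟨0, by have := hd h.1; omega⟩⟩

theorem hnx_ne {n : ℕ} {d : Fin (n + 1) → ℕ} (hd : ∀ v, 2 ≤ d v) (h : HalfEdge d) :
    hnx hd h ≠ h := by
  obtain ⟨v, i⟩ := h
  unfold hnx
  intro he
  simp only [Sigma.mk.injEq, heq_eq_eq, true_and] at he
  have h1 := congrArg Fin.val he
  split_ifs at h1 with h2
  · simp only at h1; omega
  · simp only at h1; omega

theorem vtx_hnx {n : ℕ} {d : Fin (n + 1) → ℕ} (hd : ∀ v, 2 ≤ d v) (h : HalfEdge d) :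
    vtx (hnx hd h) = vtx h := rfl

/-- The law is bounded by the average of its sections. -/
theorem cmLaw_le {n : ℕ} (κ : Measure (ℝ × ℝ)) [IsProbabilityMeasure κ] (d : Fin (n + 1) → ℕ)
    (E : Set (Mt (HalfEdge d) × (Sym2 (HalfEdge d) → ℝ × ℝ) × Fin (n + 1) × Fin (n + 1))) :
    cmLaw κ d E ≤ ENNReal.ofReal ((∑ σ : Mt (HalfEdge d), ∑ a : Fin (n + 1), ∑ b : Fin (n + 1),
      (Measure.pi fun _ : Sym2 (HalfEdge d) => κ).real {ω | (σ, ω, a, b) ∈ E}) /
        (Fintype.card (Mt (HalfEdge d)) * (n + 1) ^ 2)) := by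
  classical
  set μ := (Measure.pi fun _ : Sym2 (HalfEdge d) => κ) with hμ
  have hsub : E ⊆ ⋃ σ ∈ (univ : Finset (Mt (HalfEdge d))), ⋃ a ∈ (univ : Finset (Fin (n + 1))),
      ⋃ b ∈ (univ : Finset (Fin (n + 1))), ({σ} : Set (Mt (HalfEdge d))) ×ˢ
        ({ω | (σ, ω, a, b) ∈ E} ×ˢ (({a} : Set (Fin (n + 1))) ×ˢ ({b} : Set (Fin (n + 1))))) := by
    rintro ⟨σ, ω, a, b⟩ hx
    simp only [Set.mem_iUnion]
    exact ⟨σ, mem_univ _, a, mem_univ _, b, mem_univ _, rfl, hx, rfl, rfl⟩
  refine le_trans (measure_mono hsub) ?_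
  refine le_trans (measure_biUnion_finset_le _ _) ?_
  rw [Finset.sum_div, ENNReal.ofReal_sum_of_nonneg (fun _ _ => by positivity)]
  apply Finset.sum_le_sum
  intro σ _
  refine le_trans (measure_biUnion_finset_le _ _) ?_
  rw [Finset.sum_div, ENNReal.ofReal_sum_of_nonneg (fun _ _ => by positivity)]
  apply Finset.sum_le_sum
  intro a _
  refine le_trans (measure_biUnion_finset_le _ _) ?_
  rw [Finset.sum_div, ENNReal.ofReal_sum_of_nonneg (fun _ _ => by positivity)]
  apply Finset.sum_le_sum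
  intro b _
  unfold cmLaw
  rw [Measure.prod_prod, Measure.prod_prod, Measure.prod_prod, uniformOn_univ, uniformOn_univ,
    uniformOn_univ, Measure.count_singleton, Measure.count_singleton, Measure.count_singleton,
    Fintype.card_fin]
  have hM : 0 < Fintype.card (Mt (HalfEdge d)) := Fintype.card_pos_iff.2 ⟨σ⟩
  rw [ENNReal.ofReal_div_of_pos (by positivity), ENNReal.ofReal_mul (by positivity),
    ENNReal.ofReal_natCast, ofReal_measureReal]
  have e1 : ENNReal.ofReal (((n : ℝ) + 1) ^ 2) = ((n + 1 : ℕ) : ℝ≥0∞) * ((n + 1 : ℕ) : ℝ≥0∞) := by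
    have : ((n : ℝ) + 1) ^ 2 = ((n + 1 : ℕ) : ℝ) * ((n + 1 : ℕ) : ℝ) := by push_cast; ring
    rw [this, ENNReal.ofReal_mul (by positivity), ENNReal.ofReal_natCast]
  rw [e1]
  have hM' : (Fintype.card (Mt (HalfEdge d)) : ℝ≥0∞) ≠ 0 := by exact_mod_cast hM.ne'
  have hM'' : (Fintype.card (Mt (HalfEdge d)) : ℝ≥0∞) ≠ ⊤ := ENNReal.natCast_ne_top _
  have hN : ((n + 1 : ℕ) : ℝ≥0∞) ≠ 0 := by exact_mod_cast (Nat.succ_ne_zero n)
  have hN' : ((n + 1 : ℕ) : ℝ≥0∞) ≠ ⊤ := ENNReal.natCast_ne_top _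
  apply le_of_eq
  simp only [div_eq_mul_inv, one_mul]
  rw [ENNReal.mul_inv (Or.inl hM') (Or.inl hM''), ENNReal.mul_inv (Or.inl hN) (Or.inl hN')]
  ring

theorem cmLaw_le_one {n : ℕ} (κ : Measure (ℝ × ℝ)) [IsProbabilityMeasure κ]
    (d : Fin (n + 1) → ℕ)
    (E : Set (Mt (HalfEdge d) × (Sym2 (HalfEdge d) → ℝ × ℝ) × Fin (n + 1) × Fin (n + 1))) :
    cmLaw κ d E ≤ 1 := by
  refine le_trans (measure_mono (Set.subset_univ E)) ?_
  unfold cmLaw
  rw [← Set.univ_prod_univ, Measure.prod_prod, ← Set.univ_prod_univ, Measure.prod_prod,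
    ← Set.univ_prod_univ, Measure.prod_prod]
  have h1 : (uniformOn (Set.univ : Set (Mt (HalfEdge d)))) Set.univ ≤ 1 := by
    exact prob_le_one
  have h2 : (uniformOn (Set.univ : Set (Fin (n + 1)))) Set.univ ≤ 1 := prob_le_one
  calc _ ≤ (1 : ℝ≥0∞) * (1 * (1 * 1)) := by
        gcongr
        exact prob_le_one
    _ = 1 := by norm_num

/-- The law is a probability measure as soon as the number of half-edges is even. -/
theorem cmLaw_prob {n : ℕ} (κ : Measure (ℝ × ℝ)) [IsProbabilityMeasure κ]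
    (d : Fin (n + 1) → ℕ) (hd : Even (∑ v, d v)) : IsProbabilityMeasure (cmLaw κ d) := by
  have h1 : Nonempty (Mt (HalfEdge d)) := nonempty_Mt (by rw [card_halfEdge]; exact hd)
  have h2 : IsProbabilityMeasure (uniformOn (Set.univ : Set (Mt (HalfEdge d)))) :=
    isProbabilityMeasure_uniformOn Set.finite_univ Set.univ_nonempty
  have h3 : IsProbabilityMeasure (uniformOn (Set.univ : Set (Fin (n + 1)))) :=
    isProbabilityMeasure_uniformOn Set.finite_univ Set.univ_nonempty
  unfold cmLaw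
  infer_instance

/-- Markov inequality for arbitrary sets. -/
theorem outer_markov {Ω ι : Type*} [MeasurableSpace Ω] [Fintype ι] (μ : Measure Ω)
    [IsFiniteMeasure μ] (A : ι → Set Ω) (c : ℝ) (hc : 0 < c) :
    μ.real {x | c ≤ ∑ i, ind (x ∈ A i)} ≤ (∑ i, μ.real (A i)) / c := by
  classical
  set A' : ι → Set Ω := fun i => toMeasurable μ (A i) with hA'
  have hsub : {x | c ≤ ∑ i, ind (x ∈ A i)} ⊆
      {x | ENNReal.ofReal c ≤ ∑ i, (A' i).indicator (fun _ => (1 : ℝ≥0∞)) x} := by
    intro x hx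
    have hx' : c ≤ ∑ i, ind (x ∈ A i) := hx
    show ENNReal.ofReal c ≤ ∑ i, (A' i).indicator (fun _ => (1 : ℝ≥0∞)) x
    refine le_trans (ENNReal.ofReal_le_ofReal hx') ?_
    rw [ENNReal.ofReal_sum_of_nonneg (fun _ _ => ind_nonneg _)]
    apply Finset.sum_le_sum
    intro i _
    by_cases h : x ∈ A i
    · rw [ind_of h, Set.indicator_of_mem (subset_toMeasurable μ (A i) h)]
      simp
    · rw [ind_not h]; simp
  have h1 : μ {x | ENNReal.ofReal c ≤ ∑ i, (A' i).indicator (fun _ => (1 : ℝ≥0∞)) x} ≤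
      (∑ i, μ (A i)) / ENNReal.ofReal c := by
    have hm : Measurable (fun x => ∑ i, (A' i).indicator (fun _ => (1 : ℝ≥0∞)) x) :=
      Finset.measurable_fun_sum _ (fun i _ =>
        measurable_const.indicator (measurableSet_toMeasurable μ (A i)))
    refine le_trans (meas_ge_le_lintegral_div hm.aemeasurable
      (by simpa using hc) ENNReal.ofReal_ne_top) ?_
    gcongr
    rw [lintegral_finsetSum _ (fun i _ =>
        measurable_const.indicator (measurableSet_toMeasurable μ (A i)))]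
    apply Finset.sum_le_sum
    intro i _
    rw [lintegral_indicator (measurableSet_toMeasurable μ (A i))]
    simp [hA', measure_toMeasurable]
  have h2 : μ {x | c ≤ ∑ i, ind (x ∈ A i)} ≤ (∑ i, μ (A i)) / ENNReal.ofReal c :=
    le_trans (measure_mono hsub) h1
  have h3 : (∑ i, μ (A i)) ≠ ⊤ := (ENNReal.sum_lt_top.2 (fun i _ => measure_lt_top μ _)).ne
  unfold Measure.real
  calc (μ {x | c ≤ ∑ i, ind (x ∈ A i)}).toReal
      ≤ ((∑ i, μ (A i)) / ENNReal.ofReal c).toReal := by
        apply ENNReal.toReal_mono _ h2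
        exact ENNReal.div_ne_top h3 (by simpa using hc)
    _ = (∑ i, (μ (A i)).toReal) / c := by
        rw [ENNReal.toReal_div, ENNReal.toReal_sum (fun i _ => measure_ne_top μ _),
          ENNReal.toReal_ofReal hc.le]

end Pool.Agent.H949.CM
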