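import Pool.Agent.H949.CM.Match

/-!
# No good edge between two sets of half-edges
-/

set_option linter.unusedSectionVars false

open Finset MeasureTheory

namespace Pool.Agent.H949.CM

variable {H : Type*} [Fintype H] [DecidableEq H]

theorem ng_count (q : ℝ) (hq0 : 0 ≤ q) (hq1 : q ≤ 1) (s : ℕ) (e : ℕ) :
    ∀ (l : List (H × H)) (R S : Finset H), Disjoint R S → Disjoint R (dom l) →
      Disjoint S (dom l) → 2 * e ≤ R.card → s + R.card ≤ S.card →
      ∑ σ ∈ Al l, q ^ ((R.filter (fun h => σ h ∈ S)).card) ≤
        (Al l).card * (1 - (1 - q) * (s / Fintype.card H)) ^ e := by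
  classical
  induction e with
  | zero =>
    intro l R S _ _ _ _ _
    rw [pow_zero, mul_one]
    calc ∑ σ ∈ Al l, q ^ ((R.filter (fun h => σ h ∈ S)).card) ≤ ∑ σ ∈ Al l, (1 : ℝ) :=
          Finset.sum_le_sum (fun σ _ => pow_le_one₀ hq0 hq1)
      _ = (Al l).card := by simp
  | succ e ih =>
    intro l R S hRS hRl hSl hR hS
    obtain ⟨h, hh⟩ : R.Nonempty := Finset.card_pos.1 (by omega)
    have hhl : h ∉ dom l := Finset.disjoint_left.1 hRl hh
    have hSm : S.card ≤ Fintype.card H := Finset.card_le_univ S
    have hs_m : (s : ℝ) / Fintype.card H ≤ 1 := by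
      rcases Nat.eq_zero_or_pos (Fintype.card H) with h0 | h0
      · rw [h0]; simp
      · rw [div_le_one (by exact_mod_cast h0)]
        exact_mod_cast (by omega : s ≤ Fintype.card H)
    have hs0 : (0 : ℝ) ≤ (s : ℝ) / Fintype.card H := by positivity
    set ρ : ℝ := 1 - (1 - q) * (s / Fintype.card H) with hρ
    have hρ0 : 0 ≤ ρ := by
      rw [hρ]; nlinarith
    -- the function after revealing
    let F : H → Mt H → ℝ := fun x σ => (if x ∈ S then q else 1) *
      q ^ ((((R.erase h).erase x).filter (fun g => σ g ∈ S.erase x)).card)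
    have hstep : ∀ σ ∈ Al l, q ^ ((R.filter (fun g => σ g ∈ S)).card) ≤ F (σ h) σ := by
      intro σ _
      have hsub : ((R.erase h).erase (σ h)).filter (fun g => σ g ∈ S.erase (σ h)) ⊆
          (R.filter (fun g => σ g ∈ S)).erase h := by
        intro g hg
        simp only [mem_filter, mem_erase] at hg ⊢
        tauto
      have hcard := Finset.card_le_card hsub
      by_cases hx : σ h ∈ S
      · have hmem : h ∈ R.filter (fun g => σ g ∈ S) := by
          simp [hh, hx]
        have h2 := card_erase_add_one hmem
        simp only [F, if_pos hx]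
        rw [← pow_succ']
        exact pow_le_pow_of_le_one hq0 hq1 (by omega)
      · simp only [F, if_neg hx, one_mul]
        refine pow_le_pow_of_le_one hq0 hq1 (le_trans hcard ?_)
        exact card_le_card (erase_subset _ _)
    refine le_trans (Finset.sum_le_sum hstep) ?_
    have hIH : ∀ x ∈ fr l h, ∑ σ ∈ Al ((h, x) :: l), F x σ ≤
        (Al ((h, x) :: l)).card * ((if x ∈ S then q else 1) * ρ ^ e) := by
      intro x hx
      rw [mem_fr] at hx
      have hx0 : (0 : ℝ) ≤ (if x ∈ S then q else 1) := by split_ifs <;> linarith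
      have h1 := ih ((h, x) :: l) ((R.erase h).erase x) (S.erase x)
        (Finset.disjoint_of_subset_left ((erase_subset _ _).trans (erase_subset _ _))
          (Finset.disjoint_of_subset_right (erase_subset _ _) hRS))
        (by
          rw [Finset.disjoint_left]
          intro g hg hg2
          rw [dom_cons, mem_insert, mem_insert] at hg2
          simp only [mem_erase] at hg
          rcases hg2 with h3 | h3 | h3
          · exact hg.2.1 h3
          · exact hg.1 h3
          · exact Finset.disjoint_left.1 hRl hg.2.2 h3)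
        (by
          rw [Finset.disjoint_left]
          intro g hg hg2
          rw [dom_cons, mem_insert, mem_insert] at hg2
          simp only [mem_erase] at hg
          rcases hg2 with h3 | h3 | h3
          · exact Finset.disjoint_left.1 hRS hh (h3 ▸ hg.2)
          · exact hg.1 h3
          · exact Finset.disjoint_left.1 hSl hg.2 h3)
        (by
          have h3 : (R.erase h).card + 1 = R.card := card_erase_add_one hh
          have h4 : (R.erase h).card - 1 ≤ ((R.erase h).erase x).card := pred_card_le_card_erase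
          omega)
        (by
          have h3 : (R.erase h).card + 1 = R.card := card_erase_add_one hh
          have h4 : ((R.erase h).erase x).card ≤ (R.erase h).card :=
            card_le_card (erase_subset _ _)
          have h5 : S.card - 1 ≤ (S.erase x).card := pred_card_le_card_erase
          omega)
      calc ∑ σ ∈ Al ((h, x) :: l), F x σ
          = (if x ∈ S then q else 1) * ∑ σ ∈ Al ((h, x) :: l),
            q ^ ((((R.erase h).erase x).filter (fun g => σ g ∈ S.erase x)).card) := by
            rw [Finset.mul_sum]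
        _ ≤ (if x ∈ S then q else 1) * ((Al ((h, x) :: l)).card * ρ ^ e) :=
            mul_le_mul_of_nonneg_left h1 hx0
        _ = _ := by ring
    refine le_trans (reveal_le hhl F _ hIH) ?_
    apply mul_le_mul_of_nonneg_left _ (Nat.cast_nonneg _)
    have hSfr : S ⊆ fr l h := by
      intro g hg
      rw [mem_fr]
      exact ⟨fun e => Finset.disjoint_left.1 hRS hh (e ▸ hg), Finset.disjoint_left.1 hSl hg⟩
    have hSpos : 0 < S.card := by omega
    have hfrpos : 0 < (fr l h).card := lt_of_lt_of_le hSpos (card_le_card hSfr)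
    have hfrm : (fr l h).card ≤ Fintype.card H := card_le_univ _
    have hfrR : (0 : ℝ) < (fr l h).card := by exact_mod_cast hfrpos
    rw [← Finset.sum_mul, div_le_iff₀ hfrR]
    have hsum : ∑ x ∈ fr l h, (if x ∈ S then q else 1) = (fr l h).card - (1 - q) * S.card := by
      have h1 : ∀ x ∈ fr l h, (if x ∈ S then q else 1) = 1 - (1 - q) * (if x ∈ S then 1 else 0) := by
        intro x _
        split_ifs <;> ring
      rw [Finset.sum_congr rfl h1, Finset.sum_sub_distrib, ← Finset.mul_sum]
      congr 1
      · simp
      · congr 1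
        rw [Finset.sum_ite_mem, Finset.inter_eq_right.2 hSfr]
        simp
    rw [hsum, pow_succ]
    have hkey : (fr l h).card - (1 - q) * S.card ≤ ρ * (fr l h).card := by
      rw [hρ]
      have hm : (0 : ℝ) < Fintype.card H := by
        exact_mod_cast lt_of_lt_of_le hfrpos hfrm
      have h1 : (s : ℝ) / Fintype.card H * (fr l h).card ≤ S.card := by
        rw [div_mul_eq_mul_div, div_le_iff₀ hm]
        have h2 : (s : ℝ) ≤ S.card := by exact_mod_cast (by omega : s ≤ S.card)
        have h3 : ((fr l h).card : ℝ) ≤ Fintype.card H := by exact_mod_cast hfrm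
        exact mul_le_mul h2 h3 (by positivity) (by positivity)
      nlinarith
    calc ((fr l h).card - (1 - q) * S.card) * ρ ^ e ≤ (ρ * (fr l h).card) * ρ ^ e :=
          mul_le_mul_of_nonneg_right hkey (pow_nonneg hρ0 _)
      _ = ρ ^ e * ρ * (fr l h).card := by ring

variable {E : Type*} [MeasurableSpace E]

/-- For a given matching, the chance that no edge between `R` and `S` is good. -/
theorem ng_weights (κ : Measure E) [IsProbabilityMeasure κ] (G : Set E) (q : ℝ)
    (hq : κ.real Gᶜ ≤ q) (σ : Mt H) (R S : Finset H) (hRS : Disjoint R S) :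
    (Measure.pi fun _ : Sym2 H => κ).real {ω | ∀ h ∈ R, σ h ∈ S → ω s(h, σ h) ∉ G} ≤
      q ^ ((R.filter (fun h => σ h ∈ S)).card) := by
  classical
  set T : Finset (Sym2 H) := (R.filter (fun h => σ h ∈ S)).image (fun h => s(h, σ h)) with hT
  have hcard : T.card = (R.filter (fun h => σ h ∈ S)).card := by
    rw [hT]
    apply card_image_of_injOn
    intro a ha b hb hab
    simp only [coe_filter, Set.mem_ofPred_eq] at ha hb
    simp only [Sym2.eq_iff] at hab
    rcases hab with ⟨h1, _⟩ | ⟨h1, _⟩
    · exact h1
    · exfalso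
      exact Finset.disjoint_left.1 hRS ha.1 (h1 ▸ hb.2)
  have hset : {ω : Sym2 H → E | ∀ h ∈ R, σ h ∈ S → ω s(h, σ h) ∉ G} =
      Set.pi Set.univ (fun e => if e ∈ T then Gᶜ else Set.univ) := by
    ext ω
    simp only [Set.mem_ofPred_eq, Set.mem_pi, Set.mem_univ, forall_true_left]
    constructor
    · intro h e
      split_ifs with he
      · rw [hT, mem_image] at he
        obtain ⟨x, hx, rfl⟩ := he
        rw [mem_filter] at hx
        exact h x hx.1 hx.2
      · trivial
    · intro h x hx hxS
      have h1 := h s(x, σ x)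
      have h2 : s(x, σ x) ∈ T := by
        rw [hT, mem_image]
        exact ⟨x, mem_filter.2 ⟨hx, hxS⟩, rfl⟩
      rw [if_pos h2] at h1
      exact h1
  have hq0 : 0 ≤ κ.real Gᶜ := measureReal_nonneg
  rw [hset, Measure.real, Measure.pi_pi, ENNReal.toReal_prod]
  have h1 : ∀ e ∈ (univ : Finset (Sym2 H)), (κ (if e ∈ T then Gᶜ else Set.univ)).toReal =
      if e ∈ T then κ.real Gᶜ else 1 := by
    intro e _
    split_ifs
    · rfl
    · simp
  rw [Finset.prod_congr rfl h1, Finset.prod_ite_mem, Finset.univ_inter, Finset.prod_const, hcard]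
  exact pow_le_pow_left₀ hq0 hq _

/-- Averaged version: no good edge between `R` and `S`. -/
theorem ng_prob (κ : Measure E) [IsProbabilityMeasure κ] (G : Set E) (q : ℝ) (hq0 : 0 ≤ q)
    (hq1 : q ≤ 1) (hq : κ.real Gᶜ ≤ q) (s e : ℕ) (l : List (H × H)) (R S : Finset H)
    (hRS : Disjoint R S) (hRl : Disjoint R (dom l)) (hSl : Disjoint S (dom l))
    (hR : 2 * e ≤ R.card) (hS : s + R.card ≤ S.card) :
    ∑ σ ∈ Al l, (Measure.pi fun _ : Sym2 H => κ).real
        {ω | ∀ h ∈ R, σ h ∈ S → ω s(h, σ h) ∉ G} ≤
      (Al l).card * Real.exp (-((1 - q) * (s / Fintype.card H) * e)) := by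
  refine le_trans (Finset.sum_le_sum (fun σ _ => ng_weights κ G q hq σ R S hRS)) ?_
  refine le_trans (ng_count q hq0 hq1 s e l R S hRS hRl hSl hR hS) ?_
  apply mul_le_mul_of_nonneg_left _ (Nat.cast_nonneg _)
  have h1 : 1 - (1 - q) * ((s : ℝ) / Fintype.card H) ≤
      Real.exp (-((1 - q) * (s / Fintype.card H))) := by
    have := Real.add_one_le_exp (-((1 - q) * ((s : ℝ) / Fintype.card H)))
    linarith
  have h2 : 0 ≤ 1 - (1 - q) * ((s : ℝ) / Fintype.card H) := by
    have hSm : S.card ≤ Fintype.card H := Finset.card_le_univ S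
    have hs_m : (s : ℝ) / Fintype.card H ≤ 1 := by
      rcases Nat.eq_zero_or_pos (Fintype.card H) with h0 | h0
      · rw [h0]; simp
      · rw [div_le_one (by exact_mod_cast h0)]
        exact_mod_cast (by omega : s ≤ Fintype.card H)
    have hs0 : (0 : ℝ) ≤ (s : ℝ) / Fintype.card H := by positivity
    nlinarith
  calc (1 - (1 - q) * ((s : ℝ) / Fintype.card H)) ^ e
      ≤ (Real.exp (-((1 - q) * (s / Fintype.card H)))) ^ e := pow_le_pow_left₀ h2 h1 e
    _ = Real.exp (-((1 - q) * (s / Fintype.card H) * e)) := by
        rw [← Real.exp_nat_mul]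
        congr 1
        ring

end Pool.Agent.H949.CM
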