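import Pool.Agent.H949.CM.Far

/-!
# Climbing to vertices of large degree through good edges
-/

set_option linter.unusedSectionVars false

open Finset MeasureTheory

namespace Pool.Agent.H949.CM

variable {V H : Type*} [Fintype V] [DecidableEq V] [Fintype H] [DecidableEq H]
variable {E : Type*} [MeasurableSpace E]

/-- Climbing `r` levels from `x` (which is at level `j`), avoiding `U`, through edges whose weight
lies in `G`; level `j` consists of the vertices of degree at least `kn j`, and only the first
`kn j` half-edges of a vertex of level `j` are used. -/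
def Cl (vert : H → V) (idx : H → ℕ) (kn : ℕ → ℕ) (G : Set E) (σ : Mt H) (ω : Sym2 H → E) :
    ℕ → ℕ → Finset V → V → Prop
  | 0, _, _, _ => True
  | (r + 1), j, U, x => ∃ h, vert h = x ∧ idx h < kn j ∧ vert (σ h) ∉ U ∧ idx (σ h) < kn (j + 1) ∧
      kn (j + 1) ≤ deg vert (vert (σ h)) ∧ ω s(h, σ h) ∈ G ∧
      Cl vert idx kn G σ ω r (j + 1) (insert (vert (σ h)) U) (vert (σ h))

/-- The number of vertices of degree at least `k`. -/
def nG (vert : H → V) (k : ℕ) : ℕ := (univ.filter (fun v => k ≤ deg vert v)).card

/-- The half-edges of index less than `k` of the vertices of degree at least `k` outside `U`. -/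
def Tr (vert : H → V) (idx : H → ℕ) (k : ℕ) (U : Finset V) : Finset H :=
  univ.filter (fun h => vert h ∉ U ∧ k ≤ deg vert (vert h) ∧ idx h < k)

theorem card_Tr_ge (vert : H → V) (idx : H → ℕ)
    (hidx : ∀ v k, k ≤ deg vert v → (univ.filter (fun h => vert h = v ∧ idx h < k)).card = k)
    (k : ℕ) (U : Finset V) : k * nG vert k ≤ (Tr vert idx k U).card + k * U.card := by
  classical
  have h1 : (Tr vert idx k U).card =
      ∑ v ∈ (univ.filter (fun v => k ≤ deg vert v)) \ U, k := by
    rw [Finset.card_eq_sum_card_fiberwise (f := vert)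
      (t := (univ.filter (fun v => k ≤ deg vert v)) \ U)]
    · apply Finset.sum_congr rfl
      intro v hv
      rw [mem_sdiff, mem_filter] at hv
      have hk' := hidx v k hv.1.2
      have e1 : (Tr vert idx k U).filter (fun h => vert h = v) =
          univ.filter (fun h => vert h = v ∧ idx h < k) := by
        ext h
        simp only [Tr, mem_filter, mem_univ, true_and]
        constructor
        · rintro ⟨⟨_, _, h3⟩, h4⟩
          exact ⟨h4, h3⟩
        · rintro ⟨h3, h4⟩
          subst h3
          exact ⟨⟨hv.2, hv.1.2, h4⟩, rfl⟩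
      rw [e1, hk']
    · intro h hh
      simp only [Tr, mem_filter, mem_univ, true_and, coe_filter, Set.mem_ofPred_eq] at hh
      simp only [coe_sdiff, coe_filter, mem_univ, true_and, Set.mem_sdiff, Set.mem_ofPred_eq,
        mem_coe]
      exact ⟨hh.2.1, hh.1⟩
  rw [h1, Finset.sum_const, smul_eq_mul]
  have h2 : nG vert k ≤ ((univ.filter (fun v => k ≤ deg vert v)) \ U).card + U.card := by
    unfold nG
    have := Finset.card_le_card_sdiff_add_card (s := univ.filter (fun v => k ≤ deg vert v))
      (t := U)
    omega
  calc k * nG vert k ≤ k * (((univ.filter (fun v => k ≤ deg vert v)) \ U).card + U.card) :=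
        Nat.mul_le_mul_left k h2
    _ = _ := by ring

/-- The climbing bound. -/
theorem climb_bound (vert : H → V) (idx : H → ℕ)
    (hidx : ∀ v k, k ≤ deg vert v → (univ.filter (fun h => vert h = v ∧ idx h < k)).card = k)
    (κ : Measure E) [IsProbabilityMeasure κ] (G : Set E) (q : ℝ) (hq0 : 0 ≤ q) (hq1 : q ≤ 1)
    (hq : κ.real Gᶜ ≤ q) (kn : ℕ → ℕ) (sn : ℕ → ℕ) (J Umax : ℕ) (Φ : ℕ → ℝ)
    (hΦ0 : ∀ j, 0 ≤ Φ j)
    (hs : ∀ j < J, sn j + kn j + kn (j + 1) * Umax ≤ kn (j + 1) * nG vert (kn (j + 1)))
    (hΦ : ∀ j < J, Real.exp (-((1 - q) * (sn j / Fintype.card H) * ((kn j - 1) / 2 : ℕ))) +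
      kn j * Φ (j + 1) ≤ Φ j) :
    ∀ (r j : ℕ) (l : List (H × H)) (U : Finset V) (x : V), j + r = J → U.card + r ≤ Umax →
      x ∈ U → (∀ h ∈ dom l, vert h ∈ U) → ((dom l).filter (fun h => vert h = x)).card ≤ 1 →
      kn j ≤ deg vert x →
      ∑ σ ∈ Al l, (Measure.pi fun _ : Sym2 H => κ).real {ω | ¬ Cl vert idx kn G σ ω r j U x} ≤
        (Al l).card * Φ j := by
  classical
  intro r
  induction r with
  | zero =>
    intro j l U x _ _ _ _ _ _
    have h1 : ∀ σ ∈ Al l, (Measure.pi fun _ : Sym2 H => κ).real
        {ω | ¬ Cl vert idx kn G σ ω 0 j U x} = 0 := by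
      intro σ _
      have : {ω : Sym2 H → E | ¬ Cl vert idx kn G σ ω 0 j U x} = ∅ := by
        ext ω; simp [Cl]
      rw [this]; simp
    rw [Finset.sum_eq_zero h1]
    exact mul_nonneg (Nat.cast_nonneg _) (hΦ0 j)
  | succ r ih =>
    intro j l U x hjr hUr hxU hlU hlx hkx
    set μ : Measure (Sym2 H → E) := Measure.pi fun _ : Sym2 H => κ with hμ
    set R : Finset H := (univ.filter (fun h => vert h = x ∧ idx h < kn j)) \ dom l with hR
    set S : Finset H := Tr vert idx (kn (j + 1)) U with hS
    have hjJ : j < J := by omega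
    have hRS : Disjoint R S := by
      rw [Finset.disjoint_left]
      intro h h1 h2
      rw [hR, mem_sdiff, mem_filter] at h1
      simp only [hS, Tr, mem_filter, mem_univ, true_and] at h2
      exact h2.1 (h1.1.2.1 ▸ hxU)
    have hRl : Disjoint R (dom l) := Finset.sdiff_disjoint
    have hSl : Disjoint S (dom l) := by
      rw [Finset.disjoint_left]
      intro h h1 h2
      simp only [hS, Tr, mem_filter, mem_univ, true_and] at h1
      exact h1.1 (hlU h h2)
    have hRc1 : R.card ≤ kn j := by
      rw [← hidx x (kn j) hkx]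
      exact card_le_card sdiff_subset
    have hRc2 : kn j ≤ R.card + 1 := by
      have h1 := Finset.card_le_card_sdiff_add_card (t := (dom l).filter (fun h => vert h = x))
        (s := univ.filter (fun h => vert h = x ∧ idx h < kn j))
      rw [hidx x (kn j) hkx] at h1
      have h2 : (univ.filter (fun h => vert h = x ∧ idx h < kn j)) \
          ((dom l).filter (fun h => vert h = x)) = R := by
        rw [hR]
        ext h
        simp only [mem_sdiff, mem_filter, mem_univ, true_and]
        tauto
      rw [h2] at h1
      omega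
    have hSc : sn j + R.card ≤ S.card := by
      have h1 := card_Tr_ge vert idx hidx (kn (j + 1)) U
      have h2 := hs j hjJ
      have h3 : kn (j + 1) * U.card ≤ kn (j + 1) * Umax := Nat.mul_le_mul_left _ (by omega)
      rw [← hS] at h1
      omega
    -- the decomposition of the failure event
    have hdec : ∀ σ ∈ Al l, μ.real {ω | ¬ Cl vert idx kn G σ ω (r + 1) j U x} ≤
        μ.real {ω | ∀ h ∈ R, σ h ∈ S → ω s(h, σ h) ∉ G} +
          ∑ h ∈ R, (ind (σ h ∈ S) * μ.real {ω | ¬ Cl vert idx kn G σ ω r (j + 1)
            (insert (vert (σ h)) U) (vert (σ h))}) := by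
      intro σ _
      have hsub : {ω : Sym2 H → E | ¬ Cl vert idx kn G σ ω (r + 1) j U x} ⊆
          {ω | ∀ h ∈ R, σ h ∈ S → ω s(h, σ h) ∉ G} ∪
            ⋃ h ∈ R.filter (fun h => σ h ∈ S), {ω | ¬ Cl vert idx kn G σ ω r (j + 1)
            (insert (vert (σ h)) U) (vert (σ h))} := by
        intro ω hω
        by_cases hng : ∀ h ∈ R, σ h ∈ S → ω s(h, σ h) ∉ G
        · exact Or.inl hng
        · right
          push Not at hng
          obtain ⟨h, hhR, hhS, hhG⟩ := hng
          rw [Set.mem_iUnion₂]
          refine ⟨h, mem_filter.2 ⟨hhR, hhS⟩, ?_⟩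
          intro hcl
          apply hω
          rw [hR, mem_sdiff, mem_filter] at hhR
          simp only [hS, Tr, mem_filter, mem_univ, true_and] at hhS
          exact ⟨h, hhR.1.2.1, hhR.1.2.2, hhS.1, hhS.2.2, hhS.2.1, hhG, hcl⟩
      refine le_trans (measureReal_mono hsub) ?_
      refine le_trans (measureReal_union_le _ _) ?_
      gcongr
      refine le_trans (measureReal_biUnion_finset_le _ _) ?_
      rw [Finset.sum_filter]
      apply Finset.sum_le_sum
      intro h _
      by_cases hc : σ h ∈ S
      · rw [if_pos hc, ind_of hc, one_mul]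
      · rw [if_neg hc, ind_not hc, zero_mul]
    have hsum1 := ng_prob κ G q hq0 hq1 hq (sn j) ((kn j - 1) / 2) l R S hRS hRl hSl
      (by omega) hSc
    have hsum2 := step_sum (l := l) R hRl (fun σ => ∑ h ∈ R, (ind (σ h ∈ S) *
        μ.real {ω | ¬ Cl vert idx kn G σ ω r (j + 1) (insert (vert (σ h)) U) (vert (σ h))}))
      (fun _ y σ => ind (y ∈ S) * μ.real {ω | ¬ Cl vert idx kn G σ ω r (j + 1)
        (insert (vert y) U) (vert y)}) (fun _ _ => Φ (j + 1)) (Φ (j + 1))
      (fun σ _ => le_refl _)
      (by
        intro h hh y hy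
        by_cases hyS : y ∈ S
        · simp only [ind_of hyS, one_mul]
          have hxh : vert h = x := by
            rw [hR, mem_sdiff, mem_filter] at hh
            exact hh.1.2.1
          have hyS' := hyS
          simp only [hS, Tr, mem_filter, mem_univ, true_and] at hyS'
          apply ih (j + 1) ((h, y) :: l) (insert (vert y) U) (vert y) (by omega)
          · have := Finset.card_insert_le (vert y) U
            omega
          · exact mem_insert_self _ _
          · intro g hg
            rw [dom_cons, mem_insert, mem_insert] at hg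
            rcases hg with rfl | rfl | hg
            · rw [hxh]; exact mem_insert_of_mem hxU
            · exact mem_insert_self _ _
            · exact mem_insert_of_mem (hlU g hg)
          · have : (dom ((h, y) :: l)).filter (fun g => vert g = vert y) ⊆ {y} := by
              intro g hg
              rw [mem_filter, dom_cons, mem_insert, mem_insert] at hg
              rw [mem_singleton]
              obtain ⟨h1 | h1 | h1, h2⟩ := hg
              · exfalso
                rw [h1, hxh] at h2
                exact hyS'.1 (h2 ▸ hxU)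
              · exact h1
              · exfalso
                exact hyS'.1 (h2 ▸ hlU g h1)
            calc _ ≤ ({y} : Finset H).card := card_le_card this
              _ = 1 := card_singleton y
          · exact hyS'.2.1
        · simp only [ind_not hyS, zero_mul, Finset.sum_const_zero]
          exact mul_nonneg (Nat.cast_nonneg _) (hΦ0 _))
      (by
        intro h _
        rw [Finset.sum_const, nsmul_eq_mul]
        rcases Nat.eq_zero_or_pos (fr l h).card with h0 | h0
        · rw [h0]; simp [hΦ0]
        · have : (0 : ℝ) < (fr l h).card := by exact_mod_cast h0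
          rw [mul_div_assoc, mul_div_cancel₀]
          exact this.ne')
    calc ∑ σ ∈ Al l, μ.real {ω | ¬ Cl vert idx kn G σ ω (r + 1) j U x}
        ≤ ∑ σ ∈ Al l, (μ.real {ω | ∀ h ∈ R, σ h ∈ S → ω s(h, σ h) ∉ G} +
          ∑ h ∈ R, (ind (σ h ∈ S) * μ.real {ω | ¬ Cl vert idx kn G σ ω r (j + 1)
            (insert (vert (σ h)) U) (vert (σ h))})) := Finset.sum_le_sum hdec
      _ ≤ (Al l).card * Real.exp (-((1 - q) * (sn j / Fintype.card H) * ((kn j - 1) / 2 : ℕ))) +
          (Al l).card * (R.card * Φ (j + 1)) := by
          rw [Finset.sum_add_distrib]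
          exact add_le_add hsum1 hsum2
      _ ≤ (Al l).card * (Real.exp (-((1 - q) * (sn j / Fintype.card H) *
            ((kn j - 1) / 2 : ℕ))) + kn j * Φ (j + 1)) := by
          rw [← mul_add]
          apply mul_le_mul_of_nonneg_left _ (Nat.cast_nonneg _)
          gcongr
          exact hΦ0 _
      _ ≤ (Al l).card * Φ j := mul_le_mul_of_nonneg_left (hΦ j hjJ) (Nat.cast_nonneg _)

end Pool.Agent.H949.CM
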