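import Pool.Agent.H949.CM.Near

/-!
# Exploration from a vertex until a vertex of large degree
-/

set_option linter.unusedSectionVars false
set_option linter.unusedSimpArgs false

open Finset MeasureTheory

namespace Pool.Agent.H949.CM

variable {V H : Type*} [Fintype V] [DecidableEq V] [Fintype H] [DecidableEq H]
variable {E : Type*} [MeasurableSpace E]

/-- Exploration: from the half-edge `h`, within `M` steps of the canonical path, a fresh vertex of
degree at least `kn 0` is found, from which one can climb `J` levels. -/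
def St (vert : H → V) (idx : H → ℕ) (nx : H → H) (kn : ℕ → ℕ) (G : Set E) (J : ℕ) (σ : Mt H)
    (ω : Sym2 H → E) : ℕ → Finset V → H → Prop
  | 0, _, _ => False
  | (M + 1), U, h => vert (σ h) ∉ U ∧
      ((kn 0 ≤ deg vert (vert (σ h)) ∧
          Cl vert idx kn G σ ω J 0 (insert (vert (σ h)) U) (vert (σ h))) ∨
        (deg vert (vert (σ h)) < kn 0 ∧
          St vert idx nx kn G J σ ω M (insert (vert (σ h)) U) (nx (σ h))))

theorem stage_bound (vert : H → V) (idx : H → ℕ) (nx : H → H)
    (hidx : ∀ v k, k ≤ deg vert v → (univ.filter (fun h => vert h = v ∧ idx h < k)).card = k)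
    (hnx1 : ∀ h, nx h ≠ h) (hnx2 : ∀ h, vert (nx h) = vert h)
    (κ : Measure E) [IsProbabilityMeasure κ] (G : Set E) (q : ℝ) (hq0 : 0 ≤ q) (hq1 : q ≤ 1)
    (hq : κ.real Gᶜ ≤ q) (kn : ℕ → ℕ) (sn : ℕ → ℕ) (J Umax : ℕ) (Φ : ℕ → ℝ)
    (hΦ0 : ∀ j, 0 ≤ Φ j)
    (hs : ∀ j < J, sn j + kn j + kn (j + 1) * Umax ≤ kn (j + 1) * nG vert (kn (j + 1)))
    (hΦ : ∀ j < J, Real.exp (-((1 - q) * (sn j / Fintype.card H) * ((kn j - 1) / 2 : ℕ))) +
      kn j * Φ (j + 1) ≤ Φ j)
    (g : ℝ) (hg0 : 0 ≤ g) (hg1 : g ≤ 1) (hg : g * Fintype.card H ≤ kn 0 * nG vert (kn 0)) :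
    ∀ (M : ℕ) (l : List (H × H)) (U : Finset V) (h : H), U.card + M + J ≤ Umax →
      h ∉ dom l → vert h ∈ U → (∀ g ∈ dom l, vert g ∈ U) → (∀ v ∈ U, deg vert v < kn 0) →
      2 * ((dom l).card + 2 * (M + 1)) ≤ Fintype.card H →
      ∑ σ ∈ Al l, (Measure.pi fun _ : Sym2 H => κ).real
          {ω | ¬ St vert idx nx kn G J σ ω M U h} ≤
        (Al l).card * ((1 - g) ^ M + M * (Umax * kn 0 * (2 / Fintype.card H)) + Φ 0) := by
  classical
  intro M
  induction M with
  | zero =>
    intro l U h _ _ _ _ _ _
    have h1 : ∀ σ ∈ Al l, (Measure.pi fun _ : Sym2 H => κ).real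
        {ω | ¬ St vert idx nx kn G J σ ω 0 U h} ≤ 1 := by
      intro σ _
      exact measureReal_le_one
    calc _ ≤ ∑ σ ∈ Al l, (1 : ℝ) := Finset.sum_le_sum h1
      _ = (Al l).card * 1 := by simp
      _ ≤ _ := by
        apply mul_le_mul_of_nonneg_left _ (Nat.cast_nonneg _)
        have := hΦ0 0
        simp only [pow_zero, Nat.cast_zero, zero_mul, add_zero]
        linarith
  | succ M ih =>
    intro l U h hU hhl hhU hlU hUd hm
    set μ : Measure (Sym2 H → E) := Measure.pi fun _ : Sym2 H => κ with hμ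
    set m : ℝ := (Fintype.card H : ℝ) with hmdef
    have hmpos : 0 < Fintype.card H := by omega
    have hmR : (0 : ℝ) < m := by rw [hmdef]; exact_mod_cast hmpos
    set r : ℝ := Umax * kn 0 * (2 / m) with hr
    have hr0 : 0 ≤ r := by rw [hr]; positivity
    set β : ℝ := (1 - g) ^ M + M * r + Φ 0 with hβ
    have hβ0 : Φ 0 ≤ β := by
      have h1 : 0 ≤ (1 - g) ^ M := pow_nonneg (by linarith) _
      have h2 : 0 ≤ (M : ℝ) * r := by positivity
      rw [hβ]; linarith
    have hΦ00 := hΦ0 0
    let b : H → ℝ := fun y => if vert y ∈ U then 1 else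
      (if kn 0 ≤ deg vert (vert y) then Φ 0 else β)
    let F : H → Mt H → ℝ := fun y σ => μ.real {ω | ¬ (vert y ∉ U ∧
      ((kn 0 ≤ deg vert (vert y) ∧
          Cl vert idx kn G σ ω J 0 (insert (vert y) U) (vert y)) ∨
        (deg vert (vert y) < kn 0 ∧
          St vert idx nx kn G J σ ω M (insert (vert y) U) (nx y))))}
    have hF : ∀ y ∈ fr l h, ∑ σ ∈ Al ((h, y) :: l), F y σ ≤ (Al ((h, y) :: l)).card * b y := by
      intro y hy
      by_cases hyU : vert y ∈ U
      · simp only [b, if_pos hyU]
        calc _ ≤ ∑ σ ∈ Al ((h, y) :: l), (1 : ℝ) :=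
              Finset.sum_le_sum (fun σ _ => measureReal_le_one)
          _ = _ := by simp
      · have hdom : ∀ g ∈ dom ((h, y) :: l), vert g ∈ insert (vert y) U := by
          intro g hg
          rw [dom_cons, mem_insert, mem_insert] at hg
          rcases hg with rfl | rfl | hg
          · exact mem_insert_of_mem hhU
          · exact mem_insert_self _ _
          · exact mem_insert_of_mem (hlU g hg)
        have honly : ∀ g ∈ dom ((h, y) :: l), vert g = vert y → g = y := by
          intro g hg hgy
          rw [dom_cons, mem_insert, mem_insert] at hg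
          rcases hg with h1 | h1 | h1
          · exfalso; rw [h1] at hgy; exact hyU (hgy ▸ hhU)
          · exact h1
          · exfalso; exact hyU (hgy ▸ hlU g h1)
        have hUc : (insert (vert y) U).card ≤ U.card + 1 := Finset.card_insert_le _ _
        by_cases hyd : kn 0 ≤ deg vert (vert y)
        · simp only [b, if_neg hyU, if_pos hyd]
          have h1 : ∀ σ, F y σ = μ.real {ω | ¬ Cl vert idx kn G σ ω J 0
              (insert (vert y) U) (vert y)} := by
            intro σ
            simp only [F]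
            congr 1
            ext ω
            simp only [Set.mem_ofPred_eq]
            have : ¬ deg vert (vert y) < kn 0 := by omega
            tauto
          simp only [h1]
          apply climb_bound vert idx hidx κ G q hq0 hq1 hq kn sn J Umax Φ hΦ0 hs hΦ J 0
            ((h, y) :: l) (insert (vert y) U) (vert y) (by omega) (by omega)
            (mem_insert_self _ _) hdom _ hyd
          have : (dom ((h, y) :: l)).filter (fun g => vert g = vert y) ⊆ {y} := by
            intro g hg
            rw [mem_filter] at hg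
            rw [mem_singleton]
            exact honly g hg.1 hg.2
          calc _ ≤ ({y} : Finset H).card := card_le_card this
            _ = 1 := card_singleton y
        · simp only [b, if_neg hyU, if_neg hyd]
          have h1 : ∀ σ, F y σ = μ.real {ω | ¬ St vert idx nx kn G J σ ω M
              (insert (vert y) U) (nx y)} := by
            intro σ
            simp only [F]
            congr 1
            ext ω
            simp only [Set.mem_ofPred_eq]
            have : deg vert (vert y) < kn 0 := by omega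
            tauto
          simp only [h1]
          apply ih ((h, y) :: l) (insert (vert y) U) (nx y) (by omega)
          · intro h2
            exact hnx1 y (honly (nx y) h2 (hnx2 y))
          · rw [hnx2]; exact mem_insert_self _ _
          · exact hdom
          · intro v hv
            rw [mem_insert] at hv
            rcases hv with rfl | hv
            · omega
            · exact hUd v hv
          · have := card_dom_cons_le h y l
            omega
    refine le_trans (reveal_le hhl F b hF) ?_
    apply mul_le_mul_of_nonneg_left _ (Nat.cast_nonneg _)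
    have hfr := fr_card_ge hhl hm (by omega)
    have hfr2 : (0 : ℝ) < (fr l h).card := by
      have : (0 : ℝ) < m / 2 := by positivity
      linarith
    have hfrm : ((fr l h).card : ℝ) ≤ m := by
      rw [hmdef]; exact_mod_cast card_le_univ _
    rw [div_le_iff₀ hfr2]
    -- count
    have hpt : ∀ y ∈ fr l h, b y ≤ (if vert y ∈ U then 1 else 0) +
        ((if kn 0 ≤ deg vert (vert y) then (1 : ℝ) else 0) * (Φ 0 - β) + β) := by
      intro y _
      simp only [b]
      by_cases hyU : vert y ∈ U
      · have : ¬ kn 0 ≤ deg vert (vert y) := by have := hUd _ hyU; omega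
        rw [if_pos hyU, if_pos hyU, if_neg this]
        linarith
      · rw [if_neg hyU, if_neg hyU]
        by_cases hyd : kn 0 ≤ deg vert (vert y)
        · rw [if_pos hyd, if_pos hyd]; linarith
        · rw [if_neg hyd, if_neg hyd]; linarith
    have hc1 : ∑ y ∈ fr l h, (if vert y ∈ U then (1 : ℝ) else 0) ≤ Umax * kn 0 := by
      calc ∑ y ∈ fr l h, (if vert y ∈ U then (1 : ℝ) else 0)
          ≤ ∑ y : H, (if vert y ∈ U then (1 : ℝ) else 0) :=
            Finset.sum_le_univ_sum_of_nonneg (fun _ => by split_ifs <;> norm_num)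
        _ = ∑ v, (deg vert v : ℝ) * (if v ∈ U then (1 : ℝ) else 0) :=
            sum_half vert (fun v => if v ∈ U then (1 : ℝ) else 0)
        _ = ∑ v ∈ U, (deg vert v : ℝ) := by
            simp only [mul_ite, mul_one, mul_zero]
            rw [Finset.sum_ite_mem, Finset.univ_inter]
        _ ≤ ∑ v ∈ U, (kn 0 : ℝ) :=
            Finset.sum_le_sum (fun v hv => by exact_mod_cast (hUd v hv).le)
        _ = U.card * kn 0 := by simp
        _ ≤ Umax * kn 0 := by
            apply mul_le_mul_of_nonneg_right _ (Nat.cast_nonneg _)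
            exact_mod_cast (by omega : U.card ≤ Umax)
    have hc2 : g * (fr l h).card ≤
        ∑ y ∈ fr l h, (if kn 0 ≤ deg vert (vert y) then (1 : ℝ) else 0) := by
      have h1 : ∑ y ∈ fr l h, (if kn 0 ≤ deg vert (vert y) then (1 : ℝ) else 0) =
          ∑ y : H, (if kn 0 ≤ deg vert (vert y) then (1 : ℝ) else 0) := by
        apply Finset.sum_subset (subset_univ _)
        intro y _ hy
        have h2 : vert y ∈ U := by
          rw [mem_fr] at hy
          by_contra hc
          apply hy
          exact ⟨fun e => hc (e ▸ hhU), fun e => hc (hlU y e)⟩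
        have : ¬ kn 0 ≤ deg vert (vert y) := by have := hUd _ h2; omega
        rw [if_neg this]
      rw [h1, sum_half vert (fun v => if kn 0 ≤ deg vert v then (1 : ℝ) else 0)]
      calc g * (fr l h).card ≤ g * m := mul_le_mul_of_nonneg_left hfrm hg0
        _ ≤ kn 0 * nG vert (kn 0) := hg
        _ = ∑ v ∈ univ.filter (fun v => kn 0 ≤ deg vert v), (kn 0 : ℝ) := by
            rw [Finset.sum_const, nsmul_eq_mul]
            unfold nG
            ring
        _ ≤ ∑ v ∈ univ.filter (fun v => kn 0 ≤ deg vert v), (deg vert v : ℝ) := by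
            apply Finset.sum_le_sum
            intro v hv
            exact_mod_cast (mem_filter.1 hv).2
        _ = ∑ v, (deg vert v : ℝ) * (if kn 0 ≤ deg vert v then (1 : ℝ) else 0) := by
            rw [Finset.sum_filter]
            apply Finset.sum_congr rfl
            intro v _
            split_ifs <;> ring
    calc ∑ y ∈ fr l h, b y
        ≤ ∑ y ∈ fr l h, ((if vert y ∈ U then 1 else 0) +
          ((if kn 0 ≤ deg vert (vert y) then (1 : ℝ) else 0) * (Φ 0 - β) + β)) :=
          Finset.sum_le_sum hpt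
      _ = ∑ y ∈ fr l h, (if vert y ∈ U then (1 : ℝ) else 0) +
          ((∑ y ∈ fr l h, (if kn 0 ≤ deg vert (vert y) then (1 : ℝ) else 0)) * (Φ 0 - β) +
            (fr l h).card * β) := by
          rw [Finset.sum_add_distrib, Finset.sum_add_distrib, Finset.sum_mul,
            Finset.sum_const, nsmul_eq_mul]
      _ ≤ Umax * kn 0 + (g * (fr l h).card * (Φ 0 - β) + (fr l h).card * β) := by
          have h1 : Φ 0 - β ≤ 0 := by linarith
          have h2 := mul_le_mul_of_nonpos_right hc2 h1
          linarith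
      _ ≤ r * (fr l h).card + (g * (fr l h).card * (Φ 0 - β) + (fr l h).card * β) := by
          have h1 : (Umax : ℝ) * kn 0 ≤ r * (fr l h).card := by
            calc (Umax : ℝ) * kn 0 = r * (m / 2) := by rw [hr]; field_simp
              _ ≤ r * (fr l h).card := mul_le_mul_of_nonneg_left hfr hr0
          linarith
      _ = (r + (1 - g) * ((1 - g) ^ M + M * r) + Φ 0) * (fr l h).card := by
          rw [hβ]; ring
      _ ≤ ((1 - g) ^ (M + 1) + (M + 1 : ℕ) * r + Φ 0) * (fr l h).card := by
          apply mul_le_mul_of_nonneg_right _ hfr2.le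
          have h1 : (1 - g) * (M * r) ≤ M * r := by
            have : 0 ≤ (M : ℝ) * r := by positivity
            nlinarith
          have h2 : (1 - g) ^ (M + 1) = (1 - g) * (1 - g) ^ M := by ring
          rw [h2]
          push_cast
          nlinarith

/-- Climbing from `u`. -/
def Up (vert : H → V) (idx : H → ℕ) (nx : H → H) (kn : ℕ → ℕ) (G : Set E) (J M : ℕ) (σ : Mt H)
    (ω : Sym2 H → E) (h0 : H) : Prop :=
  (kn 0 ≤ deg vert (vert h0) ∧ Cl vert idx kn G σ ω J 0 {vert h0} (vert h0)) ∨
    (deg vert (vert h0) < kn 0 ∧ St vert idx nx kn G J σ ω M {vert h0} h0)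

theorem up_bound (vert : H → V) (idx : H → ℕ) (nx : H → H)
    (hidx : ∀ v k, k ≤ deg vert v → (univ.filter (fun h => vert h = v ∧ idx h < k)).card = k)
    (hnx1 : ∀ h, nx h ≠ h) (hnx2 : ∀ h, vert (nx h) = vert h)
    (κ : Measure E) [IsProbabilityMeasure κ] (G : Set E) (q : ℝ) (hq0 : 0 ≤ q) (hq1 : q ≤ 1)
    (hq : κ.real Gᶜ ≤ q) (kn : ℕ → ℕ) (sn : ℕ → ℕ) (J Umax : ℕ) (Φ : ℕ → ℝ)
    (hΦ0 : ∀ j, 0 ≤ Φ j)
    (hs : ∀ j < J, sn j + kn j + kn (j + 1) * Umax ≤ kn (j + 1) * nG vert (kn (j + 1)))
    (hΦ : ∀ j < J, Real.exp (-((1 - q) * (sn j / Fintype.card H) * ((kn j - 1) / 2 : ℕ))) +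
      kn j * Φ (j + 1) ≤ Φ j)
    (g : ℝ) (hg0 : 0 ≤ g) (hg1 : g ≤ 1) (hg : g * Fintype.card H ≤ kn 0 * nG vert (kn 0))
    (M : ℕ) (hU : 1 + M + J ≤ Umax) (h0 : H) (hm : 4 * (M + 1) ≤ Fintype.card H) :
    ∑ σ : Mt H, (Measure.pi fun _ : Sym2 H => κ).real
        {ω | ¬ Up vert idx nx kn G J M σ ω h0} ≤
      Fintype.card (Mt H) *
        ((1 - g) ^ M + M * (Umax * kn 0 * (2 / Fintype.card H)) + Φ 0) := by
  classical
  have hΦ00 := hΦ0 0
  by_cases hd : kn 0 ≤ deg vert (vert h0)
  · have h1 := climb_bound vert idx hidx κ G q hq0 hq1 hq kn sn J Umax Φ hΦ0 hs hΦ J 0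
      [] {vert h0} (vert h0) (by omega) (by rw [card_singleton]; omega)
      (by simp) (by simp) (by simp) hd
    rw [Al_nil, Finset.card_univ] at h1
    refine le_trans (Finset.sum_le_sum (fun σ _ => measureReal_mono ?_)) (le_trans h1 ?_)
    · intro ω hω hcl
      exact hω (Or.inl ⟨hd, hcl⟩)
    · apply mul_le_mul_of_nonneg_left _ (Nat.cast_nonneg _)
      have h1 : 0 ≤ (1 - g) ^ M := pow_nonneg (by linarith) _
      have h2 : (0 : ℝ) ≤ M * (Umax * kn 0 * (2 / Fintype.card H)) := by positivity
      linarith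
  · have h1 := stage_bound vert idx nx hidx hnx1 hnx2 κ G q hq0 hq1 hq kn sn J Umax Φ hΦ0 hs hΦ
      g hg0 hg1 hg M [] {vert h0} h0 (by rw [card_singleton]; omega) (by simp) (by simp)
      (by simp) (by intro v hv; rw [mem_singleton] at hv; subst hv; omega)
      (by simp; omega)
    rw [Al_nil, Finset.card_univ] at h1
    refine le_trans (Finset.sum_le_sum (fun σ _ => measureReal_mono ?_)) h1
    intro ω hω hst
    exact hω (Or.inr ⟨by omega, hst⟩)

/-- Two vertices of degree at least `k` are joined by a good edge. -/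
theorem top_bound (vert : H → V) (idx : H → ℕ)
    (hidx : ∀ v k, k ≤ deg vert v → (univ.filter (fun h => vert h = v ∧ idx h < k)).card = k)
    (κ : Measure E) [IsProbabilityMeasure κ] (G : Set E) (q : ℝ) (hq0 : 0 ≤ q) (hq1 : q ≤ 1)
    (hq : κ.real Gᶜ ≤ q) (k e : ℕ) (hk : 4 * e ≤ k) (x z : V) (hxz : x ≠ z)
    (hx : k ≤ deg vert x) (hz : k ≤ deg vert z) :
    ∑ σ : Mt H, (Measure.pi fun _ : Sym2 H => κ).real
        {ω | ¬ ∃ h, vert h = x ∧ vert (σ h) = z ∧ ω s(h, σ h) ∈ G} ≤
      Fintype.card (Mt H) * Real.exp (-((1 - q) * ((2 * e : ℕ) / Fintype.card H) * e)) := by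
  classical
  have h1 := ng_prob κ G q hq0 hq1 hq (2 * e) e []
    (univ.filter (fun h => vert h = x ∧ idx h < 2 * e))
    (univ.filter (fun h => vert h = z ∧ idx h < k))
    (by
      rw [Finset.disjoint_left]
      intro h h1 h2
      rw [mem_filter] at h1 h2
      exact hxz (h1.2.1.symm.trans h2.2.1))
    (by simp) (by simp)
    (by rw [hidx x (2 * e) (by omega)])
    (by rw [hidx x (2 * e) (by omega), hidx z k hz]; omega)
  rw [Al_nil, Finset.card_univ] at h1
  refine le_trans (Finset.sum_le_sum (fun σ _ => measureReal_mono ?_)) h1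
  intro ω hω h hh hS hG
  apply hω
  rw [mem_filter] at hh hS
  exact ⟨h, hh.2.1, hS.2.1, hG⟩

end Pool.Agent.H949.CM
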