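import Pool.Agent.H949.CM.Model
import Pool.Agent.H949.CM.Far2

/-!
# Reduction of the competition to two static events
-/

set_option linter.unusedSectionVars false
set_option linter.unusedSimpArgs false

open MeasureTheory Finset ProbabilityTheory
open scoped ENNReal

namespace Pool.Agent.H949.CM

theorem pi_null {H : Type*} [Fintype H] [DecidableEq H] (κ : Measure (ℝ × ℝ))
    [IsProbabilityMeasure κ] {S : Set (ℝ × ℝ)} (hS : MeasurableSet S) (h0 : κ S = 0) :
    (Measure.pi fun _ : Sym2 H => κ).real {ω | ∃ e, ω e ∈ S} = 0 := by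
  have h1 : (Measure.pi fun _ : Sym2 H => κ) {ω | ∃ e, ω e ∈ S} = 0 := by
    have : {ω : Sym2 H → ℝ × ℝ | ∃ e, ω e ∈ S} = ⋃ e, (Function.eval e) ⁻¹' S := by
      ext ω; simp
    rw [this, measure_iUnion_null_iff]
    intro e
    rw [(measurePreserving_eval (fun _ : Sym2 H => κ) e).measure_preimage hS.nullMeasurableSet]
    exact h0
  unfold Measure.real
  rw [h1]; rfl

theorem sum_ind_not {ι : Type*} [Fintype ι] (P : ι → Prop) :
    ∑ i, ind (¬ P i) = Fintype.card ι - ∑ i, ind (P i) := by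
  have h1 : ∀ i, ind (¬ P i) = 1 - ind (P i) := by
    intro i
    by_cases h : P i
    · rw [ind_of h, ind_not (not_not.2 h)]; norm_num
    · rw [ind_not h, ind_of h]; norm_num
  simp only [h1, Finset.sum_sub_distrib, Finset.sum_const, Finset.card_univ, nsmul_eq_mul, mul_one]

theorem sum_ind_card {ι : Type*} [Fintype ι] (P : ι → Prop) [DecidablePred P] :
    ∑ i, ind (P i) = ((univ.filter P).card : ℝ) := by
  rw [Finset.card_filter]
  push_cast
  apply Finset.sum_congr rfl
  intro i _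
  by_cases h : P i
  · rw [ind_of h, if_pos h]
  · rw [ind_not h, if_neg h]

theorem quenched {n : ℕ} (d : Fin (n + 1) → ℕ) (hd2 : ∀ v, 2 ≤ d v) (κ : Measure (ℝ × ℝ))
    [IsProbabilityMeasure κ] {y0 β : ℝ} (hy0 : 0 < y0) (hβ : 0 < β)
    (hκ1 : κ {p | p.1 < y0} = 0) (hκ2 : κ {p | p.2 < β} = 0)
    (K Lm : ℕ) (C G0 ε ε1 ε2 ρ : ℝ) (hε : 0 < ε) (hε1 : 0 ≤ ε1) (hε2 : 0 ≤ ε2)
    (hnum : ∀ m ≤ Lm, ∀ i ≤ m, ∀ j : ℕ, K < j + i → K < j + (m - i) → y0 * i + C < β * j)
    (hfar : ∀ u v : Fin (n + 1), u ≠ v → (d u : ℝ) ≤ G0 → (d v : ℝ) ≤ G0 →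
      ∑ σ : Mt (HalfEdge d), ind (∃ k ≤ K, Wk vtx σ k u v) ≤ Fintype.card (Mt (HalfEdge d)) * ε1)
    (hnear : ∀ h1 h2 : HalfEdge d, ∑ σ : Mt (HalfEdge d),
      (Measure.pi fun _ : Sym2 (HalfEdge d) => κ).real
        {ω | ¬ NearP vtx σ ω y0 Lm C (vtx h1) (vtx h2)} ≤ Fintype.card (Mt (HalfEdge d)) * ε2)
    (hρ : ((univ.filter (fun v => G0 < (d v : ℝ))).card : ℝ) ≤ ρ * (n + 1)) :
    cmLaw κ d (fewRed d ε) ≤
      ENNReal.ofReal ((2 * (ε1 + 1 / ((n : ℝ) + 1) + 2 * ρ) + ε2) / ε) := by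
  classical
  set μ := (Measure.pi fun _ : Sym2 (HalfEdge d) => κ) with hμ
  set N : ℝ := (n : ℝ) + 1 with hN
  have hNpos : 0 < N := by positivity
  have hcardN : (Fintype.card (Fin (n + 1)) : ℝ) = N := by
    rw [Fintype.card_fin]; push_cast; rfl
  refine le_trans (cmLaw_le κ d _) (ENNReal.ofReal_le_ofReal ?_)
  -- the static failure sets
  let A : Mt (HalfEdge d) → Fin (n + 1) → Fin (n + 1) → Fin (n + 1) →
      Set (Sym2 (HalfEdge d) → ℝ × ℝ) := fun σ a b v =>
    {ω | (∃ k ≤ K, Wk vtx σ k b a) ∨ ((∃ k ≤ K, Wk vtx σ k b v) ∨ ¬ NearP vtx σ ω y0 Lm C a v)}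
  have hm1 : MeasurableSet {p : ℝ × ℝ | p.1 < y0} := measurableSet_lt measurable_fst measurable_const
  have hm2 : MeasurableSet {p : ℝ × ℝ | p.2 < β} := measurableSet_lt measurable_snd measurable_const
  have hnull1 := pi_null (H := HalfEdge d) κ hm1 hκ1
  have hnull2 := pi_null (H := HalfEdge d) κ hm2 hκ2
  have hstep1 : ∀ σ a b, μ.real {ω | (σ, ω, a, b) ∈ fewRed d ε} ≤
      (∑ v, μ.real (A σ a b v)) / (ε * N) := by
    intro σ a b
    have hsub : {ω | (σ, ω, a, b) ∈ fewRed d ε} ⊆ {ω | ∃ e, ω e ∈ {p : ℝ × ℝ | p.1 < y0}} ∪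
        ({ω | ∃ e, ω e ∈ {p : ℝ × ℝ | p.2 < β}} ∪
          {ω | ε * N ≤ ∑ v, ind (ω ∈ A σ a b v)}) := by
      intro ω hω
      by_cases c1 : ∃ e, ω e ∈ {p : ℝ × ℝ | p.1 < y0}
      · exact Or.inl c1
      by_cases c2 : ∃ e, ω e ∈ {p : ℝ × ℝ | p.2 < β}
      · exact Or.inr (Or.inl c2)
      right; right
      have c1' : ∀ e, y0 ≤ (ω e).1 := by
        intro e
        by_contra hcon
        exact c1 ⟨e, not_le.1 hcon⟩
      have c2' : ∀ e, β ≤ (ω e).2 := by
        intro e
        by_contra hcon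
        exact c2 ⟨e, not_le.1 hcon⟩
      obtain ⟨t, col, hO, hfew⟩ := hω
      have hred : ∀ v, ω ∉ A σ a b v → col v = some true := by
        intro v hv
        have hv' : ¬ ((∃ k ≤ K, Wk vtx σ k b a) ∨
          ((∃ k ≤ K, Wk vtx σ k b v) ∨ ¬ NearP vtx σ ω y0 Lm C a v)) := hv
        rw [not_or, not_or, not_not] at hv'
        obtain ⟨f1, f2, k, hk, f3⟩ := hv'
        refine det_main hO hβ hy0.le ?_ (fun e => (ω e).1) c1' ?_ K k C v f1 f2 f3
          (hnum k hk)
        · intro e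
          simp only [len, Bool.false_eq_true, if_false]
          exact ENNReal.ofReal_le_ofReal (c2' e)
        · intro e
          simp only [len, if_true]
          exact le_refl _
      have h1 : ∑ v, ind (¬ col v = some true) ≤ ∑ v, ind (ω ∈ A σ a b v) := by
        apply Finset.sum_le_sum
        intro v _
        apply ind_mono
        intro h
        by_contra hcon
        exact h (hred v hcon)
      rw [sum_ind_not, sum_ind_card, hcardN] at h1
      have hfew' : ((univ.filter (fun v => col v = some true)).card : ℝ) < (1 - ε) * N := hfew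
      show ε * N ≤ ∑ v, ind (ω ∈ A σ a b v)
      linarith
    refine le_trans (measureReal_mono hsub (measure_ne_top _ _)) ?_
    refine le_trans (measureReal_union_le _ _) ?_
    rw [hnull1, zero_add]
    refine le_trans (measureReal_union_le _ _) ?_
    rw [hnull2, zero_add]
    exact outer_markov μ (A σ a b) (ε * N) (by positivity)
  have hstep2 : ∀ σ a b v, μ.real (A σ a b v) ≤ ind (∃ k ≤ K, Wk vtx σ k b a) +
      (ind (∃ k ≤ K, Wk vtx σ k b v) + μ.real {ω | ¬ NearP vtx σ ω y0 Lm C a v}) := by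
    intro σ a b v
    have h0 : 0 ≤ μ.real {ω | ¬ NearP vtx σ ω y0 Lm C a v} := measureReal_nonneg
    have h00 := ind_nonneg (∃ k ≤ K, Wk vtx σ k b a)
    have h01 := ind_nonneg (∃ k ≤ K, Wk vtx σ k b v)
    by_cases c1 : ∃ k ≤ K, Wk vtx σ k b a
    · rw [ind_of c1]
      have : μ.real (A σ a b v) ≤ 1 := measureReal_le_one
      linarith
    by_cases c2 : ∃ k ≤ K, Wk vtx σ k b v
    · rw [ind_of c2]
      have : μ.real (A σ a b v) ≤ 1 := measureReal_le_one
      linarith
    have : μ.real (A σ a b v) ≤ μ.real {ω | ¬ NearP vtx σ ω y0 Lm C a v} := by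
      apply measureReal_mono _ (measure_ne_top _ _)
      rintro ω (h | h | h)
      · exact absurd h c1
      · exact absurd h c2
      · exact h
    linarith
  -- summation over the matching
  set Mc : ℝ := (Fintype.card (Mt (HalfEdge d)) : ℝ) with hMc
  have hMc0 : 0 ≤ Mc := Nat.cast_nonneg _
  have hf : ∀ u v : Fin (n + 1), ∑ σ : Mt (HalfEdge d), ind (∃ k ≤ K, Wk vtx σ k u v) ≤
      Mc * (ε1 + (ind (u = v) + (ind (G0 < (d u : ℝ)) + ind (G0 < (d v : ℝ))))) := by
    intro u v
    have i1 := ind_nonneg (u = v)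
    have i2 := ind_nonneg (G0 < (d u : ℝ))
    have i3 := ind_nonneg (G0 < (d v : ℝ))
    have htriv : ∑ σ : Mt (HalfEdge d), ind (∃ k ≤ K, Wk vtx σ k u v) ≤ Mc * 1 := by
      calc _ ≤ ∑ σ : Mt (HalfEdge d), (1 : ℝ) := Finset.sum_le_sum (fun _ _ => ind_le_one _)
        _ = Mc * 1 := by rw [Finset.sum_const, Finset.card_univ, nsmul_eq_mul]
    by_cases c1 : u = v
    · refine le_trans htriv (mul_le_mul_of_nonneg_left ?_ hMc0)
      rw [ind_of c1]; linarith
    by_cases c2 : G0 < (d u : ℝ)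
    · refine le_trans htriv (mul_le_mul_of_nonneg_left ?_ hMc0)
      rw [ind_of c2]; linarith
    by_cases c3 : G0 < (d v : ℝ)
    · refine le_trans htriv (mul_le_mul_of_nonneg_left ?_ hMc0)
      rw [ind_of c3]; linarith
    refine le_trans (hfar u v c1 (not_lt.1 c2) (not_lt.1 c3)) (mul_le_mul_of_nonneg_left ?_ hMc0)
    linarith
  have hG0 : ∑ v : Fin (n + 1), ind (G0 < (d v : ℝ)) ≤ ρ * N := by
    rw [sum_ind_card]; exact hρ
  have hsum2 : ∑ a : Fin (n + 1), ∑ b : Fin (n + 1),
      (ε1 + (ind (b = a) + (ind (G0 < (d b : ℝ)) + ind (G0 < (d a : ℝ))))) ≤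
      N * N * ε1 + (N + (N * (ρ * N) + N * (ρ * N))) := by
    simp only [Finset.sum_add_distrib, Finset.sum_const, Finset.card_univ, Fintype.card_fin,
      nsmul_eq_mul]
    have e1 : ∀ a : Fin (n + 1), ∑ b : Fin (n + 1), ind (b = a) = 1 := by
      intro a
      rw [Finset.sum_eq_single a]
      · exact ind_of rfl
      · intro b _ hb; exact ind_not hb
      · intro h; exact absurd (mem_univ a) h
    simp only [e1, Finset.sum_const, Finset.card_univ, Fintype.card_fin, nsmul_eq_mul]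
    have e2 : ((n + 1 : ℕ) : ℝ) = N := by push_cast; rfl
    rw [e2, ← Finset.mul_sum]
    nlinarith [hG0]
  have hnear' : ∀ a v : Fin (n + 1), ∑ σ : Mt (HalfEdge d),
      μ.real {ω | ¬ NearP vtx σ ω y0 Lm C a v} ≤ Mc * ε2 := by
    intro a v
    have ha : 0 < d a := lt_of_lt_of_le (by norm_num) (hd2 a)
    have hv : 0 < d v := lt_of_lt_of_le (by norm_num) (hd2 v)
    exact hnear ⟨a, ⟨0, ha⟩⟩ ⟨v, ⟨0, hv⟩⟩
  -- total
  have htotal : ∑ σ : Mt (HalfEdge d), ∑ a : Fin (n + 1), ∑ b : Fin (n + 1),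
      μ.real {ω | (σ, ω, a, b) ∈ fewRed d ε} ≤
      Mc * (2 * (N * (N * N * ε1 + (N + (N * (ρ * N) + N * (ρ * N))))) + N * N * N * ε2) /
        (ε * N) := by
    calc ∑ σ : Mt (HalfEdge d), ∑ a : Fin (n + 1), ∑ b : Fin (n + 1),
          μ.real {ω | (σ, ω, a, b) ∈ fewRed d ε}
        ≤ ∑ σ : Mt (HalfEdge d), ∑ a : Fin (n + 1), ∑ b : Fin (n + 1),
          (∑ v : Fin (n + 1), (ind (∃ k ≤ K, Wk vtx σ k b a) +
            (ind (∃ k ≤ K, Wk vtx σ k b v) + μ.real {ω | ¬ NearP vtx σ ω y0 Lm C a v}))) /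
              (ε * N) := by
          apply Finset.sum_le_sum; intro σ _
          apply Finset.sum_le_sum; intro a _
          apply Finset.sum_le_sum; intro b _
          refine le_trans (hstep1 σ a b) ?_
          apply div_le_div_of_nonneg_right _ (by positivity)
          exact Finset.sum_le_sum (fun v _ => hstep2 σ a b v)
      _ = (∑ a : Fin (n + 1), ∑ b : Fin (n + 1), ∑ v : Fin (n + 1),
            ((∑ σ : Mt (HalfEdge d), ind (∃ k ≤ K, Wk vtx σ k b a)) +
            ((∑ σ : Mt (HalfEdge d), ind (∃ k ≤ K, Wk vtx σ k b v)) +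
              ∑ σ : Mt (HalfEdge d), μ.real {ω | ¬ NearP vtx σ ω y0 Lm C a v}))) / (ε * N) := by
          simp only [← Finset.sum_div]
          congr 1
          rw [Finset.sum_comm]
          apply Finset.sum_congr rfl; intro a _
          rw [Finset.sum_comm]
          apply Finset.sum_congr rfl; intro b _
          rw [Finset.sum_comm]
          apply Finset.sum_congr rfl; intro v _
          rw [Finset.sum_add_distrib, Finset.sum_add_distrib]
      _ ≤ (∑ a : Fin (n + 1), ∑ b : Fin (n + 1), ∑ v : Fin (n + 1),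
            (Mc * (ε1 + (ind (b = a) + (ind (G0 < (d b : ℝ)) + ind (G0 < (d a : ℝ))))) +
            (Mc * (ε1 + (ind (b = v) + (ind (G0 < (d b : ℝ)) + ind (G0 < (d v : ℝ))))) +
              Mc * ε2))) / (ε * N) := by
          apply div_le_div_of_nonneg_right _ (by positivity)
          apply Finset.sum_le_sum; intro a _
          apply Finset.sum_le_sum; intro b _
          apply Finset.sum_le_sum; intro v _
          exact add_le_add (hf b a) (add_le_add (hf b v) (hnear' a v))
      _ = Mc * (N * (∑ a : Fin (n + 1), ∑ b : Fin (n + 1),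
            (ε1 + (ind (b = a) + (ind (G0 < (d b : ℝ)) + ind (G0 < (d a : ℝ)))))) +
            N * (∑ a : Fin (n + 1), ∑ b : Fin (n + 1),
            (ε1 + (ind (b = a) + (ind (G0 < (d b : ℝ)) + ind (G0 < (d a : ℝ)))))) +
              N * N * N * ε2) / (ε * N) := by
          congr 1
          have e2 : ((n + 1 : ℕ) : ℝ) = N := by push_cast; rfl
          have p1 : ∑ a : Fin (n + 1), ∑ b : Fin (n + 1), ∑ _v : Fin (n + 1),
              Mc * (ε1 + (ind (b = a) + (ind (G0 < (d b : ℝ)) + ind (G0 < (d a : ℝ))))) =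
              Mc * (N * (∑ a : Fin (n + 1), ∑ b : Fin (n + 1),
            (ε1 + (ind (b = a) + (ind (G0 < (d b : ℝ)) + ind (G0 < (d a : ℝ))))))) := by
            simp only [Finset.sum_const, Finset.card_univ, Fintype.card_fin, nsmul_eq_mul, e2,
              Finset.mul_sum]
            apply Finset.sum_congr rfl; intro a _
            apply Finset.sum_congr rfl; intro b _
            ring
          have p2 : ∑ _a : Fin (n + 1), ∑ b : Fin (n + 1), ∑ v : Fin (n + 1),
              Mc * (ε1 + (ind (b = v) + (ind (G0 < (d b : ℝ)) + ind (G0 < (d v : ℝ))))) =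
              Mc * (N * (∑ a : Fin (n + 1), ∑ b : Fin (n + 1),
            (ε1 + (ind (b = a) + (ind (G0 < (d b : ℝ)) + ind (G0 < (d a : ℝ))))))) := by
            rw [Finset.sum_const, Finset.card_univ, Fintype.card_fin, nsmul_eq_mul, e2]
            rw [Finset.sum_comm (s := (univ : Finset (Fin (n + 1)))) (t := univ)
              (f := fun b v => Mc * (ε1 + (ind (b = v) +
                (ind (G0 < (d b : ℝ)) + ind (G0 < (d v : ℝ))))))]
            simp only [← Finset.mul_sum]
            ring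
          have p3 : ∑ _a : Fin (n + 1), ∑ _b : Fin (n + 1), ∑ _v : Fin (n + 1), Mc * ε2 =
              Mc * (N * N * N * ε2) := by
            simp only [Finset.sum_const, Finset.card_univ, Fintype.card_fin, nsmul_eq_mul, e2]
            ring
          simp only [Finset.sum_add_distrib] at p1 p2 p3 ⊢
          linarith [p1, p2, p3]
      _ ≤ _ := by
          apply div_le_div_of_nonneg_right _ (by positivity)
          apply mul_le_mul_of_nonneg_left _ hMc0
          have := mul_le_mul_of_nonneg_left hsum2 hNpos.le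
          linarith
  rcases eq_or_lt_of_le hMc0 with h0 | h0
  · rw [← h0]
    simp only [zero_mul, div_zero]
    have hρ0 : 0 ≤ ρ * N := le_trans (Nat.cast_nonneg _) hρ
    have hρ0' : 0 ≤ ρ := by
      by_contra hcon
      push Not at hcon
      nlinarith
    positivity
  · rw [div_le_iff₀ (by positivity)]
    refine le_trans htotal ?_
    rw [div_le_iff₀ (by positivity)]
    apply le_of_eq
    have hN0 : N ≠ 0 := hNpos.ne'
    field_simp
    ring

end Pool.Agent.H949.CM
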